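import Pool.Agent.W2helper39.FV.Coef
import Pool.Agent.N254.SQ.Hblk
import Pool.Agent.N254.SQ.Hineq
import Pool.Agent.W2helper39.LC.Core

/-!
Points over function fields at which a sum of terms vanishes minimally, where each term is a power
`G ℓ ^ D` of a linear form with a factor of small degree, or a unit outside of a finite set of places;
the coefficients are in the function field.
-/

set_option autoImplicit false

namespace Pool.Agent.W2helper39.FV

open MvPolynomial FF
open Pool.Agent.N254.SQ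
open Pool.Agent.W603.LV (canDeg hgt tri)
open Pool.Agent.W603.PV (pht pord)

theorem alg_F (n e M : ℕ) : ∃ D₁ C₁ : ℕ, ∀ D, D₁ ≤ D → ∀ (k : Type) [Field k] [IsAlgClosed k]
    [CharZero k] (L : Type) [Field L] [Algebra k L] [IsFF k L] (C : Finset L)
    (s : Finset (Place k L)) (κ : Type) [Fintype κ], Fintype.card κ ≤ M → 2 ≤ Fintype.card κ →
    ∀ (y : Fin (n + 1) → L), y ≠ 0 → ∀ (u : κ → L) (S : Finset κ)
      (G lf : κ → MvPolynomial (Fin (n + 1)) L) (p : Fin (n + 1) → ℕ) (ψ : Fin (n + 1) → κ),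
      Function.Injective p →
      (∀ t ∈ S, (G t).IsHomogeneous e ∧ CoefIn C (G t) ∧
        u t = aeval y (G t) * aeval y (lf t) ^ D) →
      (∀ t, t ∉ S → ∀ P ∉ s, P.ord (u t) = e * pord P y + D * pord P y) →
      (∀ i, ψ i ∈ S ∧ lf (ψ i) = lin L n (p i)) →
      ∑ t, u t = 0 → (∀ B : Finset κ, B.Nonempty → B ≠ Finset.univ → ∑ t ∈ B, u t ≠ 0) →
      D * pht k y ≤ C₁ * (max (canDeg k L + s.card) 0 + cht k C) := by
  classical
  obtain ⟨T, hT⟩ : ∃ T : ℕ, T = (tri M).toNat := ⟨_, rfl⟩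
  have hT0 : tri M = (T : ℤ) := by
    rw [hT, Int.toNat_of_nonneg (Pool.Agent.W603.LV.tri_nonneg M)]
  refine ⟨2 * ((n + 1) * (2 * M ^ 2 * T * e + e)) + 2 * M ^ 2 + 1,
    2 * ((n + 1) * (2 * M * T)) + 2 * ((n + 1) * (4 * M ^ 2 * T + 1)), ?_⟩
  intro D hD k _ _ _ L _ _ _ C s κ _ hκM hκ2 y hy u S G lf p ψ hp hS hbd hψ hsum hmin
  have hD1 : 1 ≤ D := by omega
  have hDM : 2 * M ^ 2 ≤ D := by omega
  -- the terms are not zero
  have hne : ∀ t, u t ≠ 0 := by
    intro t
    have h3 := hmin {t} (Finset.singleton_nonempty t) (by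
      intro h
      have h4 := congrArg Finset.card h
      rw [Finset.card_singleton, Finset.card_univ] at h4
      omega)
    rwa [Finset.sum_singleton] at h3
  have hGne : ∀ t ∈ S, aeval y (G t) ≠ 0 := fun t ht => by
    have h3 := hne t
    rw [(hS t ht).2.2] at h3
    exact left_ne_zero_of_mul h3
  have hlne : ∀ t ∈ S, aeval y (lf t) ≠ 0 := by
    intro t ht h
    apply hne t
    rw [(hS t ht).2.2, h, zero_pow (by omega), mul_zero]
  obtain ⟨β, hβ⟩ : ∃ β, β = cht k C := ⟨_, rfl⟩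
  have hβ0 : 0 ≤ β := by rw [hβ]; exact cht_nonneg C
  obtain ⟨h, hh⟩ : ∃ h, h = pht k y := ⟨_, rfl⟩
  have hz : ∀ t, ∃ St : Finset (Place k L), t ∈ S → (St.card : ℤ) ≤ e * h + 2 * β ∧
      ∀ P ∉ St, P.ord (aeval y (G t)) = e * pord P y := by
    intro t
    by_cases ht : t ∈ S
    · obtain ⟨St, h3, h4⟩ := coef_zeros (k := k) hy (hS t ht).1 (hS t ht).2.1 (hGne t ht)
      exact ⟨St, fun _ => ⟨by rw [hh, hβ]; exact h3, h4⟩⟩
    · exact ⟨∅, fun h => absurd h ht⟩
  choose St hSt using hz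
  have heh : 0 ≤ (e : ℤ) * h + 2 * β :=
    le_trans (Int.natCast_nonneg _) (hSt _ (hψ 0).1).1
  obtain ⟨SS, hSS⟩ : ∃ SS, SS = S.biUnion St := ⟨_, rfl⟩
  have hcard : (SS.card : ℤ) ≤ M * (e * h + 2 * β) := by
    have h3 : SS.card ≤ ∑ t ∈ S, (St t).card := by rw [hSS]; exact Finset.card_biUnion_le
    have h4 : (SS.card : ℤ) ≤ ∑ t ∈ S, ((St t).card : ℤ) := by exact_mod_cast h3
    have h5 : ∑ t ∈ S, ((St t).card : ℤ) ≤ ∑ _t ∈ S, (e * h + 2 * β : ℤ) :=
      Finset.sum_le_sum fun t ht => (hSt t ht).1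
    rw [Finset.sum_const, nsmul_eq_mul] at h5
    have h6 : (S.card : ℤ) * (e * h + 2 * β) ≤ M * (e * h + 2 * β) :=
      mul_le_mul_of_nonneg_right (by exact_mod_cast (Finset.card_le_univ S).trans hκM) heh
    linarith
  obtain ⟨S2, hS2⟩ : ∃ S2, S2 = SS ∪ s := ⟨_, rfl⟩
  have hcard2 : (S2.card : ℤ) ≤ M * (e * h + 2 * β) + s.card := by
    have h3 : S2.card ≤ SS.card + s.card := by rw [hS2]; exact Finset.card_union_le _ _
    have h4 : (S2.card : ℤ) ≤ SS.card + s.card := by exact_mod_cast h3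
    linarith
  -- the height inequality
  have hblk := t_hblk t_hineq k L S2 κ M D hκM hD1 hDM u hne hsum hmin (by
      intro P hP i j hij
      rw [hS2, Finset.mem_union, not_or] at hP
      have hP' : ∀ t ∈ S, P ∉ St t := by
        intro t hts ht
        apply hP.1
        rw [hSS, Finset.mem_biUnion]
        exact ⟨t, hts, ht⟩
      have hord : ∀ t, ∃ x : ℤ, P.ord (u t) = e * pord P y + D * x := by
        intro t
        by_cases hts : t ∈ S
        · refine ⟨P.ord (aeval y (lf t)), ?_⟩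
          rw [(hS t hts).2.2, P.ord_mul (hGne t hts) (pow_ne_zero _ (hlne t hts)), P.ord_pow,
            (hSt t hts).2 P (hP' t hts)]
        · exact ⟨pord P y, hbd t hts P hP.2⟩
      obtain ⟨xi, hxi⟩ := hord i
      obtain ⟨xj, hxj⟩ := hord j
      rw [hxi, hxj] at hij
      rw [hxi, hxj]
      have h3 : (D : ℤ) * xj < D * xi := by linarith
      have h4 : xj < xi := lt_of_mul_lt_mul_left h3 (by positivity)
      have h5 : (D : ℤ) * (xj + 1) ≤ D * xi :=
        mul_le_mul_of_nonneg_left (by omega) (by positivity)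
      linarith)
  obtain ⟨χ, hχ⟩ : ∃ χ, χ = max (canDeg k L + s.card) 0 := ⟨_, rfl⟩
  have hχ0 : 0 ≤ χ := by rw [hχ]; exact le_max_right _ _
  have hM0 : (0 : ℤ) ≤ M := by positivity
  have hTT : (0 : ℤ) ≤ T := by positivity
  have hmax : max (canDeg k L + S2.card) 0 ≤ χ + M * (e * h + 2 * β) := by
    have h3 : canDeg k L + s.card ≤ χ := by rw [hχ]; exact le_max_left _ _
    have h4 : 0 ≤ (M : ℤ) * (e * h + 2 * β) := mul_nonneg hM0 heh
    exact max_le (by linarith) (by linarith)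
  have hrat : ∀ i ∈ S, ∀ j ∈ S, (D : ℤ) * hgt k (aeval y (lf i) / aeval y (lf j)) ≤
      M * (2 * T * (χ + M * (e * h + 2 * β))) + (e * h + β) := by
    intro i hi j hj
    have h3 := hblk i j
    have hij : aeval y (lf i) / aeval y (lf j) ≠ 0 := div_ne_zero (hlne i hi) (hlne j hj)
    rw [← Pool.Agent.W603.LV.hgt_pow hij D]
    have h4 : (aeval y (lf i) / aeval y (lf j)) ^ D =
        (u i / u j) * (aeval y (G j) / aeval y (G i)) := by
      have h5 := hGne i hi
      have h6 := hGne j hj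
      have h7 := hlne i hi
      have h8 := hlne j hj
      rw [(hS i hi).2.2, (hS j hj).2.2, div_pow]
      field_simp
    rw [h4]
    refine (Pool.Agent.W603.LV.hgt_mul (div_ne_zero (hne i) (hne j))
      (div_ne_zero (hGne j hj) (hGne i hi))).trans ?_
    have h5 := coef_ratio (k := k) hy (hS j hj).1 (hS i hi).1 (hS j hj).2.1 (hS i hi).2.1
      (hGne j hj) (hGne i hi)
    rw [← hh, ← hβ] at h5
    have h6 : (M : ℤ) * (2 * tri M * max (canDeg k L + S2.card) 0) ≤
        M * (2 * T * (χ + M * (e * h + 2 * β))) := by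
      rw [hT0]
      exact mul_le_mul_of_nonneg_left (mul_le_mul_of_nonneg_left hmax (by positivity)) hM0
    linarith
  -- the linear forms
  have hlψ : ∀ i, aeval y (lin k n (p i)) = aeval y (lf (ψ i)) := fun i => by
    rw [(hψ i).2, lin, lin, map_sum, map_sum]
    refine Finset.sum_congr rfl fun j _ => ?_
    rw [map_mul, map_mul, aeval_C, aeval_C, aeval_X, aeval_X, map_pow, map_pow, map_natCast,
      map_natCast]
  have htop := t_hform.top k L n y hy p hp (fun i => by rw [hlψ]; exact hlne _ (hψ i).1)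
  simp only [hlψ] at htop
  rw [← hh] at htop ⊢
  rw [← hχ, ← hβ]
  have hmain : (D : ℤ) * h ≤
      (n + 1) * (M * (2 * T * (χ + M * (e * h + 2 * β))) + (e * h + β)) := by
    have h3 := mul_le_mul_of_nonneg_left htop (by positivity : (0 : ℤ) ≤ D)
    refine h3.trans ?_
    rw [Finset.mul_sum]
    refine (Finset.sum_le_sum fun i _ => hrat (ψ i) (hψ i).1 (ψ 0) (hψ 0).1).trans ?_
    rw [Finset.sum_const, Finset.card_univ, Fintype.card_fin, nsmul_eq_mul]
    push_cast
    exact le_rfl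
  have f1 : 0 ≤ 2 * (((n : ℤ) + 1) * (2 * M * T)) * β := by positivity
  have f2 : 0 ≤ 2 * (((n : ℤ) + 1) * (4 * M ^ 2 * T + 1)) * χ := by positivity
  have f3 : 0 ≤ 2 * (((n : ℤ) + 1) * (2 * M * T)) * χ := by positivity
  have f4 : 0 ≤ 2 * (((n : ℤ) + 1) * (4 * M ^ 2 * T + 1)) * β := by positivity
  push_cast
  rcases le_total h 0 with hn | hn
  · have h3 : (D : ℤ) * h ≤ 0 := mul_nonpos_of_nonneg_of_nonpos (by positivity) hn
    linarith
  · have hDc : 2 * (((n : ℤ) + 1) * (2 * M ^ 2 * T * e + e)) + 2 * M ^ 2 + 1 ≤ D := by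
      exact_mod_cast hD
    have h3 := mul_le_mul_of_nonneg_right hDc hn
    have h5 : 0 ≤ 2 * (M : ℤ) ^ 2 * h := by positivity
    linarith

end Pool.Agent.W2helper39.FV
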