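import Pool.Agent.W2helper39.FV.Cons
import Pool.Agent.W2helper39.LC.ZBlv
import Pool.Agent.N254.SQ.Red

/-!
The complement of a smooth hypersurface over a function field which contains a given affine variety as
a closed subset, such that the height inequality holds outside of this subset.
-/

set_option autoImplicit false

namespace Pool.Agent.W2helper39.FV

open MvPolynomial FF
open Pool.Agent.N254.SQ
open Pool.Agent.W602.GT (LogGeneralType coords)
open Pool.Agent.W603.LV (canDeg hgt tri Ge)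
open Pool.Agent.W603.PV (pht pord)
open Pool.Agent.W2helper39.LC (formR formR_hom formR_map Mn)

/-- the height inequality for the points of `P^N ∖ {A = 0}` over the finite extensions of `F` outside
of the image of `V(S)` under the Veronese map -/
def PtsIneq (k : Type) {F : Type} [Field k] [Field F] [Algebra k F] {n N : ℕ}
    (m : Fin (N + 1) → Fin (n + 1) → ℕ) (S : Set (MvPolynomial (Fin (n + 1)) F)) (D C₁ e' : ℕ)
    (A : MvPolynomial (Fin (N + 1)) F) : Prop :=
  ∃ B : ℕ, ∀ (L : Type) [Field L] [Algebra k L] [Algebra F L] [IsScalarTower k F L]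
    [FiniteDimensional F L] (y : Fin (N + 1) → L), y ≠ 0 → aeval y A ≠ 0 →
    D * pht k y ≤ C₁ * (canDeg k L + (meetsA k e' A y).ncard) + B * Module.finrank F L ∨
      ∃ (x : Fin (n + 1) → L) (c : L), x ≠ 0 ∧ c ≠ 0 ∧ (∀ p ∈ S, aeval x p = 0) ∧ y = c • ver m x

/-- the closed subvarieties of `P^N ∖ {A = 0}` over algebraically closed extensions of `F` are of log
general type or in the image of `V(S)` under the Veronese map -/
def SubsLog {F : Type} [Field F] {n N : ℕ}
    (m : Fin (N + 1) → Fin (n + 1) → ℕ) (S : Set (MvPolynomial (Fin (n + 1)) F)) (e' : ℕ)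
    (A : MvPolynomial (Fin (N + 1)) F) : Prop :=
  ∀ (Ω : Type) [Field Ω] [Algebra F Ω] [IsAlgClosed Ω] (L : Type) [Field L] [Algebra Ω L]
    (w : ℕ) (y : Fin (N + 1) → L), 1 ≤ w → y ≠ 0 → coords Ω y = ⊤ → Algebra.trdeg Ω L = w →
    aeval y (map (algebraMap F Ω) A) ≠ 0 →
    LogGeneralType Ω L w (bdry e' (map (algebraMap F Ω) A) y) ∨
      ∃ (x : Fin (n + 1) → L) (c : L), x ≠ 0 ∧ c ≠ 0 ∧
        (∀ p ∈ S, aeval x (map (algebraMap F Ω) p) = 0) ∧ y = c • ver m x

theorem consF (N : ℕ) (hN1 : 1 ≤ N) : ∃ D₁ C₁ : ℕ, ∀ (n d : ℕ), 1 ≤ n → 3 ≤ d →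
    ∀ (m : Fin (N + 1) → Fin (n + 1) → ℕ), Mon n N d m → 2 * n < N →
      ∀ D, D₁ ≤ D → ∀ (F : Type) [Field F] [CharZero F] (S : Set (MvPolynomial (Fin (n + 1)) F)),
        (∀ p ∈ S, ∃ e ≤ d, p.IsHomogeneous e) →
        ∀ (e : ℕ) (H : MvPolynomial (Fin (n + 1)) F), 1 ≤ e → e ∣ d → H.IsHomogeneous e →
        ∃ (a : F) (ℓ : MvPolynomial (Fin (N + 1)) F)
          (Q : Fin (Mn N) → MvPolynomial (Fin (N + 1)) F), a ≠ 0 ∧ ℓ.IsHomogeneous 1 ∧
          (∀ t, (Q t).IsHomogeneous 2) ∧ SmoothOver (formR D a ℓ Q) ∧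
          (∃ κ, 1 ≤ κ ∧ e * κ = d * (D + 2) ∧ ∀ (Ω : Type) [Field Ω] [Algebra F Ω]
            (x : Fin (n + 1) → Ω), (∀ p ∈ S, aeval x p = 0) →
            aeval (ver m x) (formR D a ℓ Q) = algebraMap F Ω a * aeval x H ^ κ) ∧
          (∀ (k : Type) [Field k] [IsAlgClosed k] [CharZero k] [Algebra k F] [IsFF k F],
            PtsIneq k m S D C₁ (D + 2) (formR D a ℓ Q)) ∧ SubsLog m S (D + 2) (formR D a ℓ Q) := by
  classical
  obtain ⟨D₁, C₁, hD₁⟩ := consF_main N hN1
  refine ⟨D₁, C₁, fun n d hn hd m hm hN D hD F _ _ S hS e H he1 hed hH => ?_⟩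
  have hd1 : 1 ≤ d := by omega
  -- finitely many equations
  obtain ⟨T, hT, hTS⟩ := reduce S
  have hT2 : ∀ p : T, ∃ e ≤ d, (p : MvPolynomial (Fin (n + 1)) F).IsHomogeneous e :=
    fun p => hS _ (hT p.2)
  choose g hg hF using hT2
  have hS2 : ∀ (Ω : Type) [Field Ω] [Algebra F Ω] (x : Fin (n + 1) → Ω),
      (∀ p : T, aeval x (p : MvPolynomial (Fin (n + 1)) F) = 0) → ∀ p ∈ S, aeval x p = 0 := by
    intro Ω _ _ x hx p hpS
    have h1 := hTS Ω (algebraMap F Ω) x (fun p hp => by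
      rw [eval_map]
      exact hx ⟨p, hp⟩) p hpS
    rw [eval_map] at h1
    exact h1
  obtain ⟨ι, _, q, hq2, hqv, hqr⟩ := t_ver F n N d m hm hd1 T
    (fun p => (p : MvPolynomial (Fin (n + 1)) F)) g hF hg
  -- the linear form
  obtain ⟨κ, rfl⟩ := hed
  have hκ : 1 ≤ κ := by
    rcases Nat.eq_zero_or_pos κ with h | h
    · rw [h, mul_zero] at hd
      omega
    · exact h
  obtain ⟨ℓ, hℓ, hℓF⟩ := t_zsurj F n N (e * κ) m hm 1 (H ^ κ) (by
    have := hH.pow κ
    rwa [show e * κ = e * κ * 1 by ring] at this)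
  have hℓv : ∀ (Ω : Type) [Field Ω] [Algebra F Ω] (x : Fin (n + 1) → Ω),
      aeval (ver m x) ℓ = aeval x H ^ κ := by
    intro Ω _ _ x
    have h1 := zb_pull (algebraMap F Ω) m ℓ x
    rw [hℓF, eval₂_pow] at h1
    exact h1.symm
  obtain ⟨a, c, ha, hsm, hpts, hspec⟩ := hD₁ D hD F ι q hq2 n (by
    intro Ω _ _ x hx hxq
    have h1 := (hqr Ω x hx hxq).1
    omega) (by
    intro Ω _ _ y a hya hyq
    have hy0 : y ≠ 0 := by
      intro h
      rw [h] at hya
      exact zero_ne_one hya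
    obtain ⟨-, x, a', b, hxa, hyb, hyc, -⟩ := hqr Ω y hy0 hyq
    refine td_scale t_td x a' hxa (ver m x) y (fun b => ?_) a (fun c => ?_)
    · refine ⟨∏ j, X j ^ m b j, ?_⟩
      rw [map_prod]
      unfold ver
      apply Finset.prod_congr rfl
      intro j _
      rw [map_pow, aeval_X]
    · have h1 := hyc a
      rw [hya] at h1
      have h2 : ver m x a ≠ 0 := by
        intro h3
        rw [h3, mul_zero] at h1
        exact one_ne_zero h1
      rw [hyc c]
      rw [eq_div_iff h2]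
      linear_combination (-ver m x c) * h1) ℓ hℓ
  obtain ⟨Q, hQ⟩ : ∃ Q : Fin (Mn N) → MvPolynomial (Fin (N + 1)) F,
      Q = fun t => ∑ i, C (c t i) * q i := ⟨_, rfl⟩
  rw [← hQ] at hsm hpts hspec
  have hQ2 : ∀ t, (Q t).IsHomogeneous 2 := by
    intro t
    rw [hQ]
    exact fam_hom hq2 _
  refine ⟨a, ℓ, Q, ha, hℓ, hQ2, hsm, ⟨κ * (D + 2), by nlinarith, by ring, ?_⟩, ?_, ?_⟩
  · intro Ω _ _ x hx
    have hv := hqv Ω x (fun p => hx _ (hT p.2))
    have h1 : ∀ t : Fin (Mn N), aeval (ver m x) (Q t) = 0 := by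
      intro t
      rw [hQ, map_sum]
      refine Finset.sum_eq_zero fun i _ => ?_
      rw [map_mul, hv i, mul_zero]
    rw [formR, map_add, map_mul, map_sum, map_pow, Finset.sum_eq_zero, add_zero, aeval_C,
      hℓv, ← pow_mul]
    intro t _
    rw [map_mul, h1 t, zero_mul]
  · intro k _ _ _ _ _
    obtain ⟨B, hB⟩ := hpts k
    refine ⟨B, fun L _ _ _ _ _ y hy hA => ?_⟩
    rcases hB L y hy hA with h | h
    · exact Or.inl h
    · right
      obtain ⟨-, x, a, b, hxa, hyb, hyc, hFx⟩ := hqr L y hy h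
      refine ⟨x, y b, ?_, hyb, hS2 L x hFx, funext fun c => hyc c⟩
      intro h
      rw [h] at hxa
      exact zero_ne_one hxa
  · intro Ω _ _ _ L _ _ w y hw hy hgen htr hA0
    rcases hspec Ω L w y hw hy hgen htr hA0 with h | h
    · exact Or.inl h
    · right
      let σ : F →+* L := (algebraMap Ω L).comp (algebraMap F Ω)
      let _ : Algebra F L := σ.toAlgebra
      obtain ⟨-, x, a, b, hxa, hyb, hyc, hFx⟩ := hqr L y hy (fun i => by
        have h1 := h i
        change eval₂ (algebraMap Ω L) y (map (algebraMap F Ω) (q i)) = 0 at h1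
        rw [eval₂_map] at h1
        exact h1)
      refine ⟨x, y b, ?_, hyb, fun p hp => ?_, funext fun c => hyc c⟩
      · intro h
        rw [h] at hxa
        exact zero_ne_one hxa
      · have h1 := hS2 L x hFx p hp
        change eval₂ (algebraMap Ω L) x (map (algebraMap F Ω) p) = 0
        rw [eval₂_map]
        exact h1

end Pool.Agent.W2helper39.FV
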