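import Pool.Agent.W2helper39.FV.Alg
import Pool.Agent.W2helper39.LC.ConsK

/-!
Points over function fields on the complement of the hypersurface
`a ℓ ^ (D + 2) + ∑ t, Q_t (x_0 + t x_1 + ⋯) ^ D = 0` with coefficients in the function field: if the
height is large, then the sum of the terms `Q_t (x_0 + t x_1 + ⋯) ^ D` has many disjoint vanishing
subsums.
-/

set_option autoImplicit false
set_option linter.unusedSectionVars false

namespace Pool.Agent.W2helper39.FV

open MvPolynomial FF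
open Pool.Agent.N254.SQ
open Pool.Agent.W603.LV (canDeg hgt tri Ge exists_supp)
open Pool.Agent.W603.PV (pht pord pord_le exists_pord ge_pord)
open Pool.Agent.W2helper39.LC (formR formR_hom Ix pr mem_pr split2 sub_min')

section terms

variable {R : Type} [Field R] {N M : ℕ} (D : ℕ) (a : R) (ℓ : MvPolynomial (Fin (N + 1)) R)
  (Q : Fin M → MvPolynomial (Fin (N + 1)) R)

/-- the factors of small degree -/
noncomputable def GfR : Ix M → MvPolynomial (Fin (N + 1)) R
  | none => 0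
  | some none => C a * ℓ ^ 2
  | some (some t) => Q t

/-- the linear forms -/
noncomputable def LfR : Ix M → MvPolynomial (Fin (N + 1)) R
  | none => 0
  | some none => ℓ
  | some (some t) => lin R N t

/-- the terms -/
noncomputable def FfR : Ix M → MvPolynomial (Fin (N + 1)) R
  | none => - formR D a ℓ Q
  | some none => C a * ℓ ^ 2 * ℓ ^ D
  | some (some t) => Q t * lin R N t ^ D

theorem sum_FfR : ∑ i, FfR D a ℓ Q i = 0 := by
  rw [Fintype.sum_option, Fintype.sum_option]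
  change - formR D a ℓ Q + (C a * ℓ ^ 2 * ℓ ^ D + ∑ t : Fin M, Q t * lin R N t ^ D) = 0
  unfold formR
  have h : C a * ℓ ^ (D + 2) = C a * ℓ ^ 2 * ℓ ^ D := by rw [mul_assoc, ← pow_add, add_comm 2 D]
  rw [h]
  exact neg_add_cancel _

variable {a ℓ Q}

/-- the data of a block with many terms -/
theorem blkR (hN : 1 ≤ N) (hℓ : ℓ.IsHomogeneous 1) (hQ : ∀ t, (Q t).IsHomogeneous 2)
    (B : Finset (Ix M)) (hB : N + 1 ≤ (pr B).card) :
    ∃ (S : Finset {i // i ∈ B}) (p : Fin (N + 1) → ℕ) (ψ : Fin (N + 1) → {i // i ∈ B}),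
      Function.Injective p ∧
      (∀ t ∈ S, (GfR a ℓ Q t.1).IsHomogeneous 2 ∧
        (t.1 = some none ∨ ∃ t', t.1 = some (some t')) ∧
        FfR D a ℓ Q t.1 = GfR a ℓ Q t.1 * LfR ℓ t.1 ^ D) ∧
      (∀ t, t ∉ S → t.1 = none) ∧
      (∀ i, ψ i ∈ S ∧ LfR ℓ (ψ i).1 = lin R N (p i)) ∧
      Fintype.card {i // i ∈ B} ≤ M + 2 ∧ 2 ≤ Fintype.card {i // i ∈ B} := by
  classical
  obtain ⟨φ⟩ : Nonempty (Fin (N + 1) ↪ {t // t ∈ pr B}) := by
    apply Function.Embedding.nonempty_of_card_le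
    rw [Fintype.card_fin, Fintype.card_coe]
    exact hB
  refine ⟨Finset.univ.filter fun t => t.1 ≠ none, fun i => ((φ i).1 : ℕ),
    fun i => ⟨some (some (φ i).1), mem_pr.1 (φ i).2⟩, ?_, ?_, ?_, ?_, ?_, ?_⟩
  · intro i j hij
    exact φ.injective (Subtype.ext (Fin.ext hij))
  · rintro ⟨t, ht⟩ hts
    have h0 : t ≠ none := (Finset.mem_filter.1 hts).2
    rcases t with _ | _ | t
    · exact absurd rfl h0
    · refine ⟨?_, Or.inl rfl, rfl⟩
      have := (isHomogeneous_C (Fin (N + 1)) a).mul (hℓ.pow 2)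
      rwa [zero_add, one_mul] at this
    · exact ⟨hQ t, Or.inr ⟨t, rfl⟩, rfl⟩
  · intro t ht
    by_contra h
    exact ht (Finset.mem_filter.2 ⟨Finset.mem_univ _, h⟩)
  · intro i
    exact ⟨Finset.mem_filter.2 ⟨Finset.mem_univ _, by simp⟩, rfl⟩
  · rw [Fintype.card_coe]
    refine (Finset.card_le_univ B).trans ?_
    simp
  · rw [Fintype.card_coe]
    have h1 : (pr B).card ≤ B.card := by
      refine Finset.card_le_card_of_injOn (fun t => (some (some t) : Ix M))
        (fun t ht => mem_pr.1 ht) ?_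
      intro a _ b _ hab
      exact Option.some.inj (Option.some.inj hab)
    omega

end terms

/-- the places at which the point meets the hypersurface `A = 0` of degree `d` -/
def meetsA (k : Type) {F L : Type} [Field k] [Field F] [Field L] [Algebra k L] [Algebra F L] {n : ℕ}
    (d : ℕ) (A : MvPolynomial (Fin (n + 1)) F) (x : Fin (n + 1) → L) : Set (Place k L) :=
  {P | d * pord P x < P.ord (aeval x A)}

theorem meetsA_finite {k F L : Type} [Field k] [IsAlgClosed k] [CharZero k] [Field F] [Field L]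
    [Algebra k L] [IsFF k L] [Algebra F L] {n : ℕ} (d : ℕ) (A : MvPolynomial (Fin (n + 1)) F)
    {x : Fin (n + 1) → L} (hx : x ≠ 0) : (meetsA k d A x).Finite := by
  classical
  obtain ⟨T1, hT1⟩ := exists_supp (k := k) Finset.univ x
  obtain ⟨T2, hT2⟩ := exists_supp (k := k) (Finset.univ : Finset (Fin 1)) ![aeval x A]
  refine (T1 ∪ T2).finite_toSet.subset fun P hP => ?_
  by_contra hcon
  rw [Finset.mem_coe, Finset.mem_union, not_or] at hcon
  have h1 : ∀ j, P.ord (x j) = 0 := fun j => by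
    by_contra h
    exact hcon.1 (hT1 j (Finset.mem_univ j) P h)
  have h2 : P.ord (aeval x A) = 0 := by
    by_contra h
    exact hcon.2 (hT2 0 (Finset.mem_univ _) P h)
  have h3 : (d : ℤ) * pord P x < P.ord (aeval x A) := hP
  rw [h2, hform_pord_zero hx P h1, mul_zero] at h3
  exact lt_irrefl _ h3

/-- points of large height -/
theorem alg_ccF {N : ℕ} (hN : 1 ≤ N) : ∃ D₁ C₁ : ℕ, ∀ D, D₁ ≤ D → ∀ (k : Type) [Field k]
    [IsAlgClosed k] [CharZero k] (L : Type) [Field L] [Algebra k L] [IsFF k L] (C₀ : Finset L)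
    (a : L) (ℓ : MvPolynomial (Fin (N + 1)) L)
    (Q : Fin (N * (2 * N + 3)) → MvPolynomial (Fin (N + 1)) L),
      ℓ.IsHomogeneous 1 → (∀ t, (Q t).IsHomogeneous 2) → CoefIn C₀ (C a * ℓ ^ 2) →
      (∀ t, CoefIn C₀ (Q t)) → CoefIn C₀ (formR D a ℓ Q) →
      ∀ (y : Fin (N + 1) → L), y ≠ 0 → aeval y (formR D a ℓ Q) ≠ 0 →
        ¬ D * pht k y ≤ C₁ * (max (canDeg k L +
          (meetsA k (D + 2) (formR D a ℓ Q) y).ncard) 0 + 2 * cht k C₀) →
        ∃ 𝓑 : Finset (Finset (Fin (N * (2 * N + 3)))), (∀ B ∈ 𝓑, B.Nonempty) ∧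
          (∀ B ∈ 𝓑, ∀ B' ∈ 𝓑, B ≠ B' → Disjoint B B') ∧
          (∀ B ∈ 𝓑, ∑ t ∈ B, aeval y (Q t) * aeval y (lin L N (t : ℕ)) ^ D = 0) ∧
          2 * N + 1 ≤ 𝓑.card := by
  classical
  obtain ⟨D₁, C₁, h⟩ := alg_F N 2 (N * (2 * N + 3) + 2)
  refine ⟨D₁, C₁, fun D hD k _ _ _ L _ _ _ C₀ a ℓ Q hℓ hQ hC1 hC2 hC3 y hy hA0 hb => ?_⟩
  obtain ⟨s₂, hs₂, hs₂'⟩ := exists_poles (k := k) C₀
  have hfin := meetsA_finite (k := k) (D + 2) (formR D a ℓ Q) hy
  obtain ⟨s, hs⟩ : ∃ s, s = hfin.toFinset ∪ s₂ := ⟨_, rfl⟩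
  have hscard : (s.card : ℤ) ≤ (meetsA k (D + 2) (formR D a ℓ Q) y).ncard + cht k C₀ := by
    have h1 : s.card ≤ hfin.toFinset.card + s₂.card := by rw [hs]; exact Finset.card_union_le _ _
    rw [← Set.ncard_eq_toFinset_card _ hfin] at h1
    have h2 : (s.card : ℤ) ≤ (meetsA k (D + 2) (formR D a ℓ Q) y).ncard + s₂.card := by
      exact_mod_cast h1
    linarith
  obtain ⟨𝓑, h1, h2, h3, h4⟩ := split2 hN rfl (fun i => aeval y (FfR D a ℓ Q i)) (by
    rw [← map_sum, sum_FfR, map_zero]) (by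
    intro B hB hB0 hBmin
    obtain ⟨S, p, ψ, b1, b2, b3, b4, b5, b6⟩ := blkR (a := a) (ℓ := ℓ) (Q := Q) D hN hℓ hQ B hB
    apply hb
    have hβ := cht_nonneg (k := k) C₀
    have key := h D hD k L C₀ s {i // i ∈ B} b5 b6 y hy
      (fun i => aeval y (FfR D a ℓ Q i.1)) S (fun i => GfR a ℓ Q i.1) (fun i => LfR ℓ i.1) p ψ b1
      ?_ ?_ b4 ?_ ?_
    · have h5 := le_max_left (canDeg k L + (meetsA k (D + 2) (formR D a ℓ Q) y).ncard) 0
      have h6 := le_max_right (canDeg k L + (meetsA k (D + 2) (formR D a ℓ Q) y).ncard) 0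
      refine key.trans ?_
      have h7 : max (canDeg k L + s.card) 0 ≤
          max (canDeg k L + (meetsA k (D + 2) (formR D a ℓ Q) y).ncard) 0 + cht k C₀ :=
        max_le (by linarith) (by linarith)
      exact mul_le_mul_of_nonneg_left (by linarith) (by positivity)
    · intro t ht
      obtain ⟨c1, c2, c3⟩ := b2 t ht
      refine ⟨c1, ?_, ?_⟩
      · rcases c2 with c2 | ⟨t', c2⟩
        · rw [c2]
          exact hC1
        · rw [c2]
          exact hC2 t'
      · rw [c3, map_mul, map_pow]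
    · intro t ht P hP
      have h6 : aeval y (FfR D a ℓ Q t.1) = - aeval y (formR D a ℓ Q) := by
        rw [b3 t ht]
        exact map_neg _ _
      change P.ord (aeval y (FfR D a ℓ Q t.1)) = _
      rw [hs, Finset.mem_union, not_or, Set.Finite.mem_toFinset] at hP
      have h7 := (ge_coef P y (formR_hom D hℓ hQ) hC3).resolve_left hA0
      rw [hs₂' P hP.2, sub_zero] at h7
      have h8 : ¬ ((D + 2 : ℕ) : ℤ) * pord P y < P.ord (aeval y (formR D a ℓ Q)) := hP.1
      have h9 : P.ord (aeval y (formR D a ℓ Q)) = ((D + 2 : ℕ) : ℤ) * pord P y :=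
        le_antisymm (not_lt.1 h8) h7
      rw [h6, P.ord_neg, h9]
      push_cast
      ring
    · have h7 := hB0
      rw [← Finset.sum_coe_sort] at h7
      exact h7
    · exact fun B' => sub_min' (fun i => aeval y (FfR D a ℓ Q i)) B hBmin B')
  refine ⟨𝓑, h1, h2, fun B hB => ?_, h4⟩
  rw [← h3 B hB]
  refine Finset.sum_congr rfl fun t _ => ?_
  change _ = aeval y (Q t * lin L N t ^ D)
  rw [map_mul, map_pow]

end Pool.Agent.W2helper39.FV
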