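import Pool.Agent.N254.SQ.Hform
import Pool.Agent.W603.PV.Ext

/-!
Values of forms with coefficients in a function field: zeros and heights, with an error term which is
linear in the heights of the coefficients.
-/

set_option autoImplicit false
set_option linter.unusedSectionVars false

namespace Pool.Agent.W2helper39.FV

open MvPolynomial FF
open Pool.Agent.N254.SQ
open Pool.Agent.W603.LV (canDeg hgt tri Ge sum_ord_finset exists_supp hgt_finset)
open Pool.Agent.W603.PV (pht pord pord_le exists_pord ge_pord pht_le)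

section

variable {k : Type} [Field k] {L : Type} [Field L] [Algebra k L]

/-- the poles of the elements of `C` at the place `P` -/
noncomputable def mu (C : Finset L) (P : Place k L) : ℤ := ∑ c ∈ C, max (-P.ord c) 0

variable (k) in
/-- the sum of the heights of the elements of `C` -/
noncomputable def cht (C : Finset L) : ℤ := ∑ c ∈ C, hgt k c

/-- the coefficients of the form are in `C` -/
def CoefIn {n : ℕ} (C : Finset L) (G : MvPolynomial (Fin (n + 1)) L) : Prop :=
  ∀ α ∈ G.support, G.coeff α ∈ C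

theorem mu_nonneg (C : Finset L) (P : Place k L) : 0 ≤ mu C P :=
  Finset.sum_nonneg fun _ _ => le_max_right _ _

theorem le_mu {C : Finset L} {P : Place k L} {c : L} (hc : c ∈ C) : - mu C P ≤ P.ord c := by
  have h1 : max (-P.ord c) 0 ≤ mu C P :=
    Finset.single_le_sum (f := fun c => max (-P.ord c) 0) (fun _ _ => le_max_right _ _) hc
  have h2 := le_max_left (-P.ord c) 0
  linarith

/-- the order of the value of a form -/
theorem ge_coef {n e : ℕ} {C : Finset L} (P : Place k L) (y : Fin (n + 1) → L)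
    {G : MvPolynomial (Fin (n + 1)) L} (hG : G.IsHomogeneous e) (hC : CoefIn C G) :
    Ge P (e * pord P y - mu C P) (aeval y G) := by
  rw [aeval_def, eval₂_eq']
  refine Ge.sum _ _ fun α hα => ?_
  have h0 : Ge P (- mu C P) (algebraMap L L (G.coeff α)) := Or.inr (le_mu (hC α hα))
  have h1 := h0.mul (Ge.prod Finset.univ (fun a => y a ^ α a) (fun a => α a * pord P y)
    (fun a _ => (ge_pord P y a).pow (α a)))
  refine h1.mono (le_of_eq ?_)
  have h2 : ∑ a, α a = e := by
    have := hG (mem_support_iff.1 hα)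
    rw [← this, Finsupp.weight_apply, Finsupp.sum_fintype _ _ (by simp)]
    simp
  have h3 : ∑ a, (α a : ℤ) * pord P y = e * pord P y := by
    rw [← Finset.sum_mul]
    congr 1
    exact_mod_cast h2
  rw [h3]
  ring

end

section

variable {k : Type} [Field k] [IsAlgClosed k] [CharZero k] {L : Type} [Field L] [Algebra k L]
  [IsFF k L]

theorem sum_mu (C : Finset L) (T : Finset (Place k L))
    (hT : ∀ c ∈ C, ∀ P : Place k L, P.ord c ≠ 0 → P ∈ T) : ∑ P ∈ T, mu C P = cht k C := by
  unfold mu cht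
  rw [Finset.sum_comm]
  exact Finset.sum_congr rfl fun c hc => (hgt_finset c T (hT c hc)).symm

theorem cht_nonneg (C : Finset L) : 0 ≤ cht k C := by
  classical
  obtain ⟨T, hT⟩ := exists_supp (k := k) C (fun c => c)
  rw [← sum_mu C T hT]
  exact Finset.sum_nonneg fun P _ => mu_nonneg C P

/-- the number of places with poles -/
theorem exists_poles (C : Finset L) : ∃ T : Finset (Place k L), (T.card : ℤ) ≤ cht k C ∧
    ∀ P ∉ T, mu C P = 0 := by
  classical
  obtain ⟨T, hT⟩ := exists_supp (k := k) C (fun c => c)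
  refine ⟨T.filter fun P => mu C P ≠ 0, ?_, fun P hP => ?_⟩
  · rw [← sum_mu C T hT, Finset.card_filter, Nat.cast_sum]
    refine Finset.sum_le_sum fun P _ => ?_
    have := mu_nonneg C P
    split_ifs with h
    · rw [Nat.cast_one]
      omega
    · rw [Nat.cast_zero]
      omega
  · by_cases hPT : P ∈ T
    · by_contra h
      exact hP (Finset.mem_filter.2 ⟨hPT, h⟩)
    · unfold mu
      refine Finset.sum_eq_zero fun c hc => ?_
      have : P.ord c = 0 := by
        by_contra h
        exact hPT (hT c hc P h)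
      rw [this]
      simp

/-- the zeros of the value of a form -/
theorem coef_zeros {n e : ℕ} {C : Finset L} {y : Fin (n + 1) → L} (hy : y ≠ 0)
    {G : MvPolynomial (Fin (n + 1)) L} (hG : G.IsHomogeneous e) (hC : CoefIn C G)
    (hG0 : aeval y G ≠ 0) :
    ∃ S : Finset (Place k L), (S.card : ℤ) ≤ e * pht k y + 2 * cht k C ∧
      ∀ P ∉ S, P.ord (aeval y G) = e * pord P y := by
  classical
  obtain ⟨T1, hT1⟩ := exists_supp (k := k) Finset.univ y
  obtain ⟨T2, hT2⟩ := exists_supp (k := k) (Finset.univ : Finset (Fin 1)) ![aeval y G]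
  obtain ⟨T3, hT3⟩ := exists_supp (k := k) C (fun c => c)
  obtain ⟨T, hT⟩ : ∃ T, T = T1 ∪ T2 ∪ T3 := ⟨_, rfl⟩
  have h1 : ∀ j, ∀ P : Place k L, P.ord (y j) ≠ 0 → P ∈ T := fun j P hP => by
    rw [hT]
    exact Finset.mem_union_left _ (Finset.mem_union_left _ (hT1 j (Finset.mem_univ j) P hP))
  have h2 : ∀ P : Place k L, P.ord (aeval y G) ≠ 0 → P ∈ T := fun P hP => by
    rw [hT]
    exact Finset.mem_union_left _ (Finset.mem_union_right _ (hT2 0 (Finset.mem_univ _) P hP))
  have h2' : ∀ c ∈ C, ∀ P : Place k L, P.ord c ≠ 0 → P ∈ T := fun c hc P hP => by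
    rw [hT]
    exact Finset.mem_union_right _ (hT3 c hc P hP)
  refine ⟨T.filter fun P => P.ord (aeval y G) ≠ e * pord P y, ?_, fun P hP => ?_⟩
  · have h3 : (e : ℤ) * pht k y + 2 * cht k C =
        ∑ P ∈ T, (P.ord (aeval y G) - e * pord P y + 2 * mu C P) := by
      rw [Finset.sum_add_distrib, Finset.sum_sub_distrib, sum_ord_finset _ T h2, ← Finset.mul_sum,
        hform_pht hy T h1, ← Finset.mul_sum, sum_mu C T h2']
      ring
    rw [h3, Finset.card_filter, Nat.cast_sum]
    refine Finset.sum_le_sum fun P _ => ?_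
    have h4 := (ge_coef P y hG hC).resolve_left hG0
    have h6 := mu_nonneg C P
    split_ifs with h5
    · rw [Nat.cast_one]
      omega
    · rw [Nat.cast_zero]
      omega
  · by_cases hPT : P ∈ T
    · by_contra h
      exact hP (Finset.mem_filter.2 ⟨hPT, h⟩)
    · have h3 : P.ord (aeval y G) = 0 := by
        by_contra h
        exact hPT (h2 P h)
      rw [h3, hform_pord_zero hy P fun j => by
        by_contra h
        exact hPT (h1 j P h), mul_zero]

/-- the height of the quotient of the values of two forms -/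
theorem coef_ratio {n e : ℕ} {C : Finset L} {y : Fin (n + 1) → L} (hy : y ≠ 0)
    {G₁ G₂ : MvPolynomial (Fin (n + 1)) L} (hG₁ : G₁.IsHomogeneous e) (hG₂ : G₂.IsHomogeneous e)
    (hC₁ : CoefIn C G₁) (hC₂ : CoefIn C G₂) (h₁ : aeval y G₁ ≠ 0) (h₂ : aeval y G₂ ≠ 0) :
    hgt k (aeval y G₁ / aeval y G₂) ≤ e * pht k y + cht k C := by
  classical
  obtain ⟨T1, hT1⟩ := exists_supp (k := k) Finset.univ y
  obtain ⟨T2, hT2⟩ := exists_supp (k := k) (Finset.univ : Finset (Fin 2)) ![aeval y G₁, aeval y G₂]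
  obtain ⟨T3, hT3⟩ := exists_supp (k := k) C (fun c => c)
  obtain ⟨T, hT⟩ : ∃ T, T = T1 ∪ T2 ∪ T3 := ⟨_, rfl⟩
  have h1 : ∀ j, ∀ P : Place k L, P.ord (y j) ≠ 0 → P ∈ T := fun j P hP => by
    rw [hT]
    exact Finset.mem_union_left _ (Finset.mem_union_left _ (hT1 j (Finset.mem_univ j) P hP))
  have h2 : ∀ P : Place k L, P.ord (aeval y G₁) ≠ 0 → P ∈ T := fun P hP => by
    rw [hT]
    exact Finset.mem_union_left _ (Finset.mem_union_right _ (hT2 0 (Finset.mem_univ _) P hP))
  have h3 : ∀ P : Place k L, P.ord (aeval y G₂) ≠ 0 → P ∈ T := fun P hP => by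
    rw [hT]
    exact Finset.mem_union_left _ (Finset.mem_union_right _ (hT2 1 (Finset.mem_univ _) P hP))
  have h2' : ∀ c ∈ C, ∀ P : Place k L, P.ord c ≠ 0 → P ∈ T := fun c hc P hP => by
    rw [hT]
    exact Finset.mem_union_right _ (hT3 c hc P hP)
  have h4 : ∀ P : Place k L, P.ord (aeval y G₁ / aeval y G₂) ≠ 0 → P ∈ T := by
    intro P hP
    by_contra hcon
    apply hP
    have h5 : P.ord (aeval y G₁) = 0 := by by_contra h; exact hcon (h2 P h)
    have h6 : P.ord (aeval y G₂) = 0 := by by_contra h; exact hcon (h3 P h)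
    rw [P.ord_div h₁ h₂, h5, h6]
    rfl
  have h5 : (e : ℤ) * pht k y + cht k C =
      ∑ P ∈ T, (P.ord (aeval y G₂) - e * pord P y + mu C P) := by
    rw [Finset.sum_add_distrib, Finset.sum_sub_distrib, sum_ord_finset _ T h3, ← Finset.mul_sum,
      hform_pht hy T h1, sum_mu C T h2']
    ring
  rw [h5, hgt_finset _ T h4]
  refine Finset.sum_le_sum fun P _ => ?_
  have h6 := (ge_coef P y hG₁ hC₁).resolve_left h₁
  have h7 := (ge_coef P y hG₂ hC₂).resolve_left h₂
  rw [P.ord_div h₁ h₂]
  omega

end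

end Pool.Agent.W2helper39.FV
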