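import Pool.Agent.W2helper39.FV.GtK
import Pool.Agent.W2helper39.FV.Cc

/-!
Closed subvarieties of the complement of the hypersurface
`a ℓ ^ (D + 2) + ∑ t, Q_t (x_0 + t x_1 + ⋯) ^ D = 0` over an algebraically closed field of
characteristic zero: if such a subvariety is not of log general type, then the sum of the terms
`Q_t (x_0 + t x_1 + ⋯) ^ D` has many disjoint vanishing subsums.
-/

set_option autoImplicit false
set_option linter.unusedSectionVars false

namespace Pool.Agent.W2helper39.FV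

open MvPolynomial FF
open Pool.Agent.N254.SQ
open Pool.Agent.W602.GT (LogGeneralType coords val)
open Pool.Agent.W603.LV (Ge)
open Pool.Agent.W603.PV (pord pord_le exists_pord ge_pord ge_form)
open Pool.Agent.W2helper39.LC (formR formR_hom Ix pr mem_pr split2 sub_min')

/-- the boundary of the subvariety with generic point `y`: the centre of the place `P` is in `A = 0` -/
def bdry {F K : Type} [Field F] [Field K] [Algebra F K] {n : ℕ} (e : ℕ)
    (A : MvPolynomial (Fin (n + 1)) F) (y : Fin (n + 1) → K) (P : Place F K) : Prop :=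
  e * pord P y < P.ord (aeval y A)

/-- the order of the value of a form off the boundary -/
theorem ord_of_not_bdry {F K : Type} [Field F] [Field K] [Algebra F K] {n e : ℕ}
    {A : MvPolynomial (Fin (n + 1)) F} (hA : A.IsHomogeneous e) {y : Fin (n + 1) → K}
    (hA0 : aeval y A ≠ 0) {P : Place F K} (hP : ¬ bdry e A y P) :
    P.ord (aeval y A) = e * pord P y := by
  have h1 := (ge_form P y hA fun _ _ => Ge.const _).resolve_left hA0
  unfold bdry at hP
  omega

/-- the minimum of the orders of the coordinates -/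
theorem eq_pord {F K : Type} [Field F] [Field K] [Algebra F K] {n : ℕ} (P : Place F K)
    (y : Fin (n + 1) → K) {μ : ℤ} (hμ : ∀ i, Ge P μ (y i)) (hj : ∃ j, y j ≠ 0 ∧ P.ord (y j) = μ) :
    pord P y = μ := by
  obtain ⟨j, hj0, hj1⟩ := hj
  apply le_antisymm
  · rw [← hj1]
    exact pord_le P hj0
  · obtain ⟨i, hi0, hi1⟩ := exists_pord P ⟨j, hj0⟩
    rw [← hi1]
    exact (hμ i).resolve_left hi0

theorem special_K {N : ℕ} (hN : 1 ≤ N) : ∃ D₁ : ℕ, ∀ D, D₁ ≤ D →
    ∀ (Ω : Type) [Field Ω] [IsAlgClosed Ω] [CharZero Ω] (a : Ω) (ℓ : MvPolynomial (Fin (N + 1)) Ω)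
      (Q : Fin (N * (2 * N + 3)) → MvPolynomial (Fin (N + 1)) Ω),
      ℓ.IsHomogeneous 1 → (∀ t, (Q t).IsHomogeneous 2) →
      ∀ (L : Type) [Field L] [Algebra Ω L] (w : ℕ) (y : Fin (N + 1) → L), 1 ≤ w → y ≠ 0 →
        coords Ω y = ⊤ → Algebra.trdeg Ω L = w → aeval y (formR D a ℓ Q) ≠ 0 →
        ¬ LogGeneralType Ω L w (bdry (D + 2) (formR D a ℓ Q) y) →
        ∃ 𝓑 : Finset (Finset (Fin (N * (2 * N + 3)))), (∀ B ∈ 𝓑, B.Nonempty) ∧
          (∀ B ∈ 𝓑, ∀ B' ∈ 𝓑, B ≠ B' → Disjoint B B') ∧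
          (∀ B ∈ 𝓑, ∑ t ∈ B, aeval y (Q t) * aeval y (lin Ω N (t : ℕ)) ^ D = 0) ∧
          2 * N + 1 ≤ 𝓑.card := by
  obtain ⟨D₁, h⟩ := gtK_log 2 (N * (2 * N + 3) + 2)
  refine ⟨D₁, fun D hD Ω _ _ _ a ℓ Q hℓ hQ L _ _ w y hw hy0 hgen htr hA0 hlog => ?_⟩
  have hlin : ∀ t : ℕ, (lin Ω N t).IsHomogeneous 1 := fun t => GK_lin_hom N t
  obtain ⟨𝓑, h1, h2, h3, h4⟩ := split2 hN rfl (fun i => aeval y (FfR D a ℓ Q i)) (by
    rw [← map_sum, sum_FfR, map_zero]) (by
    intro B hB hB0 hBmin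
    obtain ⟨S, p, ψ, b1, b2, b3, b4, b5, b6⟩ := blkR (a := a) (ℓ := ℓ) (Q := Q) D hN hℓ hQ B hB
    apply hlog
    refine h D hD Ω L N w y hw hy0 hgen htr _ {i // i ∈ B} b5 b6
      (fun i => aeval y (FfR D a ℓ Q i.1)) S (fun i => GfR a ℓ Q i.1) (fun i => LfR ℓ i.1) p ψ b1
      ?_ ?_ b4 ?_ ?_
    · intro t ht
      obtain ⟨c1, c2, c3⟩ := b2 t ht
      refine ⟨c1, ?_, ?_⟩
      · rcases c2 with c2 | ⟨t', c2⟩
        · rw [c2]
          exact hℓ
        · rw [c2]
          exact hlin _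
      · change aeval y (FfR D a ℓ Q t.1) = aeval y (GfR a ℓ Q t.1) * aeval y (LfR ℓ t.1) ^ D
        rw [c3, map_mul, map_pow]
    · intro t ht P hP μ hμ hj
      have h6 : aeval y (FfR D a ℓ Q t.1) = - aeval y (formR D a ℓ Q) := by
        rw [b3 t ht]
        exact map_neg _ _
      change P.ord (aeval y (FfR D a ℓ Q t.1)) = _
      rw [h6, P.ord_neg, ord_of_not_bdry (formR_hom D hℓ hQ) hA0 hP, eq_pord P y hμ hj]
      push_cast
      ring
    · have h7 := hB0
      rw [← Finset.sum_coe_sort] at h7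
      exact h7
    · exact fun B' => sub_min' (fun i => aeval y (FfR D a ℓ Q i)) B hBmin B')
  refine ⟨𝓑, h1, h2, fun B hB => ?_, h4⟩
  rw [← h3 B hB]
  refine Finset.sum_congr rfl fun t _ => ?_
  change _ = aeval y (Q t * lin Ω N t ^ D)
  rw [map_mul, map_pow]

end Pool.Agent.W2helper39.FV
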