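import Pool.Agent.W2helper39.FV.Cc
import Pool.Agent.W2helper39.FV.Spec

/-!
The construction over a function field: the complement of the general hypersurface
`a ℓ ^ (D + 2) + ∑ t, Q_t (x_0 + t x_1 + ⋯) ^ D = 0`.
-/

set_option autoImplicit false

namespace Pool.Agent.W2helper39.FV

open MvPolynomial FF
open Pool.Agent.N254.SQ
open Pool.Agent.W602.GT (LogGeneralType coords)
open Pool.Agent.W603.LV (canDeg hgt tri Ge)
open Pool.Agent.W603.PV (pht pord pord_le exists_pord ge_pord isFF_of_finite hgt_algebraMap canDeg_ge)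
open Pool.Agent.W2helper39.LC (formR formR_hom formR_map Mn smooth_extK)

/-- the coefficients of a form -/
noncomputable def coefs {F : Type} [Field F] [DecidableEq F] {n : ℕ}
    (G : MvPolynomial (Fin (n + 1)) F) : Finset F := G.support.image G.coeff

theorem coefIn_map {F L : Type} [Field F] [Field L] [DecidableEq F] [DecidableEq L] [Algebra F L]
    {n : ℕ} {CF : Finset F} {G : MvPolynomial (Fin (n + 1)) F} (h : coefs G ⊆ CF) :
    CoefIn (CF.image (algebraMap F L)) (map (algebraMap F L) G) := by
  intro α hα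
  rw [coeff_map]
  refine Finset.mem_image_of_mem _ (h (Finset.mem_image_of_mem _ ?_))
  rw [mem_support_iff] at hα ⊢
  intro h0
  rw [coeff_map, h0, map_zero] at hα
  exact hα rfl

section

variable {k F L : Type} [Field k] [IsAlgClosed k] [CharZero k] [Field F] [Algebra k F] [IsFF k F]
  [Field L] [Algebra k L] [Algebra F L] [IsScalarTower k F L] [IsFF k L]

theorem cht_image [DecidableEq L] (CF : Finset F) :
    cht k (CF.image (algebraMap F L)) = Module.finrank F L * cht k CF := by
  unfold cht
  rw [Finset.sum_image fun a _ b _ h => (algebraMap F L).injective h, Finset.mul_sum]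
  exact Finset.sum_congr rfl fun c _ => hgt_algebraMap c

end

/-- lower bound for the canonical degree of the finite extensions -/
theorem canDeg_lower (k F : Type) [Field k] [IsAlgClosed k] [CharZero k] [Field F] [Algebra k F]
    [IsFF k F] : ∃ B : ℕ, ∀ (L : Type) [Field L] [Algebra k L] [Algebra F L] [IsScalarTower k F L]
    [FiniteDimensional F L], - (B * Module.finrank F L : ℤ) ≤ canDeg k L := by
  obtain ⟨t, ht⟩ := IsFF.exists_transcendental (k := k) (K := F)
  refine ⟨(2 * hgt k t).toNat, fun L _ _ _ _ _ => ?_⟩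
  have hL : IsFF k L := isFF_of_finite (k := k) (F := F)
  have h1 := canDeg_ge (k := k) (K := L)
    ((transcendental_algebraMap_iff (R := k) (algebraMap F L).injective).2 ht)
  rw [hgt_algebraMap (k := k) (F := F) (L := L) t] at h1
  have h2 : 2 * hgt k t ≤ ((2 * hgt k t).toNat : ℤ) := Int.self_le_toNat _
  have h3 : (2 * hgt k t) * (Module.finrank F L : ℤ) ≤
      ((2 * hgt k t).toNat : ℤ) * Module.finrank F L :=
    mul_le_mul_of_nonneg_right h2 (by positivity)
  linarith

/-- The height inequality on the complement of the general hypersurface. -/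
theorem consF_main (N : ℕ) (hN : 1 ≤ N) :
    ∃ D₁ C₁ : ℕ, ∀ D, D₁ ≤ D → ∀ (F : Type) [Field F] [CharZero F] (ι : Type) [Fintype ι]
      (q : ι → MvPolynomial (Fin (N + 1)) F),
      (∀ i, (q i).IsHomogeneous 2) → ∀ r : ℕ,
      (∀ (Ω : Type) [Field Ω] [Algebra F Ω] (x : Fin (N + 1) → Ω), x ≠ 0 →
        (∀ i, aeval x (q i) = 0) →
        r < (Matrix.of fun (i : ι) (j : Fin (N + 1)) => (aeval x (pderiv j (q i)) : Ω)).rank) →
      (∀ (Ω : Type) [Field Ω] [Algebra F Ω] (x : Fin (N + 1) → Ω) (a : Fin (N + 1)), x a = 1 →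
        (∀ i, aeval x (q i) = 0) → Algebra.trdeg F (Algebra.adjoin F (Set.range x)) ≤ r) →
      ∀ ℓ₀ : MvPolynomial (Fin (N + 1)) F, ℓ₀.IsHomogeneous 1 →
      ∃ (a : F) (c : Fin (Mn N) → ι → F), a ≠ 0 ∧
        SmoothOver (formR D a ℓ₀ fun t => ∑ i, C (c t i) * q i) ∧
        (∀ (k : Type) [Field k] [IsAlgClosed k] [CharZero k] [Algebra k F] [IsFF k F],
        ∃ B : ℕ, ∀ (L : Type) [Field L] [Algebra k L] [Algebra F L] [IsScalarTower k F L]
          [FiniteDimensional F L] (y : Fin (N + 1) → L), y ≠ 0 →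
          aeval y (formR D a ℓ₀ fun t => ∑ i, C (c t i) * q i) ≠ 0 →
          D * pht k y ≤ C₁ * (canDeg k L +
            (meetsA k (D + 2) (formR D a ℓ₀ fun t => ∑ i, C (c t i) * q i) y).ncard) +
              B * Module.finrank F L ∨
          ∀ i, aeval y (q i) = 0) ∧
        ∀ (Ω : Type) [Field Ω] [Algebra F Ω] [IsAlgClosed Ω] (L : Type) [Field L] [Algebra Ω L]
          (w : ℕ) (y : Fin (N + 1) → L), 1 ≤ w → y ≠ 0 → coords Ω y = ⊤ → Algebra.trdeg Ω L = w →
          aeval y (map (algebraMap F Ω)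
            (formR D a ℓ₀ fun t => ∑ i, C (c t i) * q i)) ≠ 0 →
          LogGeneralType Ω L w (bdry (D + 2) (map (algebraMap F Ω)
            (formR D a ℓ₀ fun t => ∑ i, C (c t i) * q i)) y) ∨
          ∀ i, aeval y (map (algebraMap F Ω) (q i)) = 0 := by
  classical
  obtain ⟨D₀, C₁, hD₀⟩ := alg_ccF hN
  obtain ⟨D₂, hD₂⟩ := special_K hN
  refine ⟨max (max D₀ D₂) 1, C₁, fun D hD F _ _ ι _ q hq r hr1 hr2 ℓ₀ hℓ₀ => ?_⟩
  have hDD : D₀ ≤ D := le_trans (le_trans (le_max_left _ _) (le_max_left _ _)) hD
  have hDD2 : D₂ ≤ D := le_trans (le_trans (le_max_right _ _) (le_max_left _ _)) hD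
  have hD1 : 1 ≤ D := le_trans (le_max_right _ _) hD
  have hL2 : 2 * N + 1 ≤ Mn N := by
    unfold Mn
    nlinarith
  obtain ⟨Δ₁, hΔ₁, hB1⟩ := t_blocks t_spec t_count t_td F N (Mn N) D 2 ι q hq
  have hF₀ : (ℓ₀ ^ (D + 2)).IsHomogeneous (2 + 1 * D) := by
    have := hℓ₀.pow (D + 2)
    rwa [show 1 * (D + 2) = 2 + 1 * D by ring] at this
  obtain ⟨Δ₂, hΔ₂, hS1⟩ := smooth_extK (L := Mn N) hq hD1 hL2 (ℓ₀ ^ (D + 2)) hF₀ hr1 hr2
  obtain ⟨c, hc⟩ : ∃ c : Option (Fin (Mn N) × ι) → F,
      eval c (rename some Δ₁ * X none * Δ₂) ≠ 0 := by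
    by_contra hcon
    push Not at hcon
    have h1 : rename some Δ₁ ≠ (0 : MvPolynomial (Option (Fin (Mn N) × ι)) F) := by
      intro h
      exact hΔ₁ (rename_injective _ (Option.some_injective _) (by rw [h, map_zero]))
    exact mul_ne_zero (mul_ne_zero h1 (X_ne_zero _)) hΔ₂
      (MvPolynomial.funext fun c => by rw [hcon c, map_zero])
  rw [map_mul, map_mul, eval_X, eval_rename] at hc
  have hc1 := left_ne_zero_of_mul (left_ne_zero_of_mul hc)
  have hc0 := right_ne_zero_of_mul (left_ne_zero_of_mul hc)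
  have hc2 := right_ne_zero_of_mul hc
  obtain ⟨Q, hQ⟩ : ∃ Q : Fin (Mn N) → MvPolynomial (Fin (N + 1)) F,
      Q = fun t => ∑ i, C (c (some (t, i))) * q i := ⟨_, rfl⟩
  have hQ2 : ∀ t, (Q t).IsHomogeneous 2 := by
    intro t
    rw [hQ]
    exact fam_hom hq _
  have haev : ∀ {κ : Type} (Ω : Type) [Field Ω] (σ : F →+* Ω) (Δ : MvPolynomial κ F) (c : κ → F),
      eval c Δ ≠ 0 → eval₂ σ (fun p => σ (c p)) Δ ≠ 0 := by
    intro κ Ω _ σ Δ c h h2
    apply h
    apply σ.injective
    rw [map_zero, ← h2]
    exact (eval₂_comp (f := σ) (g := c) Δ).trans rfl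
  refine ⟨c none, fun t i => c (some (t, i)), hc0, ?_, ?_, ?_⟩
  · intro Ω _ τ x hx
    let _ : Algebra F Ω := τ.toAlgebra
    obtain ⟨j, hj⟩ := hS1 Ω (fun p => τ (c p)) (haev Ω τ Δ₂ c hc2) x hx
    refine ⟨j, ?_⟩
    have h1 : (C (τ (c none)) * map (algebraMap F Ω) (ℓ₀ ^ (D + 2)) + ∑ t : Fin (Mn N),
        (∑ i, C (τ (c (some (t, i)))) * map (algebraMap F Ω) (q i)) * lin Ω N (t : ℕ) ^ D) =
        map τ (formR D (c none) ℓ₀ fun t => ∑ i, C (c (some (t, i))) * q i) := by
      rw [formR_map]
      unfold formR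
      rw [map_pow]
      congr 1
      refine Finset.sum_congr rfl fun t _ => ?_
      have h2 : map τ (∑ i, C (c (some (t, i))) * q i) =
          ∑ i, C (τ (c (some (t, i)))) * map (algebraMap F Ω) (q i) := by
        rw [map_sum]
        refine Finset.sum_congr rfl fun i _ => ?_
        rw [map_mul, map_C]
        rfl
      rw [← h2]
      rfl
    rw [h1, pderiv_map, eval_map] at hj
    exact hj
  · intro k _ _ _ _ _
    obtain ⟨A, hA⟩ : ∃ A, A = formR D (c none) ℓ₀ Q := ⟨_, rfl⟩
    have hA' : (formR D (c none) ℓ₀ fun t => ∑ i, C (c (some (t, i))) * q i) = A := by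
      rw [hA, hQ]
    rw [hA']
    obtain ⟨B₀, hB₀⟩ := canDeg_lower k F
    obtain ⟨CF, hCF⟩ : ∃ CF : Finset F, CF = coefs (C (c none) * ℓ₀ ^ 2) ∪
      (Finset.univ.biUnion fun t => coefs (Q t)) ∪ coefs A := ⟨_, rfl⟩
    refine ⟨C₁ * (B₀ + (2 * cht k CF).toNat), fun L _ _ _ _ _ y hy hA0 => ?_⟩
    have hL : IsFF k L := isFF_of_finite (k := k) (F := F)
    obtain ⟨f, hf⟩ : ∃ f : ℤ, f = Module.finrank F L := ⟨_, rfl⟩
    have hf0 : 0 ≤ f := by rw [hf]; positivity
    have hAm : formR D (algebraMap F L (c none)) (map (algebraMap F L) ℓ₀)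
        (fun t => map (algebraMap F L) (Q t)) = map (algebraMap F L) A := by
      rw [hA, formR_map]
    have hev : aeval y (map (algebraMap F L) A) = aeval y A := aeval_map_algebraMap L y A
    have hmeets : meetsA k (D + 2) (map (algebraMap F L) A) y = meetsA k (D + 2) A y := by
      unfold meetsA
      rw [hev]
    by_cases hb : D * pht k y ≤ C₁ * (max (canDeg k L + (meetsA k (D + 2) A y).ncard) 0 +
        2 * cht k (CF.image (algebraMap F L)))
    · left
      refine hb.trans ?_
      rw [cht_image (k := k) (F := F) (L := L) CF]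
      have h1 := hB₀ L
      have h2 : 2 * cht k CF ≤ ((2 * cht k CF).toNat : ℤ) := Int.self_le_toNat _
      have h3 : (2 * cht k CF) * f ≤ ((2 * cht k CF).toNat : ℤ) * f :=
        mul_le_mul_of_nonneg_right h2 hf0
      have h4 : max (canDeg k L + (meetsA k (D + 2) A y).ncard) 0 ≤
          canDeg k L + (meetsA k (D + 2) A y).ncard + B₀ * f := by
        have h5 : 0 ≤ (B₀ : ℤ) * f := by positivity
        have h6 : (0 : ℤ) ≤ (meetsA k (D + 2) A y).ncard := by positivity
        rw [← hf] at h1
        exact max_le (by linarith) (by linarith)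
      have h7 := mul_le_mul_of_nonneg_left (add_le_add h4 h3) (by positivity : (0 : ℤ) ≤ C₁)
      push_cast
      rw [← hf]
      linarith
    · right
      have hcl : C (algebraMap F L (c none)) * (map (algebraMap F L) ℓ₀) ^ 2 =
          map (algebraMap F L) (C (c none) * ℓ₀ ^ 2) := by
        rw [map_mul, map_C, map_pow]
      obtain ⟨𝓑, hne, hdis, hvan, hcard⟩ := hD₀ D hDD k L (CF.image (algebraMap F L))
        (algebraMap F L (c none)) (map (algebraMap F L) ℓ₀)
        (fun t => map (algebraMap F L) (Q t)) (hℓ₀.map _) (fun t => (hQ2 t).map _)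
        (by
          rw [hcl]
          refine coefIn_map ?_
          rw [hCF]
          intro z hz
          exact Finset.mem_union_left _ (Finset.mem_union_left _ hz))
        (fun t => by
          refine coefIn_map ?_
          rw [hCF]
          intro z hz
          exact Finset.mem_union_left _ (Finset.mem_union_right _
            (Finset.mem_biUnion.2 ⟨t, Finset.mem_univ _, hz⟩)))
        (by
          rw [hAm]
          refine coefIn_map ?_
          rw [hCF]
          intro z hz
          exact Finset.mem_union_right _ hz)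
        y hy (by rw [hAm, hev]; exact hA0) (by rw [hAm, hmeets]; exact hb)
      have key := hB1 L (fun p => algebraMap F L (c (some p)))
        (haev L (algebraMap F L) Δ₁ (fun p => c (some p)) hc1) 𝓑 hne
        hdis hcard y hy (by
          intro B hBB
          rw [← hvan B hBB]
          apply Finset.sum_congr rfl
          intro t _
          congr 1
          · rw [aeval_map_algebraMap, hQ, map_sum]
            refine Finset.sum_congr rfl fun i _ => ?_
            rw [map_mul, aeval_C]
          · rw [lin, lin, map_sum, map_sum]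
            congr 1
            refine Finset.sum_congr rfl fun j _ => ?_
            rw [map_mul, map_mul, aeval_C, aeval_C, aeval_X, aeval_X, map_pow, map_pow,
              map_natCast, map_natCast])
      exact key
  · intro Ω _ _ _ L _ _ w y hw hy hgen htr hA0
    have hcΩ : CharZero Ω := charZero_of_injective_algebraMap (algebraMap F Ω).injective
    obtain ⟨A, hA⟩ : ∃ A, A = formR D (c none) ℓ₀ Q := ⟨_, rfl⟩
    have hA' : (formR D (c none) ℓ₀ fun t => ∑ i, C (c (some (t, i))) * q i) = A := by
      rw [hA, hQ]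
    rw [hA'] at hA0 ⊢
    have hAm : formR D (algebraMap F Ω (c none)) (map (algebraMap F Ω) ℓ₀)
        (fun t => map (algebraMap F Ω) (Q t)) = map (algebraMap F Ω) A := by
      rw [hA, formR_map]
    by_cases hlog : LogGeneralType Ω L w (bdry (D + 2) (map (algebraMap F Ω) A) y)
    · exact Or.inl hlog
    · right
      obtain ⟨𝓑, hne, hdis, hvan, hcard⟩ := hD₂ D hDD2 Ω (algebraMap F Ω (c none))
        (map (algebraMap F Ω) ℓ₀) (fun t => map (algebraMap F Ω) (Q t)) (hℓ₀.map _)
        (fun t => (hQ2 t).map _) L w y hw hy hgen htr (by rw [hAm]; exact hA0)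
        (by rw [hAm]; exact hlog)
      let σ : F →+* L := (algebraMap Ω L).comp (algebraMap F Ω)
      let _ : Algebra F L := σ.toAlgebra
      have key := hB1 L (fun p => σ (c (some p)))
        (haev L σ Δ₁ (fun p => c (some p)) hc1) 𝓑 hne
        hdis hcard y hy (by
          intro B hBB
          rw [← hvan B hBB]
          apply Finset.sum_congr rfl
          intro t _
          congr 1
          · rw [hQ]
            change _ = eval₂ (algebraMap Ω L) y (map (algebraMap F Ω) _)
            rw [eval₂_map, eval₂_sum]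
            refine Finset.sum_congr rfl fun i _ => ?_
            rw [eval₂_mul, eval₂_C]
            rfl
          · rw [lin, lin, map_sum, map_sum]
            congr 1
            refine Finset.sum_congr rfl fun j _ => ?_
            rw [map_mul, map_mul, aeval_C, aeval_C, aeval_X, aeval_X, map_pow, map_pow,
              map_natCast, map_natCast])
      intro i
      have h1 : eval₂ σ y (q i) = 0 := key i
      change eval₂ (algebraMap Ω L) y (map (algebraMap F Ω) (q i)) = 0
      rw [eval₂_map]
      exact h1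

end Pool.Agent.W2helper39.FV
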