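import Pool.Agent.W2helper39.LC.Gt

/-!
Logarithmic general type from minimal vanishing sums with many powers, over any algebraically closed
field of characteristic zero. Adapted from the starting files `N254/SQ/Circ.lean`, `GT.lean` and
`GTA.lean`, which are for the complex numbers, and from `LC/Gta.lean`, `LC/Gt.lean`.
-/

set_option autoImplicit false
set_option linter.unusedSectionVars false

namespace Pool.Agent.W2helper39.FV

open MvPolynomial FF Pool.Agent.W602.GT Pool.Agent.W603.LV Pool.Agent.N254.SQ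
open Pool.Agent.W2helper39.LC (gt_numl)

section circ

variable {Ω : Type} [Field Ω]


open Classical in
/-- the support of a vector -/
noncomputable def circ_supp {ι : Type} [Fintype ι] (a : ι → Ω) : Finset ι :=
  Finset.univ.filter fun i => a i ≠ 0

theorem circ_mem {ι : Type} [Fintype ι] {a : ι → Ω} {i : ι} : i ∈ circ_supp a ↔ a i ≠ 0 := by
  unfold circ_supp
  simp

/-- if `b` has its support in the support of `a`, subtracting the right multiple makes it smaller -/
theorem circ_lt {ι : Type} [Fintype ι] {a a' : ι → Ω} {i : ι} (hi : a' i ≠ 0) (hia : a i ≠ 0)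
    (h : circ_supp a' ⊆ circ_supp a) :
    (circ_supp (a - (a i / a' i) • a')).card < (circ_supp a).card := by
  apply Finset.card_lt_card
  rw [Finset.ssubset_iff_of_subset]
  · refine ⟨i, circ_mem.2 hia, ?_⟩
    rw [circ_mem]
    simp only [Pi.sub_apply, Pi.smul_apply, smul_eq_mul, ne_eq, not_not]
    field_simp
    ring
  · intro j hj
    rw [circ_mem] at hj ⊢
    intro h0
    have h1 : a' j = 0 := by
      by_contra h2
      exact circ_mem.1 (h (circ_mem.2 h2)) h0
    apply hj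
    simp [h0, h1]

theorem circ_rel {V : Type} [AddCommGroup V] [Module Ω V] {ι : Type} [Fintype ι] {u : ι → V}
    {a b : ι → Ω} (c : Ω) (ha : ∑ i, a i • u i = 0) (hb : ∑ i, b i • u i = 0) :
    ∑ i, (a - c • b) i • u i = 0 := by
  simp only [Pi.sub_apply, Pi.smul_apply, smul_eq_mul, sub_smul, mul_smul]
  rw [Finset.sum_sub_distrib, ← Finset.smul_sum, ha, hb]
  simp

open Classical in
/-- below every nonzero relation there is a circuit -/
theorem circ_exists {V : Type} [AddCommGroup V] [Module Ω V] {ι : Type} [Fintype ι] (u : ι → V)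
    (a : ι → Ω) (ha0 : a ≠ 0) (ha : ∑ i, a i • u i = 0) :
    ∃ a' : ι → Ω, a' ≠ 0 ∧ ∑ i, a' i • u i = 0 ∧ circ_supp a' ⊆ circ_supp a ∧
      ∀ b : ι → Ω, (∀ i, a' i = 0 → b i = 0) → ∑ i, b i • u i = 0 → ∃ c : Ω, b = c • a' := by
  have hex : ∃ n : ℕ, ∃ a' : ι → Ω, a' ≠ 0 ∧ ∑ i, a' i • u i = 0 ∧ circ_supp a' ⊆ circ_supp a ∧
      (circ_supp a').card = n := ⟨_, a, ha0, ha, subset_rfl, rfl⟩
  obtain ⟨a', h1, h2, h3, h4⟩ := Nat.find_spec hex
  refine ⟨a', h1, h2, h3, ?_⟩
  intro b hb hbr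
  obtain ⟨i, hi⟩ : ∃ i, a' i ≠ 0 := by
    by_contra h5
    push Not at h5
    exact h1 (funext h5)
  refine ⟨b i / a' i, ?_⟩
  by_contra hne
  have h5 : b - (b i / a' i) • a' ≠ 0 := fun h => hne (sub_eq_zero.1 h)
  have h6 : circ_supp (b - (b i / a' i) • a') ⊆ circ_supp a' := by
    intro j hj
    rw [circ_mem] at hj ⊢
    intro h0
    apply hj
    simp [h0, hb j h0]
  have h7 : (circ_supp (b - (b i / a' i) • a')).card < (circ_supp a').card := by
    apply Finset.card_lt_card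
    rw [Finset.ssubset_iff_of_subset h6]
    refine ⟨i, circ_mem.2 hi, ?_⟩
    rw [circ_mem]
    simp only [Pi.sub_apply, Pi.smul_apply, smul_eq_mul, ne_eq, not_not]
    field_simp
    ring
  rw [h4] at h7
  exact Nat.find_min hex h7 ⟨_, h5, circ_rel _ hbr h2, h6.trans h3, rfl⟩

open Classical in
theorem circK (V : Type) [AddCommGroup V] [Module Ω V] (ι : Type) [Fintype ι] (u : ι → V)
    (hu : ∑ i, u i = 0) (hmin : ∀ B : Finset ι, B.Nonempty → B ≠ Finset.univ → ∑ i ∈ B, u i ≠ 0)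
    (R : ι → ι → Prop) (hR : Equivalence R)
    (hcon : ∀ a : ι → Ω, a ≠ 0 → ∑ i, a i • u i = 0 →
      (∀ b : ι → Ω, (∀ i, a i = 0 → b i = 0) → ∑ i, b i • u i = 0 → ∃ c : Ω, b = c • a) →
      ∀ i j, a i ≠ 0 → a j ≠ 0 → R i j) (i₀ j₀ : ι) : R i₀ j₀ := by
  set E : Finset ι := Finset.univ.filter fun i => R i₀ i with hE
  have key : ∀ n : ℕ, ∀ a : ι → Ω, (circ_supp a).card ≤ n → ∑ i, a i • u i = 0 →
      ∑ i ∈ E, a i • u i = 0 := by
    intro n
    induction n with
    | zero =>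
      intro a h0 _
      have h1 : ∀ i, a i = 0 := by
        intro i
        by_contra h2
        have h3 := circ_mem.2 h2
        rw [Finset.card_eq_zero.1 (Nat.le_zero.1 h0)] at h3
        simp at h3
      exact Finset.sum_eq_zero fun i _ => by rw [h1, zero_smul]
    | succ n ih =>
      intro a hn ha
      by_cases ha0 : a = 0
      · rw [ha0]
        simp
      obtain ⟨a', h1, h2, h3, h4⟩ := circ_exists u a ha0 ha
      obtain ⟨i, hi⟩ : ∃ i, a' i ≠ 0 := by
        by_contra h5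
        push Not at h5
        exact h1 (funext h5)
      have hia : a i ≠ 0 := circ_mem.1 (h3 (circ_mem.2 hi))
      have h5 := circ_lt hi hia h3
      have h6 := ih (a - (a i / a' i) • a') (by omega) (circ_rel _ ha h2)
      have hc := hcon a' h1 h2 h4
      -- the restriction of the circuit
      have h7 : ∑ j ∈ E, a' j • u j = 0 := by
        by_cases hiE : R i₀ i
        · rw [← h2]
          apply Finset.sum_subset (Finset.subset_univ _)
          intro j _ hj
          by_cases hj0 : a' j = 0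
          · rw [hj0, zero_smul]
          · exfalso
            apply hj
            rw [hE, Finset.mem_filter]
            exact ⟨Finset.mem_univ _, hR.trans hiE (hc i j hi hj0)⟩
        · apply Finset.sum_eq_zero
          intro j hj
          rw [hE, Finset.mem_filter] at hj
          by_cases hj0 : a' j = 0
          · rw [hj0, zero_smul]
          · exact absurd (hR.trans hj.2 (hc j i hj0 hi)) hiE
      have h8 : ∀ j, a j • u j = (a - (a i / a' i) • a') j • u j + (a i / a' i) • (a' j • u j) := by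
        intro j
        simp only [Pi.sub_apply, Pi.smul_apply, smul_eq_mul, sub_smul, mul_smul]
        abel
      calc ∑ j ∈ E, a j • u j
          = ∑ j ∈ E, (a - (a i / a' i) • a') j • u j + (a i / a' i) • ∑ j ∈ E, a' j • u j := by
            rw [Finset.smul_sum, ← Finset.sum_add_distrib]
            exact Finset.sum_congr rfl fun j _ => h8 j
        _ = 0 := by rw [h6, h7, smul_zero, add_zero]
  have h1 := key _ (fun _ => 1) le_rfl (by simpa using hu)
  simp only [one_smul] at h1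
  by_contra hne
  apply hmin E ⟨i₀, ?_⟩ ?_ h1
  · rw [hE, Finset.mem_filter]
    exact ⟨Finset.mem_univ _, hR.refl _⟩
  · intro h2
    have h3 : j₀ ∈ E := by rw [h2]; exact Finset.mem_univ _
    rw [hE, Finset.mem_filter] at h3
    exact hne h3.2


end circ




section circuits

variable {Ω : Type} [Field Ω] {K : Type} [Field K] [Algebra Ω K] {κ : Type} [Fintype κ]

/-- the members `i`, `j` belong to a circuit of `u` -/
def GK_con (u : κ → K) (i j : κ) : Prop :=
  ∃ a : κ → Ω, ∑ x, a x • u x = 0 ∧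
    (∀ b : κ → Ω, (∀ x, a x = 0 → b x = 0) → ∑ x, b x • u x = 0 → ∃ c : Ω, b = c • a) ∧
    a i ≠ 0 ∧ a j ≠ 0

/-- the terms of one circuit -/
theorem GK_circuit (u : κ → K) (hu : ∀ t, u t ≠ 0) (a : κ → Ω) (ha : ∑ x, a x • u x = 0)
    (hmin : ∀ b : κ → Ω, (∀ x, a x = 0 → b x = 0) → ∑ x, b x • u x = 0 → ∃ c : Ω, b = c • a)
    {i : κ} (hi : a i ≠ 0) :
    ∃ (m : ℕ) (E : Fin (m + 1) → κ) (T : Fin (m + 1) → K), m + 1 ≤ Fintype.card κ ∧
      (∀ j, T j ≠ 0) ∧ ∑ j, T j = 0 ∧
      LinearIndependent Ω (fun l => T ((Fin.last m).succAbove l)) ∧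
      (∀ (P : Place Ω K) j, P.ord (T j) = P.ord (u (E j))) ∧ ∀ x, a x ≠ 0 → ∃ j, E j = x := by
  classical
  set S : Finset κ := Finset.univ.filter fun i => a i ≠ 0 with hS
  have hiS : i ∈ S := by simp [hS, hi]
  have hcard : 1 ≤ S.card := Finset.card_pos.2 ⟨i, hiS⟩
  obtain ⟨m, hm⟩ : ∃ m, S.card = m + 1 := ⟨S.card - 1, by omega⟩
  let E : Fin (m + 1) ≃ S := (Fintype.equivFinOfCardEq (by rw [Fintype.card_coe, hm])).symm
  have hES : ∀ x, a (E x) ≠ 0 := fun x => by
    have h5 : (E x : κ) ∈ Finset.univ.filter fun i => a i ≠ 0 := (E x).2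
    exact (Finset.mem_filter.1 h5).2
  have hsumS : ∀ (b : κ → Ω), (∀ x, x ∉ S → b x = 0) →
      ∑ x : Fin (m + 1), b (E x) • u (E x) = ∑ x, b x • u x := by
    intro b hb
    rw [Equiv.sum_comp E fun x : S => b x • u x,
      Finset.sum_coe_sort S fun x => b x • u x]
    refine Finset.sum_subset (Finset.subset_univ _) fun x _ hx => ?_
    rw [hb x hx, zero_smul]
  have haS : ∀ x, x ∉ S → a x = 0 := by
    intro x hx
    by_contra h
    exact hx (by simp [hS, h])
  refine ⟨m, fun x => (E x : κ), fun x => a (E x) • u (E x), ?_, ?_, ?_, ?_, ?_, ?_⟩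
  · rw [← hm]
    exact Finset.card_le_univ S
  · intro j
    exact smul_ne_zero (hES j) (hu _)
  · rw [hsumS a haS, ha]
  · rw [Fintype.linearIndependent_iff]
    intro c hc
    obtain ⟨c', hc1, hc2⟩ : ∃ c' : Fin (m + 1) → Ω, c' (Fin.last m) = 0 ∧
        ∀ l, c' ((Fin.last m).succAbove l) = c l :=
      ⟨(Fin.last m).insertNth 0 c, Fin.insertNth_apply_same _ _ _,
        fun l => Fin.insertNth_apply_succAbove _ _ _ _⟩
    set b' : κ → Ω := fun x => if h : x ∈ S then c' (E.symm ⟨x, h⟩) * a x else 0 with hb'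
    have h4 : ∀ x, x ∉ S → b' x = 0 := by
      intro x hx
      simp only [hb']
      rw [dif_neg hx]
    have h5 : ∀ x : Fin (m + 1), b' (E x) = c' x * a (E x) := by
      intro x
      simp only [hb']
      rw [dif_pos (E x).2]
      simp
    have h6 : ∑ x, b' x • u x = 0 := by
      rw [← hsumS b' h4, Fin.sum_univ_succAbove _ (Fin.last m), h5, hc1, zero_mul, zero_smul,
        zero_add, ← hc]
      refine Finset.sum_congr rfl fun l _ => ?_
      rw [h5, hc2, mul_smul]
    obtain ⟨d, hd⟩ := hmin b' (fun x hx => h4 x (by simp [hS, hx])) h6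
    have h7 : d = 0 := by
      have h8 := congrFun hd (E (Fin.last m))
      rw [h5, hc1, zero_mul, Pi.smul_apply, smul_eq_mul] at h8
      rcases mul_eq_zero.1 h8.symm with h | h
      · exact h
      · exact absurd h (hES _)
    intro l
    have h9 := congrFun hd (E ((Fin.last m).succAbove l))
    rw [h5, hc2, h7, zero_smul, Pi.zero_apply] at h9
    rcases mul_eq_zero.1 h9 with h | h
    · exact h
    · exact absurd h (hES _)
  · intro P j
    exact ord_smul' P (hES j) _
  · intro x hx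
    have hxS : x ∈ S := by simp [hS, hx]
    exact ⟨E.symm ⟨x, hxS⟩, by simp⟩

/-- a finite family of circuits -/
theorem GK_circuits (u : κ → K) (hu : ∀ t, u t ≠ 0) :
    ∃ (I : Type) (_ : Fintype I) (m : I → ℕ) (E : ∀ i, Fin (m i + 1) → κ)
      (T : ∀ i, Fin (m i + 1) → K), Fintype.card I ≤ Fintype.card κ ^ 2 ∧
      (∀ i, m i + 1 ≤ Fintype.card κ) ∧ (∀ i j, T i j ≠ 0) ∧ (∀ i, ∑ j, T i j = 0) ∧
      (∀ i, LinearIndependent Ω (fun l => T i ((Fin.last (m i)).succAbove l))) ∧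
      (∀ (P : Place Ω K) i j, P.ord (T i j) = P.ord (u (E i j))) ∧
      ∀ x y, GK_con (Ω := Ω) u x y → ∃ i j l, E i j = x ∧ E i l = y := by
  classical
  have hex : ∀ q : {q : κ × κ // GK_con (Ω := Ω) u q.1 q.2}, ∃ (m : ℕ) (E : Fin (m + 1) → κ)
      (T : Fin (m + 1) → K), m + 1 ≤ Fintype.card κ ∧ (∀ j, T j ≠ 0) ∧ ∑ j, T j = 0 ∧
      LinearIndependent Ω (fun l => T ((Fin.last m).succAbove l)) ∧
      (∀ (P : Place Ω K) j, P.ord (T j) = P.ord (u (E j))) ∧
      (∃ j, E j = q.1.1) ∧ ∃ j, E j = q.1.2 := by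
    rintro ⟨⟨i, j⟩, a, h1, h2, h3, h4⟩
    obtain ⟨m, E, T, h5, h6, h7, h8, h9, h10⟩ := GK_circuit u hu a h1 h2 h3
    exact ⟨m, E, T, h5, h6, h7, h8, h9, h10 _ h3, h10 _ h4⟩
  choose m E T h1 h2 h3 h4 h5 h6 h7 using hex
  refine ⟨{q : κ × κ // GK_con (Ω := Ω) u q.1 q.2}, inferInstance, m, E, T, ?_, h1, h2, h3, h4,
    fun P i j => h5 i P j, ?_⟩
  · refine (Fintype.card_subtype_le _).trans ?_
    rw [Fintype.card_prod, sq]
  · intro x y hxy
    obtain ⟨j, hj⟩ := h6 ⟨(x, y), hxy⟩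
    obtain ⟨l, hl⟩ := h7 ⟨(x, y), hxy⟩
    exact ⟨_, j, l, hj, hl⟩

/-- differences along a walk -/
theorem GK_walk (o : κ → ℤ) (J : ℤ) (Gr : SimpleGraph κ)
    (hG : ∀ i j, Gr.Adj i j → |o i - o j| ≤ J) {i j : κ} (w : Gr.Walk i j) :
    |o i - o j| ≤ w.length * J := by
  induction w with
  | nil => simp
  | cons h p ih =>
    rename_i i k j
    rw [SimpleGraph.Walk.length_cons]
    have h1 := hG _ _ h
    have h2 := abs_sub_le (o i) (o k) (o j)
    push_cast
    linarith

/-- the differences are bounded if all members of circuits have bounded differences -/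
theorem GK_diff (u : κ → K) (hsum : ∑ t, u t = 0)
    (hmin : ∀ B : Finset κ, B.Nonempty → B ≠ Finset.univ → ∑ t ∈ B, u t ≠ 0) (o : κ → ℤ) (J : ℤ)
    (hJ : ∀ i j, GK_con (Ω := Ω) u i j → |o i - o j| ≤ J) (hJ0 : 0 ≤ J) (i j : κ) :
    |o i - o j| ≤ Fintype.card κ * J := by
  classical
  let Gr : SimpleGraph κ :=
    { Adj := fun i j => i ≠ j ∧ |o i - o j| ≤ J
      symm := ⟨fun i j h => ⟨h.1.symm, by rw [abs_sub_comm]; exact h.2⟩⟩
      loopless := ⟨fun i h => h.1 rfl⟩ }
  have hreach : ∀ i j, Gr.Reachable i j := by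
    refine circK (Ω := Ω) K κ u hsum hmin Gr.Reachable Gr.reachable_is_equivalence ?_
    intro a _ ha hamin i j hi hj
    by_cases hij : i = j
    · rw [hij]
    · exact SimpleGraph.Adj.reachable ⟨hij, hJ i j ⟨a, ha, hamin, hi, hj⟩⟩
  obtain ⟨w, hw⟩ := (hreach i j).exists_isPath
  refine (GK_walk o J Gr (fun i j h => h.2) w).trans ?_
  apply mul_le_mul_of_nonneg_right _ hJ0
  exact_mod_cast hw.length_lt.le

end circuits

section forms

variable {Ω : Type} [Field Ω] [CharZero Ω] {K : Type} [Field K] [Algebra Ω K] {n : ℕ}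

/-- the order of the value of a form -/
theorem GK_ge (P : Place Ω K) (y : Fin (n + 1) → K) {μ : ℤ} (hμ : ∀ i, Ge P μ (y i)) {d : ℕ}
    {F : MvPolynomial (Fin (n + 1)) Ω} (hF : F.IsHomogeneous d) : Ge P (d * μ) (val y F) := by
  unfold val
  rw [aeval_def, eval₂_eq']
  refine Ge.sum _ _ fun α hα => ?_
  have h1 : ∑ i, α i = d := by
    have h2 := hF (mem_support_iff.1 hα)
    rw [Finsupp.weight_apply, Finsupp.sum_fintype _ _ (fun i => by simp)] at h2
    simpa using h2
  have h3 := Ge.prod (P := P) Finset.univ (fun i => y i ^ α i) (fun i => (α i : ℤ) * μ)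
    (fun i _ => (hμ i).pow (α i))
  have h4 := (Ge.const (P := P) (coeff α F)).mul h3
  rw [← Finset.sum_mul, zero_add, ← Nat.cast_sum, h1] at h4
  exact h4

theorem GK_lin (y : Fin (n + 1) → K) (t : ℕ) :
    val y (lin Ω n t) = ∑ j : Fin (n + 1), algebraMap Ω K ((t : Ω) ^ (j : ℕ)) * y j := by
  unfold lin val
  rw [map_sum]
  refine Finset.sum_congr rfl fun j _ => ?_
  rw [map_mul, aeval_C, aeval_X]

theorem GK_lin_hom (n t : ℕ) : (lin Ω n t).IsHomogeneous 1 := by
  unfold lin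
  refine IsHomogeneous.sum _ _ _ fun j _ => ?_
  have := (isHomogeneous_C (Fin (n + 1)) ((t : Ω) ^ (j : ℕ))).mul (isHomogeneous_X Ω j)
  simpa using this

/-- the coordinates are combinations of the linear forms -/
theorem GK_inv (q : Fin (n + 1) → ℕ) (hq : Function.Injective q) (y : Fin (n + 1) → K) :
    ∃ B : Fin (n + 1) → Fin (n + 1) → Ω, ∀ j, y j =
      ∑ s, algebraMap Ω K (B j s) * val y (lin Ω n (q s)) := by
  set V : Matrix (Fin (n + 1)) (Fin (n + 1)) Ω := Matrix.vandermonde fun i => (q i : Ω) with hV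
  have h8 : V.det ≠ 0 := by
    rw [hV, Matrix.det_vandermonde_ne_zero_iff]
    intro i j hij
    exact hq (Nat.cast_injective hij)
  have h9 : V⁻¹ * V = 1 := Matrix.nonsing_inv_mul V (isUnit_iff_ne_zero.2 h8)
  refine ⟨fun j s => V⁻¹ j s, fun j => ?_⟩
  have h10 : ∀ s, val y (lin Ω n (q s)) = ∑ k, algebraMap Ω K (V s k) * y k := fun s => by
    rw [GK_lin]
    rfl
  simp only [h10, Finset.mul_sum]
  rw [Finset.sum_comm]
  have h11 : ∀ k, ∑ s, algebraMap Ω K (V⁻¹ j s) * (algebraMap Ω K (V s k) * y k) =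
      algebraMap Ω K ((V⁻¹ * V) j k) * y k := by
    intro k
    rw [Matrix.mul_apply, map_sum, Finset.sum_mul]
    refine Finset.sum_congr rfl fun s _ => ?_
    rw [map_mul, mul_assoc]
  simp only [h11, h9, Matrix.one_apply]
  rw [Finset.sum_eq_single j]
  · simp
  · intro k _ hk
    rw [if_neg (Ne.symm hk), map_zero, zero_mul]
  · intro h
    exact absurd (Finset.mem_univ _) h

/-- a transcendence basis among the ratios of the linear forms -/
theorem GK_basis {w : ℕ} (y : Fin (n + 1) → K) (hgen : coords Ω y = ⊤)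
    (htr : Algebra.trdeg Ω K = w) (q : Fin (n + 1) → ℕ) (hq : Function.Injective q)
    (h0 : val y (lin Ω n (q 0)) ≠ 0) :
    ∃ a : Fin w → Fin (n + 1), IsTranscendenceBasis Ω
      (fun j => val y (lin Ω n (q (a j))) / val y (lin Ω n (q 0))) := by
  obtain ⟨B, hB⟩ := GK_inv (Ω := Ω) q hq y
  set r : Fin (n + 1) → K := fun s => val y (lin Ω n (q s)) / val y (lin Ω n (q 0)) with hr
  have hmem : ∀ j, y j / val y (lin Ω n (q 0)) ∈ IntermediateField.adjoin Ω (Set.range r) := by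
    intro j
    have h1 : y j / val y (lin Ω n (q 0)) = ∑ s, algebraMap Ω K (B j s) * r s := by
      conv_lhs => rw [hB j]
      rw [Finset.sum_div]
      refine Finset.sum_congr rfl fun s _ => ?_
      rw [hr]
      exact mul_div_assoc _ _ _
    rw [h1]
    refine sum_mem fun s _ => mul_mem (algebraMap_mem _ _) ?_
    exact IntermediateField.subset_adjoin _ _ ⟨s, rfl⟩
  have htop : IntermediateField.adjoin Ω (Set.range r) = ⊤ := by
    rw [eq_top_iff, ← hgen]
    unfold coords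
    rw [IntermediateField.adjoin_le_iff]
    rintro z ⟨i, j, hj, rfl⟩
    have h2 : y i / y j = (y i / val y (lin Ω n (q 0))) / (y j / val y (lin Ω n (q 0))) := by
      field_simp
    rw [h2]
    exact div_mem (hmem i) (hmem j)
  have halg : Algebra.IsAlgebraic (IntermediateField.adjoin Ω (Set.range r)) K := by
    refine ⟨fun x => ?_⟩
    have hx : x ∈ IntermediateField.adjoin Ω (Set.range r) := by
      rw [htop]
      exact IntermediateField.mem_top
    exact isAlgebraic_algebraMap (⟨x, hx⟩ : IntermediateField.adjoin Ω (Set.range r))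
  have halg' := alg_adjoin halg
  obtain ⟨x0, hx0⟩ := basis_of_trdeg htr
  obtain ⟨B', hB', hBb⟩ := exists_isTranscendenceBasis_subset (R := Ω) (A := K) (Set.range r)
  have hcard := hx0.lift_cardinalMk_eq hBb
  rw [Cardinal.mk_fin] at hcard
  obtain ⟨φ⟩ : Nonempty (Fin w ≃ B') := by
    rw [← Cardinal.eq, Cardinal.mk_fin]
    have := hcard
    simpa using this
  have htb : IsTranscendenceBasis Ω (fun i => (φ i : K)) := hBb.comp_equiv φ
  have hmem' : ∀ i, ∃ s, r s = (φ i : K) := fun i => hB' (φ i).2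
  choose a ha using hmem'
  refine ⟨a, ?_⟩
  have h3 : (fun j => val y (lin Ω n (q (a j))) / val y (lin Ω n (q 0))) =
      fun i => (φ i : K) := by
    funext j
    exact ha j
  rw [h3]
  exact htb

/-- curves of positive dimension lie in projective spaces of positive dimension -/
theorem GK_pos {w : ℕ} (y : Fin (n + 1) → K) (hw : 1 ≤ w) (hgen : coords Ω y = ⊤)
    (htr : Algebra.trdeg Ω K = w) : 1 ≤ n := by
  by_contra hn
  have hn0 : n = 0 := by omega
  subst hn0
  obtain ⟨x0, hx0⟩ := basis_of_trdeg htr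
  have h1 : coords Ω y ≤ ⊥ := by
    unfold coords
    rw [IntermediateField.adjoin_le_iff]
    rintro z ⟨i, j, hj, rfl⟩
    have : i = j := Fin.ext (by omega)
    rw [this, div_self hj]
    exact one_mem _
  have h2 : x0 ⟨0, hw⟩ ∈ (⊥ : IntermediateField Ω K) := by
    apply h1
    rw [hgen]
    exact IntermediateField.mem_top
  obtain ⟨c, hc⟩ := IntermediateField.mem_bot.1 h2
  have h4 := hx0.1.transcendental ⟨0, hw⟩
  rw [← hc] at h4
  exact h4 (isAlgebraic_algebraMap c)

end forms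


section gta




variable {Ω : Type} [Field Ω] [CharZero Ω] {K : Type} [Field K] [Algebra Ω K] {I : Type} [Fintype I] {m : I → ℕ}

/-- the product of the factors -/
noncomputable def gk_G (E : Derivation Ω K K) (T : ∀ i : I, Fin (m i + 1) → K) : K :=
  ∏ i, (eta E (T i) ^ (m i + 1) * ∏ j, T i j)

lemma gk_smul (δ : K) (D : Derivation Ω K K) (T : ∀ i : I, Fin (m i + 1) → K) :
    gk_G (δ • D) T = δ ^ (∑ i, (m i + 1) * tn (m i)) * gk_G D T := by
  unfold gk_G
  have h : ∀ i : I, eta (δ • D) (T i) ^ (m i + 1) * ∏ j, T i j =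
      δ ^ ((m i + 1) * tn (m i)) * (eta D (T i) ^ (m i + 1) * ∏ j, T i j) := by
    intro i
    rw [eta_smul, mul_pow, ← pow_mul, mul_comm (m i + 1)]
    unfold tn
    ring
  rw [Finset.prod_congr rfl fun i _ => h i, Finset.prod_mul_distrib, Finset.prod_pow_eq_pow_sum]

lemma gk_fac {P : Place Ω K} {E : Derivation Ω K K} {m : ℕ} {T : Fin (m + 1) → K}
    {b : Fin (m + 1)} {ε : ℤ} (h : Ge P (- P.ord (T b) - ε * tri m) (eta E T))
    (hT : ∀ j, T j ≠ 0) :
    Ge P (∑ j, (P.ord (T j) - P.ord (T b)) - ε * ((m + 1) * tn m : ℕ))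
      (eta E T ^ (m + 1) * ∏ j, T j) := by
  have h1 := (h.pow (m + 1)).mul (ge_ord P (∏ j, T j))
  refine h1.mono ?_
  rw [ord_prod' P _ _ fun j _ => hT j, tri_eq, Finset.sum_sub_distrib]
  push_cast
  simp only [Finset.sum_const, Finset.card_univ, Fintype.card_fin, nsmul_eq_mul]
  push_cast
  apply le_of_eq
  ring

lemma gk_ge {P : Place Ω K} {E : Derivation Ω K K} {T : ∀ i : I, Fin (m i + 1) → K}
    (hT : ∀ i j, T i j ≠ 0) {b : ∀ i, Fin (m i + 1)} {ε : ℤ}
    (h : ∀ i, Ge P (- P.ord (T i (b i)) - ε * tri (m i)) (eta E (T i))) :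
    Ge P (∑ i, ∑ j, (P.ord (T i j) - P.ord (T i (b i))) -
      ε * (∑ i, (m i + 1) * tn (m i) : ℕ)) (gk_G E T) := by
  unfold gk_G
  have h1 := Ge.prod (P := P) Finset.univ
    (fun i => eta E (T i) ^ (m i + 1) * ∏ j, T i j)
    (fun i => ∑ j, (P.ord (T i j) - P.ord (T i (b i))) - ε * ((m i + 1) * tn (m i) : ℕ))
    (fun i _ => gk_fac (h i) (hT i))
  refine h1.mono ?_
  rw [Finset.sum_sub_distrib, ← Finset.mul_sum]
  push_cast
  exact le_rfl


end gta

theorem gk_log (Ω : Type) [Field Ω] [IsAlgClosed Ω] [CharZero Ω] (K : Type) [Field K] [Algebra Ω K] (w : ℕ) (t : Fin w → K)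
    (hbasis : IsTranscendenceBasis Ω t) (I : Type) [Fintype I] (m : I → ℕ)
    (T : ∀ i : I, Fin (m i + 1) → K) (hT : ∀ i j, T i j ≠ 0) (hsum : ∀ i, ∑ j, T i j = 0)
    (hlin : ∀ i, LinearIndependent Ω (fun l => T i ((Fin.last (m i)).succAbove l))) :
    ∃ g₀ : K, g₀ ≠ 0 ∧ ∀ (h : K) (P : Place Ω K), h ≠ 0 →
      (((∀ j, P.ord (t j) = 0) ∧ (∀ i j l, P.ord (T i j) = P.ord (T i l)) ∧ 0 ≤ P.ord h ∨
        ∃ b : ∀ i, Fin (m i + 1), (∀ i j, P.ord (T i (b i)) ≤ P.ord (T i j)) ∧
          (wt2 m : ℤ) ≤ ∑ i, ∑ j, (P.ord (T i j) - P.ord (T i (b i))) + P.ord h) →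
      RegAt P (form t (wt2 m) (g₀ * h))) ∧
      ((∃ b : ∀ i, Fin (m i + 1), (∀ i j, P.ord (T i (b i)) ≤ P.ord (T i j)) ∧
          0 ≤ ∑ i, ∑ j, (P.ord (T i j) - P.ord (T i (b i))) + P.ord h) →
      LogAt P (form t (wt2 m) (g₀ * h))) := by
  classical
  obtain ⟨lam, hlam⟩ := exists_lam Ω w
  obtain ⟨D0, hD0⟩ := exists_der t hbasis (fun j => algebraMap Ω K (lam j) * t j)
  have ht0 : ∀ j, t j ≠ 0 := by
    intro j hj
    have h4 := hbasis.1.transcendental j
    rw [hj] at h4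
    exact h4 isAlgebraic_zero
  have hconst : ∀ h, D0 h = 0 → ∃ c : Ω, h = algebraMap Ω K c := fun h hh =>
    const_of_der t hbasis lam hlam D0 hD0 hh
  have heta0 : ∀ i, eta D0 (T i) ≠ 0 := fun i =>
    div_ne_zero (wr_ne hconst _ (hlin i)) (Finset.prod_ne_zero_iff.2 fun j _ => hT i j)
  have hG0 : gk_G D0 T ≠ 0 := Finset.prod_ne_zero_iff.2 fun i _ =>
    mul_ne_zero (pow_ne_zero _ (heta0 i)) (Finset.prod_ne_zero_iff.2 fun j _ => hT i j)
  have hpt : (∏ j, t j) ≠ 0 := Finset.prod_ne_zero_iff.2 fun j _ => ht0 j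
  refine ⟨gk_G D0 T / (∏ j, t j) ^ wt2 m, div_ne_zero hG0 (pow_ne_zero _ hpt), ?_⟩
  intro h P hh
  have hkey : ∀ D : Fin w → Derivation Ω K K,
      form t (wt2 m) (gk_G D0 T / (∏ j, t j) ^ wt2 m * h) D =
      h * (gk_G (con t lam D) T * (lmat t D).det) := by
    intro D
    have h1 : con t lam D = (lmat t D).det • D0 := by
      apply der_ext t hbasis
      intro l
      rw [con_t t lam D ht0 l, Derivation.coe_smul, Pi.smul_apply, hD0, smul_eq_mul]
      ring
    have h2 : (Matrix.of fun i j => D i (t j)).det = (∏ j, t j) * (lmat t D).det := by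
      rw [← Matrix.det_mul_row]
      congr 1
      ext i j
      simp only [Matrix.of_apply, lmat]
      have := ht0 j
      field_simp
    unfold form
    rw [h1, gk_smul, h2, mul_pow]
    have h3 : (lmat t D).det ^ wt2 m =
        (lmat t D).det ^ (∑ i, (m i + 1) * tn (m i)) * (lmat t D).det := by
      unfold wt2
      rw [pow_succ]
    rw [h3]
    field_simp
  refine ⟨fun halt D hD => ?_, fun halt D hD => ?_⟩
  · rw [hkey, reg_iff_ge]
    rcases halt with ⟨ht1, ht2, hh0⟩ | ⟨b, hb, hbb⟩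
    · -- no zeros or poles
      have hE := con_reg t lam D hD ht0 ht1
      have h1 := gk_ge (P := P) (E := con t lam D) hT (b := fun i => 0) (ε := 0) (fun i => by
        rw [zero_mul, sub_zero]
        exact eta_reg hE (hT i) (hsum i) 0 (fun j => ht2 i j 0))
      have h2 : Ge P 0 (lmat t D).det :=
        ge_det P _ 0 (fun _ _ => 0) (fun i l => ge_logder_reg (hD i) (ht0 l) (ht1 l))
          (fun σ => by simp)
      have h3 := (ge_ord P h).mul (h1.mul h2)
      refine h3.mono ?_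
      have h4 : ∑ i, ∑ j, (P.ord (T i j) - P.ord (T i 0)) = 0 :=
        Finset.sum_eq_zero fun i _ => Finset.sum_eq_zero fun j _ => by rw [ht2 i j 0, sub_self]
      rw [h4]
      linarith
    · have h1 := gk_ge (P := P) (E := con t lam D) hT (b := b) (ε := 1) (fun i => by
        have hE : ∀ x : K, x ≠ 0 → Ge P (-1) (con t lam D x / x) := fun x hx =>
          con_pole t lam D hD ht0 hx
        exact eta_log hE (hT i) (hsum i) (b i))
      have h2 : Ge P (-1) (lmat t D).det := det_log D hD t ht0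
      have h3 := (ge_ord P h).mul (h1.mul h2)
      refine h3.mono ?_
      unfold wt2 at hbb
      push_cast at hbb ⊢
      linarith
  · rw [hkey, reg_iff_ge]
    obtain ⟨b, hb, hbb⟩ := halt
    have h1 := gk_ge (P := P) (E := con t lam D) hT (b := b) (ε := 0) (fun i => by
      have hE : ∀ x : K, x ≠ 0 → Ge P (-0) (con t lam D x / x) := fun x hx => by
        rw [neg_zero]
        exact con_log t lam D hD x
      exact eta_log hE (hT i) (hsum i) (b i))
    have h2 : Ge P 0 (lmat t D).det :=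
      ge_det P _ 0 (fun _ _ => 0) (fun i l => (reg_iff_ge P _).1 (hD i (t l)))
        (fun σ => by simp)
    have h3 := (ge_ord P h).mul (h1.mul h2)
    refine h3.mono ?_
    linarith


theorem gtK_log (e M : ℕ) : ∃ D₁ : ℕ, ∀ D, D₁ ≤ D → ∀ (Ω : Type) [Field Ω]
    [IsAlgClosed Ω] [CharZero Ω] (K : Type) [Field K] [Algebra Ω K] (n w : ℕ)
    (y : Fin (n + 1) → K), 1 ≤ w → y ≠ 0 → coords Ω y = ⊤ → Algebra.trdeg Ω K = w →
    ∀ (Bd : Place Ω K → Prop) (κ : Type) [Fintype κ], Fintype.card κ ≤ M → 2 ≤ Fintype.card κ →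
    ∀ (u : κ → K) (S : Finset κ) (G lf : κ → MvPolynomial (Fin (n + 1)) Ω) (p : Fin (n + 1) → ℕ)
      (ψ : Fin (n + 1) → κ), Function.Injective p →
      (∀ t ∈ S, (G t).IsHomogeneous e ∧ (lf t).IsHomogeneous 1 ∧
        u t = val y (G t) * val y (lf t) ^ D) →
      (∀ t, t ∉ S → ∀ P : Place Ω K, ¬ Bd P → ∀ μ : ℤ, (∀ i, Ge P μ (y i)) →
        (∃ j, y j ≠ 0 ∧ P.ord (y j) = μ) → P.ord (u t) = e * μ + D * μ) →
      (∀ i, ψ i ∈ S ∧ lf (ψ i) = lin Ω n (p i)) →
      ∑ t, u t = 0 → (∀ B : Finset κ, B.Nonempty → B ≠ Finset.univ → ∑ t ∈ B, u t ≠ 0) →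
      LogGeneralType Ω K w Bd := by
  classical
  obtain ⟨N₁, hN₁⟩ : ∃ N₁, N₁ = M ^ 2 * (M * tn M) + 1 := ⟨_, rfl⟩
  obtain ⟨s, hs⟩ : ∃ s, s = N₁ + 1 := ⟨_, rfl⟩
  refine ⟨2 * (s * e * M + 1) * M + 2 * N₁ + 1, ?_⟩
  intro D hD Ω _ _ _ K _ _ n w y hw hy0 hgen htr Bd κ _ hM hκ2 u S G lf p ψ hp hS hbd hψ hsum hmin
  have hu0 : ∀ t, u t ≠ 0 := by
    intro t
    have := hmin {t} (Finset.singleton_nonempty t) (by
      intro h
      have := congrArg Finset.card h
      rw [Finset.card_singleton, Finset.card_univ] at this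
      omega)
    rwa [Finset.sum_singleton] at this
  obtain ⟨Λ, hΛ⟩ : ∃ Λ : κ → K, ∀ t, val y (lf t) = Λ t := ⟨_, fun t => rfl⟩
  obtain ⟨g, hg⟩ : ∃ g : κ → K, ∀ t, val y (G t) = g t := ⟨_, fun t => rfl⟩
  have hu : ∀ t ∈ S, u t = g t * Λ t ^ D := fun t ht => by
    rw [← hΛ, ← hg]
    exact (hS t ht).2.2
  have hg0 : ∀ t ∈ S, g t ≠ 0 := fun t ht => by
    have := hu0 t
    rw [hu t ht] at this
    exact left_ne_zero_of_mul this
  have hΛ0 : ∀ t ∈ S, Λ t ≠ 0 := by
    intro t ht h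
    have := hu0 t
    rw [hu t ht, h] at this
    apply right_ne_zero_of_mul this
    exact zero_pow (by omega)
  have hψ0 : ∀ i, Λ (ψ i) ≠ 0 := fun i => hΛ0 _ (hψ i).1
  have hlinψ : ∀ i, val y (lin Ω n (p i)) = Λ (ψ i) := fun i => by rw [← (hψ i).2, hΛ]
  obtain ⟨I, _, m, E, T, hI, hm, hT0, hTsum, hTlin, hTord, hcon⟩ := GK_circuits (Ω := Ω) u hu0
  obtain ⟨a, ha⟩ := GK_basis y hgen htr p hp (by
    rw [hlinψ]
    exact hψ0 0)
  simp only [hlinψ] at ha
  obtain ⟨t, ht⟩ : ∃ t : Fin w → K, (fun j => Λ (ψ (a j)) / Λ (ψ 0)) = t := ⟨_, rfl⟩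
  rw [ht] at ha
  have htj : ∀ j, t j = Λ (ψ (a j)) / Λ (ψ 0) := fun j => by rw [← ht]
  obtain ⟨g₀, hg₀, hreg⟩ := gk_log Ω K w t ha I m T hT0 hTsum hTlin
  obtain ⟨N, hN⟩ : ∃ N, N = wt2 m := ⟨_, rfl⟩
  rw [← hN] at hreg
  have hNN₁ : N ≤ N₁ := by
    rw [hN, hN₁]
    unfold wt2
    apply Nat.add_le_add_right
    calc ∑ i, (m i + 1) * tn (m i) ≤ ∑ _i : I, M * tn M := by
          refine Finset.sum_le_sum fun i _ => ?_
          have h3 : m i + 1 ≤ M := (hm i).trans hM
          exact Nat.mul_le_mul h3 (tn_mono (by omega))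
      _ = Fintype.card I * (M * tn M) := by
          rw [Finset.sum_const, Finset.card_univ, smul_eq_mul]
      _ ≤ M ^ 2 * (M * tn M) :=
          Nat.mul_le_mul_right _ (hI.trans (Nat.pow_le_pow_left hM 2))
  obtain ⟨A, hA⟩ : ∃ A, A = s * e * S.card + 1 := ⟨_, rfl⟩
  have hAA₁ : A ≤ s * e * M + 1 := by
    rw [hA]
    exact Nat.add_le_add_right (Nat.mul_le_mul_left _ ((Finset.card_le_univ S).trans hM)) 1
  let c : Fin (w + 1) → Fin (n + 1) := Fin.cases 0 a
  obtain ⟨h, hh⟩ : ∃ h : Fin (w + 1) → K, ∀ j,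
      (∏ t ∈ S, g t) ^ s * Λ (ψ (c j)) / Λ (ψ 0) ^ A = h j := ⟨_, fun j => rfl⟩
  have hprod : ∏ t ∈ S, g t ≠ 0 := Finset.prod_ne_zero_iff.2 fun t ht => hg0 t ht
  have hh0 : ∀ j, h j ≠ 0 := fun j => by
    rw [← hh]
    exact div_ne_zero (mul_ne_zero (pow_ne_zero _ hprod) (hψ0 _)) (pow_ne_zero _ (hψ0 _))
  -- the orders
  have hP : ∀ (P : Place Ω K) (j : Fin (w + 1)), ∃ (b : ∀ i, Fin (m i + 1)),
      (∀ i j, P.ord (T i (b i)) ≤ P.ord (T i j)) ∧
      0 ≤ ∑ i, ∑ j, (P.ord (T i j) - P.ord (T i (b i))) + P.ord (h j) ∧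
      (¬ Bd P → ((∀ j, P.ord (t j) = 0) ∧ (∀ i j l, P.ord (T i j) = P.ord (T i l)) ∧
          0 ≤ P.ord (h j)) ∨
          (N : ℤ) ≤ ∑ i, ∑ j, (P.ord (T i j) - P.ord (T i (b i))) + P.ord (h j)) := by
    intro P j
    -- the minimal order of the coordinates
    obtain ⟨j₀, hj₀, hmin₀⟩ : ∃ j₀, y j₀ ≠ 0 ∧ ∀ i, y i ≠ 0 → P.ord (y j₀) ≤ P.ord (y i) := by
      have hne : (Finset.univ.filter fun i => y i ≠ 0).Nonempty := by
        by_contra hcon
        rw [Finset.not_nonempty_iff_eq_empty, Finset.filter_eq_empty_iff] at hcon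
        apply hy0
        funext i
        have := hcon (Finset.mem_univ i)
        simpa using this
      obtain ⟨j₀, h3, h4⟩ := Finset.exists_min_image _ (fun i => P.ord (y i)) hne
      exact ⟨j₀, (Finset.mem_filter.1 h3).2,
        fun i hi => h4 i (Finset.mem_filter.2 ⟨Finset.mem_univ i, hi⟩)⟩
    obtain ⟨μ, hμd⟩ : ∃ μ, μ = P.ord (y j₀) := ⟨_, rfl⟩
    rw [← hμd] at hmin₀
    have hμ : ∀ i, Ge P μ (y i) := fun i => by
      by_cases h : y i = 0
      · exact Or.inl h
      · exact Or.inr (hmin₀ i h)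
    have hgμ : ∀ t ∈ S, 0 ≤ P.ord (g t) - e * μ := fun t ht => by
      have h3 := GK_ge P y hμ (hS t ht).1
      rw [hg] at h3
      exact sub_nonneg.2 (h3.resolve_left (hg0 t ht))
    have hΛμ : ∀ t ∈ S, 0 ≤ P.ord (Λ t) - μ := fun t ht => by
      have h3 := GK_ge P y hμ (hS t ht).2.1
      rw [hΛ] at h3
      have h4 := h3.resolve_left (hΛ0 t ht)
      rw [Nat.cast_one, one_mul] at h4
      exact sub_nonneg.2 h4
    obtain ⟨i₀, hi₀⟩ : ∃ i : Fin (n + 1), P.ord (Λ (ψ i)) - μ = 0 := by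
      by_contra hcon
      push Not at hcon
      obtain ⟨B, hB⟩ := GK_inv (Ω := Ω) p hp y
      have h3 : Ge P (μ + 1) (y j₀) := by
        rw [hB j₀]
        refine Ge.sum _ _ fun s _ => ?_
        rw [hlinψ]
        have h4 : Ge P (μ + 1) (Λ (ψ s)) := Or.inr (by
          have h5 := hΛμ (ψ s) (hψ s).1
          have h6 := hcon s
          omega)
        have h7 := (Ge.const (P := P) (B j₀ s)).mul h4
        rwa [zero_add] at h7
      rcases h3 with h | h
      · exact hj₀ h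
      · omega
    -- orders of the terms
    have ho : ∀ t ∈ S, P.ord (u t) = (P.ord (g t) - e * μ) + D * (P.ord (Λ t) - μ) +
        (e * μ + D * μ) := by
      intro t ht
      rw [hu t ht, P.ord_mul (hg0 t ht) (pow_ne_zero _ (hΛ0 t ht)), P.ord_pow]
      ring
    have hb : ∀ i, ∃ b : Fin (m i + 1), ∀ j, P.ord (u (E i b)) ≤ P.ord (u (E i j)) := fun i =>
      Finite.exists_min _
    choose b hb using hb
    have hJ0 : 0 ≤ ∑ i, ∑ j, (P.ord (u (E i j)) - P.ord (u (E i (b i)))) :=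
      Finset.sum_nonneg fun i _ => Finset.sum_nonneg fun j _ => sub_nonneg.2 (hb i j)
    have hJ : ∀ x z, GK_con (Ω := Ω) u x z → |P.ord (u x) - P.ord (u z)| ≤
        ∑ i, ∑ j, (P.ord (u (E i j)) - P.ord (u (E i (b i)))) := by
      intro x z hxz
      obtain ⟨i, j, l, rfl, rfl⟩ := hcon x z hxz
      have h3 : ∀ j, P.ord (u (E i j)) - P.ord (u (E i (b i))) ≤
          ∑ i, ∑ j, (P.ord (u (E i j)) - P.ord (u (E i (b i)))) := by
        intro j
        refine le_trans ?_ (Finset.single_le_sum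
            (f := fun i => ∑ j, (P.ord (u (E i j)) - P.ord (u (E i (b i)))))
            (fun i _ => Finset.sum_nonneg fun j _ => sub_nonneg.2 (hb i j)) (Finset.mem_univ i))
        exact Finset.single_le_sum (f := fun j => P.ord (u (E i j)) - P.ord (u (E i (b i))))
            (fun j _ => sub_nonneg.2 (hb i j)) (Finset.mem_univ j)
      have h4 := h3 j
      have h5 := h3 l
      have h6 := hb i j
      have h7 := hb i l
      rw [abs_le]
      constructor <;> linarith
    have hdiff := GK_diff u hsum hmin (fun t => P.ord (u t)) _ hJ hJ0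
    have hord : P.ord (h j) = s * ∑ t ∈ S, (P.ord (g t) - e * μ) - A * (P.ord (Λ (ψ 0)) - μ) +
        (P.ord (Λ (ψ (c j))) - μ) := by
      rw [← hh, P.ord_div (mul_ne_zero (pow_ne_zero _ hprod) (hψ0 _)) (pow_ne_zero _ (hψ0 _)),
        P.ord_mul (pow_ne_zero _ hprod) (hψ0 _), P.ord_pow, P.ord_pow,
        ord_prod' P _ _ (fun t ht => hg0 t ht), Finset.sum_sub_distrib, Finset.sum_const,
        nsmul_eq_mul, hA]
      push_cast
      ring
    have hgS : 0 ≤ ∑ t ∈ S, (P.ord (g t) - e * μ) := Finset.sum_nonneg hgμ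
    have hcj := hΛμ (ψ (c j)) (hψ _).1
    have hc0 := hΛμ (ψ 0) (hψ _).1
    refine ⟨b, fun i j => by rw [hTord, hTord]; exact hb i j, ?_, fun hBd => ?_⟩
    · simp only [hTord]
      have h5 := gt_numl E b (M := M) (N₁ := N₁) (D := D) (c₀ := ψ 0) (i₀ := ψ i₀)
        (o := fun t => P.ord (u t)) (g := ∑ t ∈ S, (P.ord (g t) - e * μ))
        (lc := P.ord (Λ (ψ 0)) - μ) (g₁ := P.ord (g (ψ 0)) - e * μ)
        (g₂ := P.ord (g (ψ i₀)) - e * μ) (c := e * μ + D * μ) hM hAA₁ hD
        (ho _ (hψ _).1) (by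
          change P.ord (u (ψ i₀)) = _
          rw [ho _ (hψ _).1, hi₀]
          ring) hc0 (hgμ _ (hψ _).1)
        (Finset.single_le_sum (f := fun t => P.ord (g t) - e * μ) hgμ (hψ i₀).1) hgS hb hdiff
      rw [hord]
      have hs1 : (1 : ℤ) ≤ s := by rw [hs]; push_cast; linarith [Int.natCast_nonneg N₁]
      have hA0 : (0 : ℤ) ≤ A := Int.natCast_nonneg _
      have h6 : ∑ t ∈ S, (P.ord (g t) - e * μ) ≤ s * ∑ t ∈ S, (P.ord (g t) - e * μ) := by
        nlinarith
      have h7 : 0 ≤ (A : ℤ) * (P.ord (Λ (ψ 0)) - μ) := mul_nonneg hA0 hc0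
      nlinarith
    · obtain ⟨gg, hgg⟩ : ∃ gg : κ → ℤ, gg = fun t => if t ∈ S then P.ord (g t) - e * μ else 0 :=
        ⟨_, rfl⟩
      obtain ⟨ll, hll⟩ : ∃ ll : κ → ℤ, ll = fun t => if t ∈ S then P.ord (Λ t) - μ else 0 :=
        ⟨_, rfl⟩
      have hsumS : ∑ t, gg t = ∑ t ∈ S, (P.ord (g t) - e * μ) := by
        rw [hgg]
        simp only
        rw [Finset.sum_ite_mem, Finset.univ_inter]
      have hll0 : ll (ψ 0) = P.ord (Λ (ψ 0)) - μ := by rw [hll]; exact if_pos (hψ 0).1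
      have key := GT_num E b (M := M) (D := D) (A := A) (A₁ := s * e * M + 1) (s := s)
        (N := N) (N₁ := N₁) (c₀ := ψ 0) (i₀ := ψ i₀) (o := fun t => P.ord (u t)) (l := ll)
        (gg := gg) (c := e * μ + D * μ) (h := P.ord (h j)) hNN₁ hM hs hAA₁ hD (by
          intro t
          change P.ord (u t) = _
          by_cases hts : t ∈ S
          · rw [ho t hts, hgg, hll]
            simp only [if_pos hts]
          · rw [hbd t hts P hBd μ hμ ⟨j₀, hj₀, hμd.symm⟩, hgg, hll]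
            simp only [if_neg hts]
            ring) (by
          intro t
          rw [hll]
          simp only
          split_ifs with hts
          · exact hΛμ t hts
          · exact le_rfl) (by
          intro t
          rw [hgg]
          simp only
          split_ifs with hts
          · exact hgμ t hts
          · exact le_rfl) hb hdiff (by
          rw [hll]
          simp only
          rw [if_pos (hψ i₀).1]
          exact hi₀) (by
          rw [hsumS, hord, hll0]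
          linarith)
      rcases key with ⟨k1, k2, k3⟩ | k
      · left
        refine ⟨fun l => ?_, fun i j l => ?_, k3⟩
        · rw [htj, P.ord_div (hψ0 _) (hψ0 _)]
          have h3 := k1 (ψ (a l))
          have h4 := k1 (ψ 0)
          rw [hll] at h3 h4
          simp only [if_pos (hψ _).1] at h3 h4
          linarith
        · rw [hTord, hTord]
          exact k2 i j l
      · right
        simp only [hTord]
        exact k
  refine ⟨htr, N, by rw [hN]; unfold wt2; omega, fun j => form t N (g₀ * h j),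
    fun j => form_pluri t N _, fun P _ j => ?_, fun P _ hBd j => ?_, ?_⟩
  · obtain ⟨b, hb1, hb2, -⟩ := hP P j
    exact (hreg (h j) P (hh0 j)).2 ⟨b, hb1, hb2⟩
  · obtain ⟨b, hb1, -, hb3⟩ := hP P j
    apply (hreg (h j) P (hh0 j)).1
    rcases hb3 hBd with h1 | h1
    · exact Or.inl h1
    · exact Or.inr ⟨b, hb1, h1⟩
  · obtain ⟨Dd, hDd⟩ := exists_dual ha
    have hf : ∀ j, form t N (g₀ * h j) Dd = g₀ * h j := fun j => by
      unfold form
      rw [hDd, Matrix.det_one, one_pow, mul_one]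
    refine ⟨Dd, ?_, ?_⟩
    · change form t N (g₀ * h 0) Dd ≠ 0
      rw [hf]
      exact mul_ne_zero hg₀ (hh0 0)
    · have h3 : (fun i : Fin w => form t N (g₀ * h i.succ) Dd / form t N (g₀ * h 0) Dd) = t := by
        funext i
        rw [hf, hf, htj, ← hh, ← hh]
        have h4 := hψ0 0
        change g₀ * ((∏ t ∈ S, g t) ^ s * Λ (ψ (a i)) / Λ (ψ 0) ^ A) /
          (g₀ * ((∏ t ∈ S, g t) ^ s * Λ (ψ 0) / Λ (ψ 0) ^ A)) = _
        have h5 := pow_ne_zero s hprod
        have h6 := pow_ne_zero A h4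
        field_simp
      change AlgebraicIndependent Ω
        (fun i : Fin w => form t N (g₀ * h i.succ) Dd / form t N (g₀ * h 0) Dd)
      rw [h3]
      exact ha.1


end Pool.Agent.W2helper39.FV
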