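import Pool.Agent.W2helper39.FV.Trans

/-!
Transfer of the special sets between an affine variety and the complement of a hypersurface.
-/

set_option autoImplicit false
set_option linter.unusedSectionVars false

namespace Pool.Agent.W2helper39.FV

open MvPolynomial FF
open Pool.Agent.N254.SQ
open Pool.Agent.W602.GT (LogGeneralType coords)
open Pool.Agent.W603.LV (canDeg hgt tri Ge)
open Pool.Agent.W603.PV (pht pord pord_le exists_pord ge_pord)

/-- a monomial with only one variable -/
theorem ver_single {n N d : ℕ} {m : Fin (N + 1) → Fin (n + 1) → ℕ} (hm : Mon n N d m)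
    {E : Type} [Field E] (x : Fin (n + 1) → E) (j : Fin (n + 1)) : ∃ b, ver m x b = x j ^ d := by
  obtain ⟨b, hb⟩ := hm.surj (Pi.single j d) (by simp)
  refine ⟨b, ?_⟩
  unfold ver
  rw [hb, Finset.prod_eq_single j]
  · rw [Pi.single_eq_same]
  · intro i _ hi
    rw [Pi.single_eq_of_ne hi, pow_zero]
  · intro h
    exact absurd (Finset.mem_univ _) h

theorem ver_ne {n N d : ℕ} {m : Fin (N + 1) → Fin (n + 1) → ℕ} (hm : Mon n N d m)
    {E : Type} [Field E] {x : Fin (n + 1) → E} (hx : x ≠ 0) : ver m x ≠ 0 := by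
  obtain ⟨j, hj⟩ := Function.ne_iff.1 hx
  obtain ⟨b, hb⟩ := ver_single hm x j
  intro h
  rw [h] at hb
  exact pow_ne_zero d hj hb.symm

theorem pord_verK {k E : Type} [Field k] [Field E] [Algebra k E] {n N d : ℕ}
    {m : Fin (N + 1) → Fin (n + 1) → ℕ} (hm : Mon n N d m)
    {x : Fin (n + 1) → E} {c : E} (hx : x ≠ 0) (hc : c ≠ 0) (P : Place k E) :
    pord P (c • ver m x) = P.ord c + d * pord P x := by
  classical
  obtain ⟨j, hj, hj2⟩ := exists_pord P (Function.ne_iff.1 hx)
  obtain ⟨a, h1⟩ := ver_single hm x j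
  have h2 : (c • ver m x) a = c * x j ^ d := by
    rw [Pi.smul_apply, smul_eq_mul, h1]
  have h3 : (c • ver m x) a ≠ 0 := by
    rw [h2]
    exact mul_ne_zero hc (pow_ne_zero _ hj)
  apply le_antisymm
  · refine (pord_le P h3).trans (le_of_eq ?_)
    rw [h2, P.ord_mul hc (pow_ne_zero _ hj), P.ord_pow, hj2]
  · obtain ⟨b, hb, hb2⟩ := exists_pord P ⟨a, h3⟩
    rw [← hb2]
    have h4 : (c • ver m x) b = c * ∏ i, x i ^ m b i := rfl
    rw [h4] at hb ⊢
    have h5 : ∏ i, x i ^ m b i ≠ 0 := right_ne_zero_of_mul hb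
    rw [P.ord_mul hc h5]
    have h6 := Ge.prod (P := P) Finset.univ (fun i => x i ^ m b i) (fun i => m b i * pord P x)
      (fun i _ => (ge_pord P x i).pow (m b i))
    have h7 := h6.resolve_left h5
    have h8 : ∑ i, ((m b i : ℤ) * pord P x) = d * pord P x := by
      rw [← Finset.sum_mul]
      congr 1
      exact_mod_cast hm.deg b
    rw [h8] at h7
    linarith

/-- the ratios of the Veronese coordinates generate the same field -/
theorem coords_verK {Ω : Type} [Field Ω] {n N d : ℕ} {m : Fin (N + 1) → Fin (n + 1) → ℕ}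
    (hm : Mon n N d m)
    (hd : 1 ≤ d) {L : Type} [Field L] [Algebra Ω L] (x : Fin (n + 1) → L) (hx : x ≠ 0) (c : L)
    (hc : c ≠ 0) : coords Ω (c • ver m x) = coords Ω x := by
  obtain ⟨a, ha⟩ : ∃ a, x a ≠ 0 := by
    by_contra hcon
    push Not at hcon
    exact hx (funext hcon)
  apply le_antisymm
  · apply IntermediateField.adjoin_le_iff.2
    rintro _ ⟨i, j, hj, rfl⟩
    -- monomials divided by the power of one coordinate
    have key : ∀ b, ver m x b / x a ^ d ∈ coords Ω x := by
      intro b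
      have h1 : ver m x b / x a ^ d = ∏ s, (x s / x a) ^ m b s := by
        simp only [div_pow, Finset.prod_div_distrib]
        rw [Finset.prod_pow_eq_pow_sum, hm.deg]
        rfl
      rw [h1]
      have h2 : ∀ s, x s / x a ∈ coords Ω x := fun s =>
        IntermediateField.subset_adjoin Ω {z | ∃ i j, x j ≠ 0 ∧ z = x i / x j} ⟨s, a, ha, rfl⟩
      exact prod_mem fun s _ => pow_mem (h2 s) _
    have hxa : x a ^ d ≠ 0 := pow_ne_zero _ ha
    have h2 : (c • ver m x) i / (c • ver m x) j = (ver m x i / x a ^ d) / (ver m x j / x a ^ d) := by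
      rw [Pi.smul_apply, Pi.smul_apply, smul_eq_mul, smul_eq_mul, mul_div_mul_left _ _ hc,
        div_div_div_cancel_right₀ hxa]
    rw [h2]
    exact div_mem (key i) (key j)
  · apply IntermediateField.adjoin_le_iff.2
    rintro _ ⟨i, j, hj, rfl⟩
    obtain ⟨b, hb⟩ := ver_near (Ω := L) hm hd j i
    obtain ⟨b', hb'⟩ := ver_near (Ω := L) hm hd j j
    have h1 : x i / x j = (c • ver m x) b / (c • ver m x) b' := by
      rw [Pi.smul_apply, Pi.smul_apply, smul_eq_mul, smul_eq_mul, mul_div_mul_left _ _ hc, hb, hb',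
        mul_div_mul_left _ _ (pow_ne_zero _ hj)]
    rw [h1]
    apply IntermediateField.subset_adjoin
    refine ⟨b, b', ?_, rfl⟩
    rw [Pi.smul_apply, smul_eq_mul, hb']
    exact mul_ne_zero hc (mul_ne_zero (pow_ne_zero _ hj) hj)

/-- the boundaries of a subvariety and of its image -/
theorem bdry_iff {F K : Type} [Field F] [Field K] [Algebra F K] {n N d e e' κ : ℕ}
    {m : Fin (N + 1) → Fin (n + 1) → ℕ} (hm : Mon n N d m)
    {H : MvPolynomial (Fin (n + 1)) F} {A : MvPolynomial (Fin (N + 1)) F} (hA : A.IsHomogeneous e')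
    {a : F} (ha : a ≠ 0) (hκ : 1 ≤ κ) (hd : e * κ = d * e') {x : Fin (n + 1) → K} {c : K}
    (hx : x ≠ 0) (hc : c ≠ 0) (hH : aeval x H ≠ 0)
    (hAH : aeval (ver m x) A = algebraMap F K a * aeval x H ^ κ) (P : Place F K) :
    bdry e' A (c • ver m x) P ↔ bdry e H x P := by
  have h1 : aeval (c • ver m x) A = c ^ e' * (algebraMap F K a * aeval x H ^ κ) := by
    rw [← hAH]
    exact eval₂_scale (algebraMap F K) hA c (ver m x)
  have haL : algebraMap F K a ≠ 0 := (map_ne_zero _).2 ha
  unfold bdry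
  rw [h1, P.ord_mul (pow_ne_zero _ hc)
    (mul_ne_zero haL (pow_ne_zero _ hH)), P.ord_pow, P.ord_mul haL (pow_ne_zero _ hH), P.ord_pow,
    P.ord_const ha, pord_verK hm hx hc P]
  have h2 : (e : ℤ) * κ = d * e' := by exact_mod_cast hd
  have h3 : (0 : ℤ) < κ := by exact_mod_cast hκ
  have h4 : (e' : ℤ) * (P.ord c + d * pord P x) = e' * P.ord c + κ * (e * pord P x) := by
    linear_combination (- pord P x) * h2
  rw [h4, zero_add]
  constructor
  · intro h
    have h5 : (κ : ℤ) * (e * pord P x) < κ * P.ord (aeval x H) := by linarith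
    exact lt_of_mul_lt_mul_left h5 h3.le
  · intro h
    have := mul_lt_mul_of_pos_left h h3
    linarith

/-- the form `G` over `Ω` vanishes on all closed subvarieties over `Ω` of positive dimension of
`V(S) ∖ {H = 0}` which are not of log general type -/
def OnSpec (Ω : Type) {F : Type} [Field Ω] [Field F] [Algebra F Ω] {n : ℕ}
    (S : Set (MvPolynomial (Fin (n + 1)) F)) (e : ℕ) (H : MvPolynomial (Fin (n + 1)) F)
    (G : MvPolynomial (Fin (n + 1)) Ω) : Prop :=
  ∀ (L : Type) [Field L] [Algebra Ω L] (w : ℕ) (y : Fin (n + 1) → L), 1 ≤ w → y ≠ 0 →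
    coords Ω y = ⊤ → Algebra.trdeg Ω L = w → (∀ p ∈ S, aeval y (map (algebraMap F Ω) p) = 0) →
    aeval y (map (algebraMap F Ω) H) ≠ 0 →
    ¬ LogGeneralType Ω L w (bdry e (map (algebraMap F Ω) H) y) → aeval y G = 0

/-- Transfer of the special sets. -/
theorem trans_spec {F : Type} [Field F] {n N d e e' κ : ℕ} {m : Fin (N + 1) → Fin (n + 1) → ℕ}
    (hm : Mon n N d m)
    (hd1 : 1 ≤ d) {S : Set (MvPolynomial (Fin (n + 1)) F)} {H : MvPolynomial (Fin (n + 1)) F}
    {A : MvPolynomial (Fin (N + 1)) F} (hA : A.IsHomogeneous e') {a : F} (ha : a ≠ 0) (hκ : 1 ≤ κ)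
    (hd : e * κ = d * e') (hAH : ∀ (Ω : Type) [Field Ω] [Algebra F Ω]
            (x : Fin (n + 1) → Ω), (∀ p ∈ S, aeval x p = 0) →
            aeval (ver m x) A = algebraMap F Ω a * aeval x H ^ κ) (hsub : SubsLog m S e' A)
    (Ω : Type) [Field Ω] [Algebra F Ω] [IsAlgClosed Ω]
    {G : MvPolynomial (Fin (N + 1)) Ω} {g : ℕ} (hG : G.IsHomogeneous g) :
    OnSpec Ω ∅ e' A G ↔ OnSpec Ω S e H (pullR m G) := by
  classical
  have hAH' : ∀ (L : Type) [Field L] [Algebra Ω L] (x : Fin (n + 1) → L),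
      (∀ p ∈ S, aeval x (map (algebraMap F Ω) p) = 0) →
      aeval (ver m x) (map (algebraMap F Ω) A) =
        algebraMap Ω L (algebraMap F Ω a) * aeval x (map (algebraMap F Ω) H) ^ κ := by
    intro L _ _ x hx
    let σ : F →+* L := (algebraMap Ω L).comp (algebraMap F Ω)
    let _ : Algebra F L := σ.toAlgebra
    have h1 := hAH L x (fun p hp => by
      have h2 := hx p hp
      change eval₂ (algebraMap Ω L) x (map (algebraMap F Ω) p) = 0 at h2
      rw [eval₂_map] at h2
      exact h2)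
    change eval₂ σ (ver m x) A = σ a * eval₂ σ x H ^ κ at h1
    change eval₂ (algebraMap Ω L) (ver m x) (map (algebraMap F Ω) A) =
      algebraMap Ω L (algebraMap F Ω a) *
        eval₂ (algebraMap Ω L) x (map (algebraMap F Ω) H) ^ κ
    rw [eval₂_map, eval₂_map]
    exact h1
  have haΩ : algebraMap F Ω a ≠ 0 := (map_ne_zero _).2 ha
  have hAΩ := hA.map (algebraMap F Ω)
  have hbd : ∀ (L : Type) [Field L] [Algebra Ω L] (x : Fin (n + 1) → L) (c : L), x ≠ 0 → c ≠ 0 →
      (∀ p ∈ S, aeval x (map (algebraMap F Ω) p) = 0) →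
      aeval x (map (algebraMap F Ω) H) ≠ 0 →
      bdry e' (map (algebraMap F Ω) A) (c • ver m x) = bdry e (map (algebraMap F Ω) H) x := by
    intro L _ _ x c hx hc hxS hxH
    funext P
    exact propext (bdry_iff hm hAΩ haΩ hκ hd hx hc hxH (hAH' L x hxS) P)
  have hpull : ∀ (L : Type) [Field L] [Algebra Ω L] (x : Fin (n + 1) → L),
      aeval x (pullR m G) = aeval (ver m x) G := fun L _ _ x => zb_pull (algebraMap Ω L) m G x
  constructor
  · intro h L _ _ w x hw hx hgen htr hxS hxH hlog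
    rw [hpull]
    refine h L w (ver m x) hw (ver_ne hm hx) ?_ htr (fun p hp => absurd hp (Set.notMem_empty _))
      ?_ ?_
    · have := coords_verK (Ω := Ω) hm hd1 x hx 1 one_ne_zero
      rw [one_smul] at this
      rw [this, hgen]
    · rw [hAH' L x hxS]
      exact mul_ne_zero ((map_ne_zero _).2 haΩ) (pow_ne_zero _ hxH)
    · have := hbd L x 1 hx one_ne_zero hxS hxH
      rw [one_smul] at this
      rw [this]
      exact hlog
  · intro h L _ _ w y hw hy hgen htr _ hyA hlog
    rcases hsub Ω L w y hw hy hgen htr hyA with h1 | ⟨x, c, hx, hc, hxS, rfl⟩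
    · exact absurd h1 hlog
    · have hsc : aeval (c • ver m x) (map (algebraMap F Ω) A) =
          c ^ e' * aeval (ver m x) (map (algebraMap F Ω) A) :=
        eval₂_scale (algebraMap Ω L) hAΩ c (ver m x)
      rw [hsc, hAH' L x hxS] at hyA
      have hxH : aeval x (map (algebraMap F Ω) H) ≠ 0 := by
        intro h0
        rw [h0, zero_pow (by omega), mul_zero, mul_zero] at hyA
        exact hyA rfl
      rw [hbd L x c hx hc hxS hxH] at hlog
      have h2 := h L w x hw hx (by rw [← hgen, coords_verK (Ω := Ω) hm hd1 x hx c hc]) htr hxS hxH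
        hlog
      rw [hpull] at h2
      have hsc' : aeval (c • ver m x) G = c ^ g * aeval (ver m x) G :=
        eval₂_scale (algebraMap Ω L) hG c (ver m x)
      rw [hsc', h2, mul_zero]

end Pool.Agent.W2helper39.FV
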