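import Pool.Agent.W2helper39.FV.PCons
import Pool.Agent.W2helper39.FV.Trans2

/-!
The smooth hypersurface over a function field through a given projective variety, such that the height
inequality holds outside of this variety, and the transfer of the exceptional sets.
-/

set_option autoImplicit false
set_option linter.unusedSectionVars false

namespace Pool.Agent.W2helper39.FV

open MvPolynomial FF
open Pool.Agent.N254.SQ
open Pool.Agent.W602.GT (LogGeneralType coords)
open Pool.Agent.W603.LV (canDeg hgt tri Ge)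
open Pool.Agent.W603.PV (pht pord isFF_of_finite)

/-- the height inequality for the points of `A = 0` over the finite extensions of `F` outside of the
image of `V(S)` under the Veronese map -/
def PtsP (k : Type) {F : Type} [Field k] [Field F] [Algebra k F] {n N : ℕ}
    (m : Fin (N + 1) → Fin (n + 1) → ℕ) (S : Set (MvPolynomial (Fin (n + 1)) F)) (D C₁ : ℕ)
    (A : MvPolynomial (Fin (N + 1)) F) : Prop :=
  ∃ B : ℕ, ∀ (L : Type) [Field L] [Algebra k L] [Algebra F L] [IsScalarTower k F L]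
    [FiniteDimensional F L] (y : Fin (N + 1) → L), y ≠ 0 → aeval y A = 0 →
    D * pht k y ≤ C₁ * canDeg k L + B * Module.finrank F L ∨
      ∃ (x : Fin (n + 1) → L) (c : L), x ≠ 0 ∧ c ≠ 0 ∧ (∀ p ∈ S, aeval x p = 0) ∧ y = c • ver m x

/-- the closed subvarieties of `A = 0` over algebraically closed extensions of `F` are of general type
or in the image of `V(S)` under the Veronese map -/
def SubsP {F : Type} [Field F] {n N : ℕ}
    (m : Fin (N + 1) → Fin (n + 1) → ℕ) (S : Set (MvPolynomial (Fin (n + 1)) F))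
    (A : MvPolynomial (Fin (N + 1)) F) : Prop :=
  ∀ (Ω : Type) [Field Ω] [Algebra F Ω] [IsAlgClosed Ω] (L : Type) [Field L] [Algebra Ω L]
    (w : ℕ) (y : Fin (N + 1) → L), 1 ≤ w → y ≠ 0 → coords Ω y = ⊤ → Algebra.trdeg Ω L = w →
    aeval y (map (algebraMap F Ω) A) = 0 →
    LogGeneralType Ω L w (fun _ => False) ∨
      ∃ (x : Fin (n + 1) → L) (c : L), x ≠ 0 ∧ c ≠ 0 ∧
        (∀ p ∈ S, aeval x (map (algebraMap F Ω) p) = 0) ∧ y = c • ver m x

theorem consP (N : ℕ) (hN1 : 1 ≤ N) : ∃ D₁ C₁ : ℕ, ∀ (n d : ℕ), 1 ≤ n → 3 ≤ d →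
    ∀ (m : Fin (N + 1) → Fin (n + 1) → ℕ), Mon n N d m → 2 * n < N →
      ∀ D, D₁ ≤ D → ∀ (F : Type) [Field F] [CharZero F] (S : Set (MvPolynomial (Fin (n + 1)) F)),
        (∀ p ∈ S, ∃ e ≤ d, p.IsHomogeneous e) →
        ∃ Q : Fin (N * (2 * N + 1)) → MvPolynomial (Fin (N + 1)) F,
          (∀ t, (Q t).IsHomogeneous 2) ∧ SmoothOver (powerFormOver D Q) ∧
          (∀ (Ω : Type) [Field Ω] [Algebra F Ω] (x : Fin (n + 1) → Ω), (∀ p ∈ S, aeval x p = 0) →
            aeval (ver m x) (powerFormOver D Q) = 0) ∧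
          (∀ (k : Type) [Field k] [IsAlgClosed k] [CharZero k] [Algebra k F] [IsFF k F],
            PtsP k m S D C₁ (powerFormOver D Q)) ∧ SubsP m S (powerFormOver D Q) := by
  classical
  obtain ⟨D₁, C₁, hD₁⟩ := consP_main N hN1
  refine ⟨D₁, C₁, fun n d hn hd m hm hN D hD F _ _ S hS => ?_⟩
  have hd1 : 1 ≤ d := by omega
  -- finitely many equations
  obtain ⟨T, hT, hTS⟩ := reduce S
  have hT2 : ∀ p : T, ∃ e ≤ d, (p : MvPolynomial (Fin (n + 1)) F).IsHomogeneous e :=
    fun p => hS _ (hT p.2)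
  choose g hg hF using hT2
  have hS2 : ∀ (Ω : Type) [Field Ω] [Algebra F Ω] (x : Fin (n + 1) → Ω),
      (∀ p : T, aeval x (p : MvPolynomial (Fin (n + 1)) F) = 0) → ∀ p ∈ S, aeval x p = 0 := by
    intro Ω _ _ x hx p hpS
    have h1 := hTS Ω (algebraMap F Ω) x (fun p hp => by
      rw [eval_map]
      exact hx ⟨p, hp⟩) p hpS
    rw [eval_map] at h1
    exact h1
  obtain ⟨ι, _, q, hq2, hqv, hqr⟩ := t_ver F n N d m hm hd1 T
    (fun p => (p : MvPolynomial (Fin (n + 1)) F)) g hF hg
  obtain ⟨c, hsm, hpts, hspec⟩ := hD₁ D hD F ι q hq2 n (by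
    intro Ω _ _ x hx hxq
    have h1 := (hqr Ω x hx hxq).1
    omega) (by
    intro Ω _ _ y a hya hyq
    have hy0 : y ≠ 0 := by
      intro h
      rw [h] at hya
      exact zero_ne_one hya
    obtain ⟨-, x, a', b, hxa, hyb, hyc, -⟩ := hqr Ω y hy0 hyq
    refine td_scale t_td x a' hxa (ver m x) y (fun b => ?_) a (fun c => ?_)
    · refine ⟨∏ j, X j ^ m b j, ?_⟩
      rw [map_prod]
      unfold ver
      apply Finset.prod_congr rfl
      intro j _
      rw [map_pow, aeval_X]
    · have h1 := hyc a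
      rw [hya] at h1
      have h2 : ver m x a ≠ 0 := by
        intro h3
        rw [h3, mul_zero] at h1
        exact one_ne_zero h1
      rw [hyc c]
      rw [eq_div_iff h2]
      linear_combination (-ver m x c) * h1)
  obtain ⟨Q, hQ⟩ : ∃ Q : Fin (N * (2 * N + 1)) → MvPolynomial (Fin (N + 1)) F,
      Q = fun t => ∑ i, C (c t i) * q i := ⟨_, rfl⟩
  rw [← hQ] at hsm hpts hspec
  have hQ2 : ∀ t, (Q t).IsHomogeneous 2 := by
    intro t
    rw [hQ]
    exact fam_hom hq2 _
  refine ⟨Q, hQ2, hsm, ?_, ?_, ?_⟩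
  · intro Ω _ _ x hx
    have hv := hqv Ω x (fun p => hx _ (hT p.2))
    rw [powerFormOver, map_sum]
    refine Finset.sum_eq_zero fun t _ => ?_
    have h1 : aeval (ver m x) (Q t) = 0 := by
      rw [hQ, map_sum]
      refine Finset.sum_eq_zero fun i _ => ?_
      rw [map_mul, hv i, mul_zero]
    rw [map_mul, h1, zero_mul]
  · intro k _ _ _ _ _
    obtain ⟨B, hB⟩ := hpts k
    refine ⟨B, fun L _ _ _ _ _ y hy hA => ?_⟩
    rcases hB L y hy hA with h | h
    · exact Or.inl h
    · right
      obtain ⟨-, x, a, b, hxa, hyb, hyc, hFx⟩ := hqr L y hy h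
      refine ⟨x, y b, ?_, hyb, hS2 L x hFx, funext fun c => hyc c⟩
      intro h
      rw [h] at hxa
      exact zero_ne_one hxa
  · intro Ω _ _ _ L _ _ w y hw hy hgen htr hA0
    rcases hspec Ω L w y hw hy hgen htr hA0 with h | h
    · exact Or.inl h
    · right
      let σ : F →+* L := (algebraMap Ω L).comp (algebraMap F Ω)
      let _ : Algebra F L := σ.toAlgebra
      obtain ⟨-, x, a, b, hxa, hyb, hyc, hFx⟩ := hqr L y hy (fun i => by
        have h1 := h i
        change eval₂ (algebraMap Ω L) y (map (algebraMap F Ω) (q i)) = 0 at h1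
        rw [eval₂_map] at h1
        exact h1)
      refine ⟨x, y b, ?_, hyb, fun p hp => ?_, funext fun c => hyc c⟩
      · intro h
        rw [h] at hxa
        exact zero_ne_one hxa
      · have h1 := hS2 L x hFx p hp
        change eval₂ (algebraMap Ω L) x (map (algebraMap F Ω) p) = 0
        rw [eval₂_map]
        exact h1

/-! ### boundaries given by several forms -/

/-- the place `P` is over the closed subset `T = 0` of the variety with the point `x` -/
def hits {F K E : Type} [Field F] [Field K] [Field E] [Algebra F E] [Algebra K E] {n r : ℕ}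
    (e : Fin r → ℕ)
    (T : Fin r → MvPolynomial (Fin (n + 1)) F) (x : Fin (n + 1) → E) (P : Place K E) : Prop :=
  ∀ j, aeval x (T j) ≠ 0 → e j * pord P x < P.ord (aeval x (T j))

/-- The height inequality for the points of `V(S) ∖ V(T)` over the finite extensions of `F` outside
of `G = 0`, `T j` of degree `e j`. -/
def OffT (k : Type) {F : Type} [Field k] [Field F] [Algebra k F] {n r : ℕ}
    (S : Set (MvPolynomial (Fin (n + 1)) F)) (e : Fin r → ℕ)
    (T : Fin r → MvPolynomial (Fin (n + 1)) F) (G : MvPolynomial (Fin (n + 1)) F) : Prop :=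
  ∃ c B : ℕ, ∀ (L : Type) [Field L] [Algebra k L] [Algebra F L] [IsScalarTower k F L]
    [FiniteDimensional F L] (x : Fin (n + 1) → L), x ≠ 0 → (∀ p ∈ S, aeval x p = 0) →
    (∃ j, aeval x (T j) ≠ 0) → aeval x G ≠ 0 →
      pht k x ≤ c * (canDeg k L + {P : Place k L | hits e T x P}.ncard) +
        B * Module.finrank F L

/-- the boundaries of a point and of its image -/
theorem hits_iff {F K E : Type} [Field F] [Field K] [Field E] [Algebra F E] [Algebra K E]
    {n N d r : ℕ}
    {m : Fin (N + 1) → Fin (n + 1) → ℕ} (hm : Mon n N d m) {e : Fin r → ℕ}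
    {T : Fin r → MvPolynomial (Fin (N + 1)) F} (hT : ∀ j, (T j).IsHomogeneous (e j))
    {x : Fin (n + 1) → E} {c : E} (hx : x ≠ 0) (hc : c ≠ 0) (P : Place K E) :
    hits e T (c • ver m x) P ↔ hits (fun j => d * e j) (fun j => pullR m (T j)) x P := by
  unfold hits
  refine forall_congr' fun j => ?_
  have h1 : aeval (c • ver m x) (T j) = c ^ e j * aeval x (pullR m (T j)) := by
    have h2 : aeval x (pullR m (T j)) = aeval (ver m x) (T j) := zb_pull (algebraMap F E) m (T j) x
    rw [h2]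
    exact eval₂_scale (algebraMap F E) (hT j) c (ver m x)
  rw [h1, mul_ne_zero_iff, pord_verK hm hx hc P]
  have hce : c ^ e j ≠ 0 := pow_ne_zero _ hc
  constructor
  · intro h h2
    have h3 := h ⟨hce, h2⟩
    rw [P.ord_mul hce h2, P.ord_pow] at h3
    push_cast
    linarith
  · rintro h ⟨-, h2⟩
    have h3 := h h2
    rw [P.ord_mul hce h2, P.ord_pow]
    push_cast at h3
    linarith

/-- powers of the forms of the boundary -/
theorem hits_pow {F K E : Type} [Field F] [Field K] [Field E] [Algebra F E] [Algebra K E]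
    {n d r : ℕ} (hd : 1 ≤ d) {e : Fin r → ℕ} {T : Fin r → MvPolynomial (Fin (n + 1)) F}
    {x : Fin (n + 1) → E} (P : Place K E) :
    hits (fun j => d * e j) (fun j => T j ^ d) x P ↔ hits e T x P := by
  unfold hits
  refine forall_congr' fun j => ?_
  have hd0 : (0 : ℤ) < d := by exact_mod_cast hd
  rw [map_pow]
  constructor
  · intro h h2
    have h3 := h (pow_ne_zero _ h2)
    rw [P.ord_pow] at h3
    push_cast at h3
    rw [mul_assoc] at h3
    exact lt_of_mul_lt_mul_left h3 hd0.le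
  · intro h h2
    have h2' : aeval x (T j) ≠ 0 := fun h0 => h2 (by rw [h0, zero_pow (by omega)])
    have h3 := mul_lt_mul_of_pos_left (h h2') hd0
    rw [P.ord_pow]
    push_cast
    linarith

section

variable {k : Type} [Field k] [IsAlgClosed k] [CharZero k] {F : Type} [Field F] [Algebra k F]
  [IsFF k F]

/-- Transfer of the height inequality. -/
theorem transP {n N d r : ℕ} {m : Fin (N + 1) → Fin (n + 1) → ℕ} (hm : Mon n N d m)
    (hd1 : 1 ≤ d) {S : Set (MvPolynomial (Fin (n + 1)) F)}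
    {A : MvPolynomial (Fin (N + 1)) F} (hAH : ∀ (Ω : Type) [Field Ω] [Algebra F Ω]
            (x : Fin (n + 1) → Ω), (∀ p ∈ S, aeval x p = 0) → aeval (ver m x) A = 0)
    {D C₁ : ℕ} (hD : 1 ≤ D) (hpts : PtsP k m S D C₁ A) {e : Fin r → ℕ}
    {T : Fin r → MvPolynomial (Fin (N + 1)) F} (hT : ∀ j, (T j).IsHomogeneous (e j))
    {G : MvPolynomial (Fin (N + 1)) F} {g : ℕ} (hG : G.IsHomogeneous g) :
    OffT k {A} e T G ↔
      OffT k S (fun j => d * e j) (fun j => pullR m (T j)) (pullR m G) := by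
  classical
  obtain ⟨Bc, hBc⟩ := canDeg_lower k F
  have hpull : ∀ (G : MvPolynomial (Fin (N + 1)) F) (L : Type) [Field L] [Algebra F L]
      (x : Fin (n + 1) → L), aeval x (pullR m G) = aeval (ver m x) G := fun G L _ _ x =>
    zb_pull (algebraMap F L) m G x
  have hset : ∀ (L : Type) [Field L] [Algebra k L] [Algebra F L] (x : Fin (n + 1) → L) (c : L),
      x ≠ 0 → c ≠ 0 → {P : Place k L | hits e T (c • ver m x) P} =
        {P : Place k L | hits (fun j => d * e j) (fun j => pullR m (T j)) x P} := by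
    intro L _ _ _ x c hx hc
    ext P
    exact hits_iff hm hT hx hc P
  constructor
  · rintro ⟨c, B, h⟩
    refine ⟨c, B, fun L _ _ _ _ _ x hx hxS hxH hxG => ?_⟩
    have hL : IsFF k L := isFF_of_finite (k := k) (F := F)
    have h1 := hform_ver (k := k) hm hx (one_ne_zero (α := L))
    have h2 := hset L x 1 hx one_ne_zero
    rw [one_smul] at h1 h2
    obtain ⟨j, hj⟩ := hxH
    rw [hpull] at hxG
    have h3 := h L (ver m x) (ver_ne hm hx) (fun p hp => by
      rw [Set.mem_singleton_iff] at hp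
      rw [hp]
      exact hAH L x hxS) ⟨j, by
      rw [← hpull]
      exact hj⟩ hxG
    rw [h1, h2] at h3
    have h4 : pht k x ≤ d * pht k x := by
      have := pht_nn (k := k) hx
      have h5 : (1 : ℤ) ≤ d := by exact_mod_cast hd1
      nlinarith
    exact h4.trans h3
  · rintro ⟨c, B, h⟩
    obtain ⟨B₀, hB₀⟩ := hpts
    refine ⟨d * c + C₁, (d * c) * Bc + B₀ + d * B + C₁ * Bc,
      fun L _ _ _ _ _ y hy hyA hyT hyG => ?_⟩
    have hL : IsFF k L := isFF_of_finite (k := k) (F := F)
    obtain ⟨f, hf⟩ : ∃ f : ℤ, f = Module.finrank F L := ⟨_, rfl⟩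
    have hf0 : 0 ≤ f := by rw [hf]; positivity
    have hc0 := hBc L
    rw [← hf] at hc0 ⊢
    obtain ⟨ν, hν⟩ : ∃ ν : ℤ, ν = {P : Place k L | hits e T y P}.ncard := ⟨_, rfl⟩
    have hν0 : 0 ≤ ν := by rw [hν]; positivity
    rw [← hν]
    have hχ : 0 ≤ canDeg k L + ν + Bc * f := by linarith
    have e1 : 0 ≤ (d : ℤ) * c * (canDeg k L + ν + Bc * f) := mul_nonneg (by positivity) hχ
    have e2 : 0 ≤ (d : ℤ) * B * f := by positivity
    have e3 : 0 ≤ (B₀ : ℤ) * f := by positivity
    have e4 : 0 ≤ (C₁ : ℤ) * (canDeg k L + ν + Bc * f) := mul_nonneg (by positivity) hχ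
    have e5 : 0 ≤ (d : ℤ) * c * (Bc * f) := by positivity
    have e7 : 0 ≤ (C₁ : ℤ) * ν := by positivity
    rcases hB₀ L y hy (hyA A rfl) with h1 | ⟨x, c', hx, hc', hxS, rfl⟩
    · rw [← hf] at h1
      have h6 : pht k y ≤ D * pht k y := by
        have h7 := pht_nn (k := k) hy
        have h8 : (1 : ℤ) ≤ D := by exact_mod_cast hD
        nlinarith
      have e6 : 0 ≤ (C₁ : ℤ) * (Bc * f) := by positivity
      push_cast
      linarith
    · have hsc : ∀ j, aeval (c' • ver m x) (T j) = c' ^ e j * aeval (ver m x) (T j) := fun j =>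
        eval₂_scale (algebraMap F L) (hT j) c' (ver m x)
      have hsc' : aeval (c' • ver m x) G = c' ^ g * aeval (ver m x) G :=
        eval₂_scale (algebraMap F L) hG c' (ver m x)
      rw [hsc'] at hyG
      obtain ⟨j, hj⟩ := hyT
      rw [hsc] at hj
      have h3 := h L x hx hxS ⟨j, by
        rw [hpull]
        exact right_ne_zero_of_mul hj⟩ (by
        rw [hpull]
        exact right_ne_zero_of_mul hyG)
      rw [hform_ver (k := k) hm hx hc']
      rw [hset L x c' hx hc'] at hν
      rw [← hf, ← hν] at h3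
      have h4 := mul_le_mul_of_nonneg_left h3 (by positivity : (0 : ℤ) ≤ d)
      push_cast
      linarith

end

/-- the form `G` over `Ω` vanishes on all closed subvarieties over `Ω` of positive dimension of
`V(S) ∖ V(T)` which are not of log general type -/
def OnSpecT (Ω : Type) {F : Type} [Field Ω] [Field F] [Algebra F Ω] {n r : ℕ}
    (S : Set (MvPolynomial (Fin (n + 1)) F)) (e : Fin r → ℕ)
    (T : Fin r → MvPolynomial (Fin (n + 1)) F) (G : MvPolynomial (Fin (n + 1)) Ω) : Prop :=
  ∀ (L : Type) [Field L] [Algebra Ω L] (w : ℕ) (y : Fin (n + 1) → L), 1 ≤ w → y ≠ 0 →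
    coords Ω y = ⊤ → Algebra.trdeg Ω L = w → (∀ p ∈ S, aeval y (map (algebraMap F Ω) p) = 0) →
    (∃ j, aeval y (map (algebraMap F Ω) (T j)) ≠ 0) →
    ¬ LogGeneralType Ω L w (hits (K := Ω) e (fun j => map (algebraMap F Ω) (T j)) y) →
    aeval y G = 0

theorem pullR_map {F Ω : Type} [Field F] [Field Ω] [Algebra F Ω] {n N : ℕ}
    (m : Fin (N + 1) → Fin (n + 1) → ℕ) (G : MvPolynomial (Fin (N + 1)) F) :
    map (algebraMap F Ω) (pullR m G) = pullR m (map (algebraMap F Ω) G) := by
  unfold pullR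
  rw [aeval_map_algebraMap]
  have h1 : map (algebraMap F Ω) (aeval (fun a => ∏ j, (X j : MvPolynomial (Fin (n + 1)) F) ^ m a j) G)
      = aeval (fun a => map (algebraMap F Ω)
        (∏ j, (X j : MvPolynomial (Fin (n + 1)) F) ^ m a j)) G := by
    have := map_aeval (fun a => ∏ j, (X j : MvPolynomial (Fin (n + 1)) F) ^ m a j)
      (map (algebraMap F Ω) : MvPolynomial (Fin (n + 1)) F →+* MvPolynomial (Fin (n + 1)) Ω) G
    rw [this, aeval_def, coe_eval₂Hom]
    have h2 : (map (algebraMap F Ω)).comp (algebraMap F (MvPolynomial (Fin (n + 1)) F)) =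
        algebraMap F (MvPolynomial (Fin (n + 1)) Ω) := by
      refine RingHom.ext fun r => ?_
      rw [RingHom.comp_apply, algebraMap_eq, map_C, MvPolynomial.algebraMap_apply]
    rw [h2]
  rw [h1]
  congr 2
  funext a
  rw [map_prod]
  refine Finset.prod_congr rfl fun j _ => ?_
  rw [map_pow, map_X]

/-- Transfer of the special sets. -/
theorem trans_specP {F : Type} [Field F] {n N d r : ℕ} {m : Fin (N + 1) → Fin (n + 1) → ℕ}
    (hm : Mon n N d m)
    (hd1 : 1 ≤ d) {S : Set (MvPolynomial (Fin (n + 1)) F)}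
    {A : MvPolynomial (Fin (N + 1)) F} (hAH : ∀ (Ω : Type) [Field Ω] [Algebra F Ω]
            (x : Fin (n + 1) → Ω), (∀ p ∈ S, aeval x p = 0) → aeval (ver m x) A = 0)
    (hsub : SubsP m S A) {e : Fin r → ℕ}
    {T : Fin r → MvPolynomial (Fin (N + 1)) F} (hT : ∀ j, (T j).IsHomogeneous (e j))
    (Ω : Type) [Field Ω] [Algebra F Ω] [IsAlgClosed Ω]
    {G : MvPolynomial (Fin (N + 1)) Ω} {g : ℕ} (hG : G.IsHomogeneous g) :
    OnSpecT Ω {A} e T G ↔
      OnSpecT Ω S (fun j => d * e j) (fun j => pullR m (T j)) (pullR m G) := by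
  classical
  have hAH' : ∀ (L : Type) [Field L] [Algebra Ω L] (x : Fin (n + 1) → L),
      (∀ p ∈ S, aeval x (map (algebraMap F Ω) p) = 0) →
      aeval (ver m x) (map (algebraMap F Ω) A) = 0 := by
    intro L _ _ x hx
    let σ : F →+* L := (algebraMap Ω L).comp (algebraMap F Ω)
    let _ : Algebra F L := σ.toAlgebra
    have h1 := hAH L x (fun p hp => by
      have h2 := hx p hp
      change eval₂ (algebraMap Ω L) x (map (algebraMap F Ω) p) = 0 at h2
      rw [eval₂_map] at h2
      exact h2)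
    change eval₂ σ (ver m x) A = 0 at h1
    change eval₂ (algebraMap Ω L) (ver m x) (map (algebraMap F Ω) A) = 0
    rw [eval₂_map]
    exact h1
  have hTΩ : ∀ j, (map (algebraMap F Ω) (T j)).IsHomogeneous (e j) := fun j => (hT j).map _
  have hbd : ∀ (L : Type) [Field L] [Algebra Ω L] (x : Fin (n + 1) → L) (c : L), x ≠ 0 → c ≠ 0 →
      hits (K := Ω) e (fun j => map (algebraMap F Ω) (T j)) (c • ver m x) =
        hits (K := Ω) (fun j => d * e j) (fun j => map (algebraMap F Ω) (pullR m (T j))) x := by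
    intro L _ _ x c hx hc
    funext P
    simp only [pullR_map]
    exact propext (hits_iff hm hTΩ hx hc P)
  have hpull : ∀ (G : MvPolynomial (Fin (N + 1)) Ω) (L : Type) [Field L] [Algebra Ω L]
      (x : Fin (n + 1) → L), aeval x (pullR m G) = aeval (ver m x) G := fun G L _ _ x =>
    zb_pull (algebraMap Ω L) m G x
  constructor
  · intro h L _ _ w x hw hx hgen htr hxS hxT hlog
    rw [hpull]
    obtain ⟨j, hj⟩ := hxT
    rw [pullR_map, hpull] at hj
    refine h L w (ver m x) hw (ver_ne hm hx) ?_ htr (fun p hp => ?_) ⟨j, hj⟩ ?_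
    · have := coords_verK (Ω := Ω) hm hd1 x hx 1 one_ne_zero
      rw [one_smul] at this
      rw [this, hgen]
    · rw [Set.mem_singleton_iff] at hp
      rw [hp]
      exact hAH' L x hxS
    · have := hbd L x 1 hx one_ne_zero
      rw [one_smul] at this
      rw [this]
      exact hlog
  · intro h L _ _ w y hw hy hgen htr hyA hyT hlog
    rcases hsub Ω L w y hw hy hgen htr (hyA A rfl) with h1 | ⟨x, c, hx, hc, hxS, rfl⟩
    · exfalso
      apply hlog
      obtain ⟨a1, M, a2, ω, a3, a4, a5, a6⟩ := h1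
      exact ⟨a1, M, a2, ω, a3, a4, fun P hP _ j => a5 P hP (fun h => h) j, a6⟩
    · obtain ⟨j, hj⟩ := hyT
      have hsc : aeval (c • ver m x) (map (algebraMap F Ω) (T j)) =
          c ^ e j * aeval (ver m x) (map (algebraMap F Ω) (T j)) :=
        eval₂_scale (algebraMap Ω L) (hTΩ j) c (ver m x)
      rw [hsc] at hj
      rw [hbd L x c hx hc] at hlog
      have h2 := h L w x hw hx (by rw [← hgen, coords_verK (Ω := Ω) hm hd1 x hx c hc]) htr hxS
        ⟨j, by
          rw [pullR_map, hpull]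
          exact right_ne_zero_of_mul hj⟩ hlog
      rw [hpull] at h2
      have hsc' : aeval (c • ver m x) G = c ^ g * aeval (ver m x) G :=
        eval₂_scale (algebraMap Ω L) hG c (ver m x)
      rw [hsc', h2, mul_zero]

end Pool.Agent.W2helper39.FV
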