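import Pool.Agent.W2helper39.FV.Cons
import Pool.Agent.W2helper39.LC.ZBlv
import Pool.Agent.N254.SQ.Red

/-!
The construction over a function field: the general hypersurface
`∑ t, Q_t (x_0 + t x_1 + ⋯) ^ D = 0`.
-/

set_option autoImplicit false
set_option linter.unusedSectionVars false

namespace Pool.Agent.W2helper39.FV

open MvPolynomial FF
open Pool.Agent.N254.SQ
open Pool.Agent.W602.GT (LogGeneralType coords)
open Pool.Agent.W603.LV (canDeg hgt tri Ge)
open Pool.Agent.W603.PV (pht pord pord_le exists_pord ge_pord isFF_of_finite hgt_algebraMap canDeg_ge)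
open Pool.Agent.W2helper39.LC (sub_min')

/-- a vanishing sum whose minimal vanishing subsums have few terms -/
theorem split1 {V : Type} [AddCommGroup V] {n M : ℕ} (hn : 1 ≤ n) (hM : M = n * (2 * n + 1))
    (v : Fin M → V) (hv : ∑ i, v i = 0)
    (hsize : ∀ B : Finset (Fin M), n + 1 ≤ B.card → ∑ i ∈ B, v i = 0 →
      (∀ B' ⊆ B, B'.Nonempty → B' ≠ B → ∑ i ∈ B', v i ≠ 0) → False) :
    ∃ 𝓑 : Finset (Finset (Fin M)), (∀ B ∈ 𝓑, B.Nonempty) ∧
      (∀ B ∈ 𝓑, ∀ B' ∈ 𝓑, B ≠ B' → Disjoint B B') ∧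
      (∀ B ∈ 𝓑, ∑ t ∈ B, v t = 0) ∧ 2 * n + 1 ≤ 𝓑.card := by
  classical
  obtain ⟨𝓒, hne, hdis, hcov, hmin⟩ := t_part V (Fin M) v hv
  have hcard : ∀ B ∈ 𝓒, B.card ≤ n := by
    intro B hB
    by_contra hcon
    push Not at hcon
    exact hsize B hcon (hmin B hB).1 (hmin B hB).2
  refine ⟨𝓒, hne, hdis, fun B hB => (hmin B hB).1, ?_⟩
  have hunion : (Finset.univ : Finset (Fin M)) ⊆ 𝓒.biUnion id := by
    intro t _
    obtain ⟨B, hB, ht⟩ := hcov t
    exact Finset.mem_biUnion.2 ⟨B, hB, ht⟩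
  have h1 := Finset.card_le_card hunion
  have h2 : (𝓒.biUnion id).card ≤ 𝓒.card * n :=
    Finset.card_biUnion_le_card_mul _ _ _ fun B hB => hcard B hB
  rw [Finset.card_univ, Fintype.card_fin] at h1
  have h4 : n * (2 * n + 1) ≤ n * 𝓒.card := by rw [← hM, mul_comm n]; exact h1.trans h2
  exact Nat.le_of_mul_le_mul_left h4 hn

/-- the data of a block with many terms -/
theorem blk1 {N M : ℕ} (hN : 1 ≤ N) (B : Finset (Fin M)) (hB : N + 1 ≤ B.card) :
    ∃ (p : Fin (N + 1) → ℕ) (ψ : Fin (N + 1) → {i // i ∈ B}),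
      Function.Injective p ∧ (∀ i, ((ψ i).1 : ℕ) = p i) ∧
      Fintype.card {i // i ∈ B} ≤ M ∧ 2 ≤ Fintype.card {i // i ∈ B} := by
  obtain ⟨φ⟩ : Nonempty (Fin (N + 1) ↪ {t // t ∈ B}) := by
    apply Function.Embedding.nonempty_of_card_le
    rw [Fintype.card_fin, Fintype.card_coe]
    exact hB
  refine ⟨fun i => ((φ i).1 : ℕ), φ, fun i j hij => φ.injective (Subtype.ext (Fin.ext hij)),
    fun i => rfl, ?_, ?_⟩
  · rw [Fintype.card_coe]
    refine (Finset.card_le_univ B).trans ?_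
    simp
  · rw [Fintype.card_coe]
    omega

/-- points of large height -/
theorem alg_P {N : ℕ} (hN : 1 ≤ N) : ∃ D₁ C₁ : ℕ, ∀ D, D₁ ≤ D → ∀ (k : Type) [Field k]
    [IsAlgClosed k] [CharZero k] (L : Type) [Field L] [Algebra k L] [IsFF k L] (C₀ : Finset L)
    (Q : Fin (N * (2 * N + 1)) → MvPolynomial (Fin (N + 1)) L),
      (∀ t, (Q t).IsHomogeneous 2) → (∀ t, CoefIn C₀ (Q t)) →
      ∀ (y : Fin (N + 1) → L), y ≠ 0 → aeval y (powerFormOver D Q) = 0 →
        ¬ D * pht k y ≤ C₁ * (max (canDeg k L) 0 + cht k C₀) →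
        ∃ 𝓑 : Finset (Finset (Fin (N * (2 * N + 1)))), (∀ B ∈ 𝓑, B.Nonempty) ∧
          (∀ B ∈ 𝓑, ∀ B' ∈ 𝓑, B ≠ B' → Disjoint B B') ∧
          (∀ B ∈ 𝓑, ∑ t ∈ B, aeval y (Q t) * aeval y (lin L N (t : ℕ)) ^ D = 0) ∧
          2 * N + 1 ≤ 𝓑.card := by
  classical
  obtain ⟨D₁, C₁, h⟩ := alg_F N 2 (N * (2 * N + 1))
  refine ⟨D₁, C₁, fun D hD k _ _ _ L _ _ _ C₀ Q hQ hC2 y hy hA0 hb => ?_⟩
  refine split1 hN rfl (fun t => aeval y (Q t) * aeval y (lin L N (t : ℕ)) ^ D) ?_ ?_
  · rw [← hA0, powerFormOver, map_sum]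
    refine Finset.sum_congr rfl fun t _ => ?_
    rw [map_mul, map_pow]
    rfl
  · intro B hB hB0 hBmin
    obtain ⟨p, ψ, b1, b4, b5, b6⟩ := blk1 hN B hB
    apply hb
    have key := h D hD k L C₀ ∅ {i // i ∈ B} b5 b6 y hy
      (fun i => aeval y (Q i.1) * aeval y (lin L N (i.1 : ℕ)) ^ D) Finset.univ
      (fun i => Q i.1) (fun i => lin L N (i.1 : ℕ)) p ψ b1
      (fun t _ => ⟨hQ _, hC2 _, rfl⟩) (fun t ht => absurd (Finset.mem_univ t) ht)
      (fun i => ⟨Finset.mem_univ _, by rw [b4]⟩) ?_ ?_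
    · rwa [Finset.card_empty, Nat.cast_zero, add_zero] at key
    · have h7 := hB0
      rw [← Finset.sum_coe_sort] at h7
      exact h7
    · exact fun B' => sub_min' (fun t => aeval y (Q t) * aeval y (lin L N (t : ℕ)) ^ D) B hBmin B'

/-- subvarieties -/
theorem special_P {N : ℕ} (hN : 1 ≤ N) : ∃ D₁ : ℕ, ∀ D, D₁ ≤ D →
    ∀ (Ω : Type) [Field Ω] [IsAlgClosed Ω] [CharZero Ω]
      (Q : Fin (N * (2 * N + 1)) → MvPolynomial (Fin (N + 1)) Ω), (∀ t, (Q t).IsHomogeneous 2) →
      ∀ (L : Type) [Field L] [Algebra Ω L] (w : ℕ) (y : Fin (N + 1) → L), 1 ≤ w → y ≠ 0 →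
        coords Ω y = ⊤ → Algebra.trdeg Ω L = w → aeval y (powerFormOver D Q) = 0 →
        ¬ LogGeneralType Ω L w (fun _ => False) →
        ∃ 𝓑 : Finset (Finset (Fin (N * (2 * N + 1)))), (∀ B ∈ 𝓑, B.Nonempty) ∧
          (∀ B ∈ 𝓑, ∀ B' ∈ 𝓑, B ≠ B' → Disjoint B B') ∧
          (∀ B ∈ 𝓑, ∑ t ∈ B, aeval y (Q t) * aeval y (lin Ω N (t : ℕ)) ^ D = 0) ∧
          2 * N + 1 ≤ 𝓑.card := by
  classical
  obtain ⟨D₁, h⟩ := gtK_log 2 (N * (2 * N + 1))
  refine ⟨D₁, fun D hD Ω _ _ _ Q hQ L _ _ w y hw hy0 hgen htr hA0 hlog => ?_⟩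
  refine split1 hN rfl (fun t => aeval y (Q t) * aeval y (lin Ω N (t : ℕ)) ^ D) ?_ ?_
  · rw [← hA0, powerFormOver, map_sum]
    refine Finset.sum_congr rfl fun t _ => ?_
    rw [map_mul, map_pow]
    rfl
  · intro B hB hB0 hBmin
    obtain ⟨p, ψ, b1, b4, b5, b6⟩ := blk1 hN B hB
    apply hlog
    refine h D hD Ω L N w y hw hy0 hgen htr _ {i // i ∈ B} b5 b6
      (fun i => aeval y (Q i.1) * aeval y (lin Ω N (i.1 : ℕ)) ^ D) Finset.univ
      (fun i => Q i.1) (fun i => lin Ω N (i.1 : ℕ)) p ψ b1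
      (fun t _ => ⟨hQ _, GK_lin_hom N _, rfl⟩) (fun t ht => absurd (Finset.mem_univ t) ht)
      (fun i => ⟨Finset.mem_univ _, by rw [b4]⟩) ?_ ?_
    · have h7 := hB0
      rw [← Finset.sum_coe_sort] at h7
      exact h7
    · exact fun B' => sub_min' (fun t => aeval y (Q t) * aeval y (lin Ω N (t : ℕ)) ^ D) B hBmin B'

theorem power_map {R R' : Type} [Field R] [Field R'] {N M : ℕ} (D : ℕ) (σ : R →+* R')
    (Q : Fin M → MvPolynomial (Fin (N + 1)) R) :
    map σ (powerFormOver D Q) = powerFormOver D fun t => map σ (Q t) := by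
  unfold powerFormOver
  rw [map_sum]
  refine Finset.sum_congr rfl fun t _ => ?_
  rw [map_mul, map_pow, map_sum]
  congr 2
  refine Finset.sum_congr rfl fun j _ => ?_
  rw [map_mul, map_C, map_X, map_pow, map_natCast]

theorem power_homF {R : Type} [Field R] {N M D : ℕ} {Q : Fin M → MvPolynomial (Fin (N + 1)) R}
    (hQ : ∀ t, (Q t).IsHomogeneous 2) : (powerFormOver D Q).IsHomogeneous (D + 2) := by
  refine IsHomogeneous.sum _ _ _ fun t _ => ?_
  have h1 : (∑ j : Fin (N + 1), C (((t : ℕ) : R) ^ (j : ℕ)) * X j :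
      MvPolynomial (Fin (N + 1)) R).IsHomogeneous 1 := by
    refine IsHomogeneous.sum _ _ _ fun j _ => ?_
    have h2 := (isHomogeneous_C (Fin (N + 1)) (((t : ℕ) : R) ^ (j : ℕ))).mul
      (isHomogeneous_X R j)
    rwa [zero_add] at h2
  have h3 := (hQ t).mul (h1.pow D)
  rwa [one_mul, add_comm 2 D] at h3

/-- The height inequality on the general hypersurface. -/
theorem consP_main (N : ℕ) (hN : 1 ≤ N) :
    ∃ D₁ C₁ : ℕ, ∀ D, D₁ ≤ D → ∀ (F : Type) [Field F] [CharZero F] (ι : Type) [Fintype ι]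
      (q : ι → MvPolynomial (Fin (N + 1)) F),
      (∀ i, (q i).IsHomogeneous 2) → ∀ r : ℕ,
      (∀ (Ω : Type) [Field Ω] [Algebra F Ω] (x : Fin (N + 1) → Ω), x ≠ 0 →
        (∀ i, aeval x (q i) = 0) →
        r < (Matrix.of fun (i : ι) (j : Fin (N + 1)) => (aeval x (pderiv j (q i)) : Ω)).rank) →
      (∀ (Ω : Type) [Field Ω] [Algebra F Ω] (x : Fin (N + 1) → Ω) (a : Fin (N + 1)), x a = 1 →
        (∀ i, aeval x (q i) = 0) → Algebra.trdeg F (Algebra.adjoin F (Set.range x)) ≤ r) →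
      ∃ c : Fin (N * (2 * N + 1)) → ι → F,
        SmoothOver (powerFormOver D fun t => ∑ i, C (c t i) * q i) ∧
        (∀ (k : Type) [Field k] [IsAlgClosed k] [CharZero k] [Algebra k F] [IsFF k F],
        ∃ B : ℕ, ∀ (L : Type) [Field L] [Algebra k L] [Algebra F L] [IsScalarTower k F L]
          [FiniteDimensional F L] (y : Fin (N + 1) → L), y ≠ 0 →
          aeval y (powerFormOver D fun t => ∑ i, C (c t i) * q i) = 0 →
          D * pht k y ≤ C₁ * canDeg k L + B * Module.finrank F L ∨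
          ∀ i, aeval y (q i) = 0) ∧
        ∀ (Ω : Type) [Field Ω] [Algebra F Ω] [IsAlgClosed Ω] (L : Type) [Field L] [Algebra Ω L]
          (w : ℕ) (y : Fin (N + 1) → L), 1 ≤ w → y ≠ 0 → coords Ω y = ⊤ → Algebra.trdeg Ω L = w →
          aeval y (map (algebraMap F Ω)
            (powerFormOver D fun t => ∑ i, C (c t i) * q i)) = 0 →
          LogGeneralType Ω L w (fun _ => False) ∨
          ∀ i, aeval y (map (algebraMap F Ω) (q i)) = 0 := by
  classical
  obtain ⟨D₀, C₁, hD₀⟩ := alg_P hN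
  obtain ⟨D₂, hD₂⟩ := special_P hN
  refine ⟨max (max D₀ D₂) 1, C₁, fun D hD F _ _ ι _ q hq r hr1 hr2 => ?_⟩
  have hDD : D₀ ≤ D := le_trans (le_trans (le_max_left _ _) (le_max_left _ _)) hD
  have hDD2 : D₂ ≤ D := le_trans (le_trans (le_max_right _ _) (le_max_left _ _)) hD
  have hD1 : 1 ≤ D := le_trans (le_max_right _ _) hD
  have hL2 : 2 * N + 1 ≤ N * (2 * N + 1) := Nat.le_mul_of_pos_left _ hN
  obtain ⟨Δ₁, hΔ₁, hB1⟩ := t_blocks t_spec t_count t_td F N (N * (2 * N + 1)) D 2 ι q hq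
  obtain ⟨Δ₂, hΔ₂, hS1⟩ := t_smooth t_spec t_count t_td F N (N * (2 * N + 1)) D 2 r ι q hq hD1 hL2
    hr1 hr2
  obtain ⟨c, hc⟩ : ∃ c : Fin (N * (2 * N + 1)) × ι → F, eval c (Δ₁ * Δ₂) ≠ 0 := by
    by_contra hcon
    push Not at hcon
    exact mul_ne_zero hΔ₁ hΔ₂ (MvPolynomial.funext fun c => by rw [hcon c, map_zero])
  rw [map_mul] at hc
  have hc1 := left_ne_zero_of_mul hc
  have hc2 := right_ne_zero_of_mul hc
  obtain ⟨Q, hQ⟩ : ∃ Q : Fin (N * (2 * N + 1)) → MvPolynomial (Fin (N + 1)) F,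
      Q = fun t => ∑ i, C (c (t, i)) * q i := ⟨_, rfl⟩
  have hQ2 : ∀ t, (Q t).IsHomogeneous 2 := by
    intro t
    rw [hQ]
    exact fam_hom hq _
  have haev : ∀ {κ : Type} (Ω : Type) [Field Ω] (σ : F →+* Ω) (Δ : MvPolynomial κ F) (c : κ → F),
      eval c Δ ≠ 0 → eval₂ σ (fun p => σ (c p)) Δ ≠ 0 := by
    intro κ Ω _ σ Δ c h h2
    apply h
    apply σ.injective
    rw [map_zero, ← h2]
    exact (eval₂_comp (f := σ) (g := c) Δ).trans rfl
  obtain ⟨A, hA⟩ : ∃ A, A = powerFormOver D Q := ⟨_, rfl⟩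
  have hA' : (powerFormOver D fun t => ∑ i, C (c (t, i)) * q i) = A := by
    rw [hA, hQ]
  refine ⟨fun t i => c (t, i), ?_, ?_, ?_⟩
  · intro Ω _ τ x hx
    let _ : Algebra F Ω := τ.toAlgebra
    obtain ⟨j, hj⟩ := hS1 Ω (fun p => τ (c p)) (haev Ω τ Δ₂ c hc2) x hx
    refine ⟨j, ?_⟩
    have h1 : (∑ t : Fin (N * (2 * N + 1)),
        (∑ i, C (τ (c (t, i))) * map (algebraMap F Ω) (q i)) * lin Ω N (t : ℕ) ^ D) =
        map τ (powerFormOver D fun t => ∑ i, C (c (t, i)) * q i) := by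
      rw [power_map]
      unfold powerFormOver
      refine Finset.sum_congr rfl fun t _ => ?_
      have h2 : map τ (∑ i, C (c (t, i)) * q i) =
          ∑ i, C (τ (c (t, i))) * map (algebraMap F Ω) (q i) := by
        rw [map_sum]
        refine Finset.sum_congr rfl fun i _ => ?_
        rw [map_mul, map_C]
        rfl
      rw [← h2]
      rfl
    rw [h1, pderiv_map, eval_map] at hj
    exact hj
  · intro k _ _ _ _ _
    rw [hA']
    obtain ⟨B₀, hB₀⟩ := canDeg_lower k F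
    obtain ⟨CF, hCF⟩ : ∃ CF : Finset F, CF = Finset.univ.biUnion fun t => coefs (Q t) := ⟨_, rfl⟩
    refine ⟨C₁ * (B₀ + (cht k CF).toNat), fun L _ _ _ _ _ y hy hA0 => ?_⟩
    have hL : IsFF k L := isFF_of_finite (k := k) (F := F)
    obtain ⟨f, hf⟩ : ∃ f : ℤ, f = Module.finrank F L := ⟨_, rfl⟩
    have hf0 : 0 ≤ f := by rw [hf]; positivity
    have hAm : powerFormOver D (fun t => map (algebraMap F L) (Q t)) =
        map (algebraMap F L) A := by
      rw [hA, power_map]
    have hev : aeval y (map (algebraMap F L) A) = aeval y A := aeval_map_algebraMap L y A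
    by_cases hb : D * pht k y ≤ C₁ * (max (canDeg k L) 0 + cht k (CF.image (algebraMap F L)))
    · left
      refine hb.trans ?_
      rw [cht_image (k := k) (F := F) (L := L) CF]
      have h1 := hB₀ L
      have h2 : cht k CF ≤ ((cht k CF).toNat : ℤ) := Int.self_le_toNat _
      have h3 : cht k CF * f ≤ ((cht k CF).toNat : ℤ) * f :=
        mul_le_mul_of_nonneg_right h2 hf0
      have h4 : max (canDeg k L) 0 ≤ canDeg k L + B₀ * f := by
        have h5 : 0 ≤ (B₀ : ℤ) * f := by positivity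
        rw [← hf] at h1
        exact max_le (by linarith) (by linarith)
      have h7 := mul_le_mul_of_nonneg_left (add_le_add h4 h3) (by positivity : (0 : ℤ) ≤ C₁)
      push_cast
      rw [← hf]
      linarith
    · right
      obtain ⟨𝓑, hne, hdis, hvan, hcard⟩ := hD₀ D hDD k L (CF.image (algebraMap F L))
        (fun t => map (algebraMap F L) (Q t)) (fun t => (hQ2 t).map _)
        (fun t => by
          refine coefIn_map ?_
          rw [hCF]
          intro z hz
          exact Finset.mem_biUnion.2 ⟨t, Finset.mem_univ _, hz⟩)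
        y hy (by rw [hAm, hev]; exact hA0) hb
      have key := hB1 L (fun p => algebraMap F L (c p)) (haev L (algebraMap F L) Δ₁ c hc1) 𝓑 hne
        hdis hcard y hy (by
          intro B hBB
          rw [← hvan B hBB]
          apply Finset.sum_congr rfl
          intro t _
          congr 1
          · rw [aeval_map_algebraMap, hQ, map_sum]
            refine Finset.sum_congr rfl fun i _ => ?_
            rw [map_mul, aeval_C]
          · rw [lin, lin, map_sum, map_sum]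
            congr 1
            refine Finset.sum_congr rfl fun j _ => ?_
            rw [map_mul, map_mul, aeval_C, aeval_C, aeval_X, aeval_X, map_pow, map_pow,
              map_natCast, map_natCast])
      exact key
  · intro Ω _ _ _ L _ _ w y hw hy hgen htr hA0
    have hcΩ : CharZero Ω := charZero_of_injective_algebraMap (algebraMap F Ω).injective
    rw [hA'] at hA0
    have hAm : powerFormOver D (fun t => map (algebraMap F Ω) (Q t)) =
        map (algebraMap F Ω) A := by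
      rw [hA, power_map]
    by_cases hlog : LogGeneralType Ω L w (fun _ => False)
    · exact Or.inl hlog
    · right
      obtain ⟨𝓑, hne, hdis, hvan, hcard⟩ := hD₂ D hDD2 Ω
        (fun t => map (algebraMap F Ω) (Q t))
        (fun t => (hQ2 t).map _) L w y hw hy hgen htr (by rw [hAm]; exact hA0) hlog
      let σ : F →+* L := (algebraMap Ω L).comp (algebraMap F Ω)
      let _ : Algebra F L := σ.toAlgebra
      have key := hB1 L (fun p => σ (c p)) (haev L σ Δ₁ c hc1) 𝓑 hne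
        hdis hcard y hy (by
          intro B hBB
          rw [← hvan B hBB]
          apply Finset.sum_congr rfl
          intro t _
          congr 1
          · rw [hQ]
            change _ = eval₂ (algebraMap Ω L) y (map (algebraMap F Ω) _)
            rw [eval₂_map, eval₂_sum]
            refine Finset.sum_congr rfl fun i _ => ?_
            rw [eval₂_mul, eval₂_C]
            rfl
          · rw [lin, lin, map_sum, map_sum]
            congr 1
            refine Finset.sum_congr rfl fun j _ => ?_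
            rw [map_mul, map_mul, aeval_C, aeval_C, aeval_X, aeval_X, map_pow, map_pow,
              map_natCast, map_natCast])
      intro i
      have h1 : eval₂ σ y (q i) = 0 := key i
      change eval₂ (algebraMap Ω L) y (map (algebraMap F Ω) (q i)) = 0
      rw [eval₂_map]
      exact h1

end Pool.Agent.W2helper39.FV
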