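import Pool.Agent.W2helper39.FV.All

/-!
Transfer of the height inequality between an affine variety and the complement of a hypersurface.
-/

set_option autoImplicit false
set_option linter.unusedSectionVars false

namespace Pool.Agent.W2helper39.FV

open MvPolynomial FF
open Pool.Agent.N254.SQ
open Pool.Agent.W603.LV (canDeg hgt tri Ge)
open Pool.Agent.W603.PV (pht pord isFF_of_finite)
open Pool.Agent.W2helper39.LC (formR formR_hom formR_map Mn)

/-- The height inequality for the points of `V(S) ∖ {H = 0}` over the finite extensions of `F` outside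
of `G = 0`, `H` of degree `e`. -/
def OffF (k : Type) {F : Type} [Field k] [Field F] [Algebra k F] {n : ℕ}
    (S : Set (MvPolynomial (Fin (n + 1)) F)) (e : ℕ) (H G : MvPolynomial (Fin (n + 1)) F) : Prop :=
  ∃ c B : ℕ, ∀ (L : Type) [Field L] [Algebra k L] [Algebra F L] [IsScalarTower k F L]
    [FiniteDimensional F L] (x : Fin (n + 1) → L), x ≠ 0 → (∀ p ∈ S, aeval x p = 0) →
    aeval x H ≠ 0 → aeval x G ≠ 0 →
      pht k x ≤ c * (canDeg k L + (meetsA k e H x).ncard) + B * Module.finrank F L

section

variable {k : Type} [Field k] [IsAlgClosed k] [CharZero k] {F : Type} [Field F] [Algebra k F]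
  [IsFF k F]

theorem pht_nn {L : Type} [Field L] [Algebra k L] [IsFF k L] {n : ℕ} {x : Fin (n + 1) → L}
    (hx : x ≠ 0) : 0 ≤ pht k x := by
  obtain ⟨j, hj⟩ := hform_ne hx
  obtain ⟨S, hS, -⟩ := t_hform.zeros k L n 1 x hx (X j) (isHomogeneous_X k j) (by
    rw [aeval_X]
    exact hj)
  have : (0 : ℤ) ≤ S.card := by positivity
  push_cast at hS
  linarith

/-- almost no places over the zeros and poles of `a` -/
theorem exists_bad (a : F) : ∃ B : ℕ, ∀ (L : Type) [Field L] [Algebra k L]
    [Algebra F L] [IsScalarTower k F L] [FiniteDimensional F L], ∃ T : Finset (Place k L),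
      (T.card : ℤ) ≤ B * Module.finrank F L ∧ ∀ P ∉ T, P.ord (algebraMap F L a) = 0 := by
  classical
  refine ⟨(cht k {a, a⁻¹}).toNat, fun L _ _ _ _ _ => ?_⟩
  have hL : IsFF k L := isFF_of_finite (k := k) (F := F)
  obtain ⟨T, hT, hT'⟩ := exists_poles (k := k) (({a, a⁻¹} : Finset F).image (algebraMap F L))
  refine ⟨T, ?_, fun P hP => ?_⟩
  · rw [cht_image (k := k)] at hT
    have h1 : cht k {a, a⁻¹} ≤ ((cht k {a, a⁻¹}).toNat : ℤ) := Int.self_le_toNat _
    have h2 : (Module.finrank F L : ℤ) * cht k {a, a⁻¹} ≤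
        ((cht k {a, a⁻¹}).toNat : ℤ) * Module.finrank F L := by
      rw [mul_comm]
      exact mul_le_mul_of_nonneg_right h1 (by positivity)
    linarith
  · have h0 := hT' P hP
    have h1 := le_mu (P := P) (C := ({a, a⁻¹} : Finset F).image (algebraMap F L))
      (c := algebraMap F L a) (Finset.mem_image_of_mem _ (by simp))
    have h2 := le_mu (P := P) (C := ({a, a⁻¹} : Finset F).image (algebraMap F L))
      (c := algebraMap F L a⁻¹) (Finset.mem_image_of_mem _ (by simp))
    rw [map_inv₀, P.ord_inv] at h2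
    rw [h0] at h1 h2
    omega

/-- a point meets the boundary of the affine variety if and only if its image meets the hypersurface -/
theorem meets_iff {L : Type} [Field L] [Algebra k L] [Algebra F L] [IsScalarTower k F L] [IsFF k L]
    {n N d e e' κ : ℕ} {m : Fin (N + 1) → Fin (n + 1) → ℕ} (hm : Mon n N d m)
    {H : MvPolynomial (Fin (n + 1)) F} {A : MvPolynomial (Fin (N + 1)) F} (hA : A.IsHomogeneous e')
    {a : F} (ha : a ≠ 0) (hκ : 1 ≤ κ) (hd : e * κ = d * e') {x : Fin (n + 1) → L} {c : L}
    (hx : x ≠ 0) (hc : c ≠ 0) (hH : aeval x H ≠ 0)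
    (hAH : aeval (ver m x) A = algebraMap F L a * aeval x H ^ κ) {P : Place k L}
    (hP : P.ord (algebraMap F L a) = 0) :
    P ∈ meetsA k e' A (c • ver m x) ↔ P ∈ meetsA k e H x := by
  have h1 : aeval (c • ver m x) A = c ^ e' * (algebraMap F L a * aeval x H ^ κ) := by
    rw [← hAH]
    exact eval₂_scale (algebraMap F L) hA c (ver m x)
  have haL : algebraMap F L a ≠ 0 := (map_ne_zero _).2 ha
  unfold meetsA
  rw [Set.mem_ofPred_eq, Set.mem_ofPred_eq, h1, P.ord_mul (pow_ne_zero _ hc)
    (mul_ne_zero haL (pow_ne_zero _ hH)), P.ord_pow, P.ord_mul haL (pow_ne_zero _ hH), P.ord_pow,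
    hP, hform_pord_ver hm hx hc P]
  have h2 : (e : ℤ) * κ = d * e' := by exact_mod_cast hd
  have h3 : (0 : ℤ) < κ := by exact_mod_cast hκ
  have h4 : (e' : ℤ) * (P.ord c + d * pord P x) = e' * P.ord c + κ * (e * pord P x) := by
    linear_combination (- pord P x) * h2
  rw [h4, zero_add]
  constructor
  · intro h
    have h5 : (κ : ℤ) * (e * pord P x) < κ * P.ord (aeval x H) := by linarith
    exact lt_of_mul_lt_mul_left h5 h3.le
  · intro h
    have := mul_lt_mul_of_pos_left h h3
    linarith

/-- Transfer of the height inequality. -/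
theorem transF {n N d e e' κ : ℕ} {m : Fin (N + 1) → Fin (n + 1) → ℕ} (hm : Mon n N d m)
    (hd1 : 1 ≤ d) {S : Set (MvPolynomial (Fin (n + 1)) F)} {H : MvPolynomial (Fin (n + 1)) F}
    {A : MvPolynomial (Fin (N + 1)) F} (hA : A.IsHomogeneous e') {a : F} (ha : a ≠ 0) (hκ : 1 ≤ κ)
    (hd : e * κ = d * e') (hAH : ∀ (Ω : Type) [Field Ω] [Algebra F Ω]
            (x : Fin (n + 1) → Ω), (∀ p ∈ S, aeval x p = 0) →
            aeval (ver m x) A = algebraMap F Ω a * aeval x H ^ κ) {D C₁ : ℕ} (hD : 1 ≤ D)
    (hpts : PtsIneq k m S D C₁ e' A)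
    {G : MvPolynomial (Fin (N + 1)) F} {g : ℕ} (hG : G.IsHomogeneous g) :
    OffF k ∅ e' A G ↔ OffF k S e H (pullR m G) := by
  classical
  obtain ⟨Ba, hBa⟩ := exists_bad (k := k) a
  obtain ⟨Bc, hBc⟩ := canDeg_lower k F
  -- comparison of the numbers of places
  have hcmp : ∀ (L : Type) [Field L] [Algebra k L] [Algebra F L] [IsScalarTower k F L]
      [FiniteDimensional F L] (x : Fin (n + 1) → L) (c : L), x ≠ 0 → c ≠ 0 →
      (∀ p ∈ S, aeval x p = 0) → aeval x H ≠ 0 →
      ((meetsA k e' A (c • ver m x)).ncard : ℤ) ≤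
        (meetsA k e H x).ncard + Ba * Module.finrank F L ∧
      ((meetsA k e H x).ncard : ℤ) ≤
        (meetsA k e' A (c • ver m x)).ncard + Ba * Module.finrank F L := by
    intro L _ _ _ _ _ x c hx hc hxS hxH
    have hL : IsFF k L := isFF_of_finite (k := k) (F := F)
    obtain ⟨T, hT, hT'⟩ := hBa L
    have hv0 : c • ver m x ≠ 0 := by
      obtain ⟨j, hj⟩ := hform_ne hx
      obtain ⟨b, hb⟩ := hm.surj (Pi.single j d) (by simp)
      intro h
      have h1 := congrFun h b
      have h2 : ver m x b = x j ^ d := by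
        unfold ver
        rw [hb, Finset.prod_eq_single j]
        · rw [Pi.single_eq_same]
        · intro i _ hi
          rw [Pi.single_eq_of_ne hi, pow_zero]
        · intro h
          exact absurd (Finset.mem_univ _) h
      rw [Pi.smul_apply, smul_eq_mul, h2] at h1
      exact mul_ne_zero hc (pow_ne_zero _ hj) h1
    have hf1 := meetsA_finite (k := k) e' A hv0
    have hf2 := meetsA_finite (k := k) e H hx
    have key : ∀ P ∉ T, (P ∈ meetsA k e' A (c • ver m x) ↔ P ∈ meetsA k e H x) := fun P hP =>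
      meets_iff hm hA ha hκ hd hx hc hxH (hAH L x hxS) (hT' P hP)
    constructor
    · have h1 : meetsA k e' A (c • ver m x) ⊆ meetsA k e H x ∪ T := by
        intro P hP
        by_cases hPT : P ∈ T
        · exact Or.inr hPT
        · exact Or.inl ((key P hPT).1 hP)
      have h2 := Set.ncard_le_ncard h1 (hf2.union T.finite_toSet)
      have h3 := Set.ncard_union_le (meetsA k e H x) (T : Set (Place k L))
      rw [Set.ncard_coe_finset] at h3
      have h4 : ((meetsA k e' A (c • ver m x)).ncard : ℤ) ≤ (meetsA k e H x).ncard + T.card := by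
        exact_mod_cast h2.trans h3
      linarith
    · have h1 : meetsA k e H x ⊆ meetsA k e' A (c • ver m x) ∪ T := by
        intro P hP
        by_cases hPT : P ∈ T
        · exact Or.inr hPT
        · exact Or.inl ((key P hPT).2 hP)
      have h2 := Set.ncard_le_ncard h1 (hf1.union T.finite_toSet)
      have h3 := Set.ncard_union_le (meetsA k e' A (c • ver m x)) (T : Set (Place k L))
      rw [Set.ncard_coe_finset] at h3
      have h4 : ((meetsA k e H x).ncard : ℤ) ≤ (meetsA k e' A (c • ver m x)).ncard + T.card := by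
        exact_mod_cast h2.trans h3
      linarith
  have hpull : ∀ (L : Type) [Field L] [Algebra F L] (x : Fin (n + 1) → L),
      aeval x (pullR m G) = aeval (ver m x) G := fun L _ _ x => zb_pull (algebraMap F L) m G x
  constructor
  · rintro ⟨c, B, h⟩
    refine ⟨c, c * Ba + B, fun L _ _ _ _ _ x hx hxS hxH hxG => ?_⟩
    have hL : IsFF k L := isFF_of_finite (k := k) (F := F)
    obtain ⟨f, hf⟩ : ∃ f : ℤ, f = Module.finrank F L := ⟨_, rfl⟩
    have h1 := hform_ver (k := k) hm hx (one_ne_zero (α := L))
    have h2 := (hcmp L x 1 hx one_ne_zero hxS hxH).1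
    rw [one_smul] at h1 h2
    have hv0 : ver m x ≠ 0 := by
      intro h0
      rw [hpull, h0] at hxG
      rcases Nat.eq_zero_or_pos g with hg | hg
      · -- a constant
        have h3 : aeval (ver m x) A ≠ 0 := by
          rw [hAH L x hxS]
          exact mul_ne_zero ((map_ne_zero _).2 ha) (pow_ne_zero _ hxH)
        apply hxH
        exfalso
        obtain ⟨j, hj⟩ := hform_ne hx
        obtain ⟨b, hb⟩ := hm.surj (Pi.single j d) (by simp)
        have h4 := congrFun h0 b
        have h5 : ver m x b = x j ^ d := by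
          unfold ver
          rw [hb, Finset.prod_eq_single j]
          · rw [Pi.single_eq_same]
          · intro i _ hi
            rw [Pi.single_eq_of_ne hi, pow_zero]
          · intro h
            exact absurd (Finset.mem_univ _) h
        rw [h5] at h4
        exact pow_ne_zero _ hj h4
      · have h3 := eval₂_scale (algebraMap F L) hG 0 (0 : Fin (N + 1) → L)
        rw [zero_smul, zero_pow (by omega), zero_mul] at h3
        exact hxG h3
    have h3 := h L (ver m x) hv0 (fun p hp => absurd hp (Set.notMem_empty _)) (by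
      rw [hAH L x hxS]
      exact mul_ne_zero ((map_ne_zero _).2 ha) (pow_ne_zero _ hxH)) (by rwa [← hpull])
    rw [h1] at h3
    have h4 : pht k x ≤ d * pht k x := by
      have := pht_nn (k := k) hx
      have h5 : (1 : ℤ) ≤ d := by exact_mod_cast hd1
      nlinarith
    rw [← hf] at h2 h3 ⊢
    have h5 : (c : ℤ) * (meetsA k e' A (ver m x)).ncard ≤
        c * ((meetsA k e H x).ncard + Ba * f) := mul_le_mul_of_nonneg_left h2 (by positivity)
    push_cast
    linarith
  · rintro ⟨c, B, h⟩
    obtain ⟨B₀, hB₀⟩ := hpts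
    refine ⟨d * c + C₁, (d * c) * Bc + B₀ + (d * c * Ba + d * B) + C₁ * Bc,
      fun L _ _ _ _ _ y hy _ hyA hyG => ?_⟩
    have hL : IsFF k L := isFF_of_finite (k := k) (F := F)
    obtain ⟨f, hf⟩ : ∃ f : ℤ, f = Module.finrank F L := ⟨_, rfl⟩
    have hf0 : 0 ≤ f := by rw [hf]; positivity
    have hc0 := hBc L
    rw [← hf] at hc0 ⊢
    have hχ : 0 ≤ canDeg k L + (meetsA k e' A y).ncard + Bc * f := by
      have : (0 : ℤ) ≤ (meetsA k e' A y).ncard := by positivity
      linarith
    have e1 : 0 ≤ (d : ℤ) * c * (canDeg k L + (meetsA k e' A y).ncard + Bc * f) :=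
      mul_nonneg (by positivity) hχ
    have e2 : 0 ≤ ((d : ℤ) * c * Ba + d * B) * f := by positivity
    have e3 : 0 ≤ (B₀ : ℤ) * f := by positivity
    have e4 : 0 ≤ (C₁ : ℤ) * (canDeg k L + (meetsA k e' A y).ncard + Bc * f) :=
      mul_nonneg (by positivity) hχ
    have e5 : 0 ≤ (d : ℤ) * c * (Bc * f) := by positivity
    rcases hB₀ L y hy hyA with h1 | ⟨x, c', hx, hc', hxS, rfl⟩
    · rw [← hf] at h1
      have h6 : pht k y ≤ D * pht k y := by
        have h7 := pht_nn (k := k) hy
        have h8 : (1 : ℤ) ≤ D := by exact_mod_cast hD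
        nlinarith
      have e6 : 0 ≤ (C₁ : ℤ) * (Bc * f) := by positivity
      push_cast
      linarith
    · have hsc : aeval (c' • ver m x) A = c' ^ e' * aeval (ver m x) A :=
        eval₂_scale (algebraMap F L) hA c' (ver m x)
      have hsc' : aeval (c' • ver m x) G = c' ^ g * aeval (ver m x) G :=
        eval₂_scale (algebraMap F L) hG c' (ver m x)
      rw [hsc, hAH L x hxS] at hyA
      have hxH : aeval x H ≠ 0 := by
        intro h0
        rw [h0, zero_pow (by omega), mul_zero, mul_zero] at hyA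
        exact hyA rfl
      rw [hsc'] at hyG
      have h2 := (hcmp L x c' hx hc' hxS hxH).2
      have h3 := h L x hx hxS hxH (by
        rw [hpull]
        exact right_ne_zero_of_mul hyG)
      rw [hform_ver (k := k) hm hx hc']
      rw [← hf] at h2 h3
      have h4 := mul_le_mul_of_nonneg_left h3 (by positivity : (0 : ℤ) ≤ d)
      have h5 : (d : ℤ) * c * (meetsA k e H x).ncard ≤
          d * c * ((meetsA k e' A (c' • ver m x)).ncard + Ba * f) :=
        mul_le_mul_of_nonneg_left h2 (by positivity)
      push_cast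
      linarith

end

end Pool.Agent.W2helper39.FV
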